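import Pool.Agent.Lib.MP_107652_al.Even.Basic

/-!
# MP_107652_al: the weighted girth of all even Artin groups. Statements with proofs

Goal (`Final`): if the Artin groups of two finite labelled graphs with even labels are isomorphic, the
graphs have the same weighted girth. Part A: group theory (localised star representations over the
complex numbers). Part B: integral matrices and the combinatorics of light and heavy edges, in the
abstract situation `Core` of `Basic.lean` (read that file first, in particular `Sup`, `mm`, `sup_ndvd`,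
`sup_odd`, `hdiv`, `Core.swap`, `up_star`, `up_up`, `adj_tw`). Part C: cycles.
An edge is light if its half label is `1`, heavy if it is `≥ 2`.
-/

set_option autoImplicit false

open Finset

namespace WGEven

open WGirth WGTwin

/-! ## Part A: group theory -/

/-- Two even labelled graphs on `V` with the same graph, and the matrices of an isomorphism. -/
structure TDE {V : Type} [Fintype V] [DecidableEq V] (Γ Λ : LGraph V) (M N : V → V → ℤ) : Prop where
  td : TD Γ Λ M N
  ex : ∃ (x : V → (Artin Γ →* Multiplicative ℤ)) (y : V → (Artin Λ →* Multiplicative ℤ))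
    (e : Artin Γ ≃* Artin Λ), IsExp Γ x ∧ IsExp Λ y ∧
    (∀ i v, M i v = mat y e.toMonoidHom i v) ∧ (∀ v i, N v i = mat x e.symm.toMonoidHom v i)

/-- **Trans2.** Proof. Let `x`, `y` be the exponent sums of `WGirth.expHom` (`../ExpHom.lean`) for `Γ`, `Λ`,
`M0 = mat y e`, `N0 = mat x e.symm`; `Pre Γ Λ M0 N0` as in the proof of `preEx` (`../Twin/PreEx.lean`, copy it or
import the lemmas; `HeisGen` and `StarEx` are theorems `heisGen`, `starEx ..` there). `σ` from `permEx`, then
`domM`, `domN`, `adjIso` and the construction in `../Twin/Transport.lean` give `TD Γ (pull Λ σ) M N` with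
`M v' v = M0 (σ v') v`, `N v v' = N0 v (σ v')` (copy the proof of `transport`; the statement there hides `σ`).
Let `r : Artin (pull Λ σ) ≃* Artin Λ` be the isomorphism `gen v ↦ gen (σ v)` (both directions by
`PresentedGroup.toGroup` or `exists_hom` with `gen_rel`, inverse to each other by `hom_ext`; labels of
`pull Λ σ` are those of `Λ` by definition, `pull Λ σ` is even). Take `e' = e.trans r.symm` and
`y' v = (y (σ v)).comp r`; `IsExp` for `y'`: the first part is a computation, the second part is `IsExp` for `y`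
applied to `f.comp r.symm` and reindexed with `σ` (`Equiv.prod_comp`). -/
def Trans2 : Prop := ∀ (V W : Type) [Fintype V] [Fintype W] [DecidableEq V] [DecidableEq W]
  (Γ : LGraph V) (Λ : LGraph W), IsEven Γ → IsEven Λ → Nonempty (Artin Γ ≃* Artin Λ) →
  ∃ (σ : V ≃ W) (M N : V → V → ℤ), TDE Γ (pull Λ σ) M N

/-- **TDESymm.** Proof. `tDsymm` (`../Twin/DomTr.lean`) and `e.symm`. -/
def TDESymm : Prop := ∀ (V : Type) [Fintype V] [DecidableEq V] (Γ Λ : LGraph V) (M N : V → V → ℤ),
  TDE Γ Λ M N → TDE Λ Γ N M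

/-- **RepC.** A family of representations which depends linearly on its fixed points.
`kind v = some 0`: fixed point `c.1`; `some 1`: fixed point `c.2.1`; `some 2`: a translation by
`c.2.2 v`; `none`: trivial. Proof. For every `c` use `exists_hom` with `g v = ⟨z v, (1 - z v) * c.1⟩`,
`⟨z v, (1 - z v) * c.2.1⟩`, `⟨1, c.2.2 v⟩`, `1`. Relations: equal kinds commute (`Aff.commute_iff`); kind `none` is
trivial; `0` and `1` adjacent: both products have linear part `z s * z t`, use `Aff.pow_eq_one` twice (in both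
orders, `half_comm`); `0, 2` and `1, 2` are not adjacent. Linear parts do not depend on `c` (`hom_ext` for
`Aff.lin.comp`), this gives `χ`; `B c g` is the translation part of the image of `g`. Additivity and
homogeneity in `c`: for fixed `c, c'` the map `g ↦ ⟨χ g, B c g + B c' g⟩` is a homomorphism to `Aff` which agrees
with the one for `c + c'` on the generators; the same for scalars. -/
def RepC : Prop := ∀ (V : Type) [Fintype V] [DecidableEq V] (Λ : LGraph V), IsEven Λ →
  ∀ (kind : V → Option (Fin 3)) (z : V → ℂˣ),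
  (∀ s t, Λ.graph.Adj s t → kind s = some 0 → kind t = some 1 →
    (z s : ℂ) * z t ≠ 1 ∧ ((z s : ℂ) * z t) ^ half Λ s t = 1) →
  (∀ s t, Λ.graph.Adj s t → kind t = some 2 → kind s ≠ some 0 ∧ kind s ≠ some 1) →
  ∃ (χ : Artin Λ →* ℂˣ) (B : (ℂ × ℂ × ({v // kind v = some 2} → ℂ)) →ₗ[ℂ] (Artin Λ → ℂ)),
    (∀ c g h, B c (g * h) = B c g + (χ g : ℂ) * B c h) ∧
    (∀ v, kind v = some 0 → χ (gen Λ v) = z v ∧ ∀ c, B c (gen Λ v) = (1 - (z v : ℂ)) * c.1) ∧
    (∀ v, kind v = some 1 → χ (gen Λ v) = z v ∧ ∀ c, B c (gen Λ v) = (1 - (z v : ℂ)) * c.2.1) ∧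
    (∀ v, kind v = none → χ (gen Λ v) = 1 ∧ ∀ c, B c (gen Λ v) = 0) ∧
    ∀ v (hv : kind v = some 2), χ (gen Λ v) = 1 ∧ ∀ c, B c (gen Λ v) = c.2.2 ⟨v, hv⟩

/-- **PrimeEx.** Real numbers (different odd primes) which together with `2` are multiplicatively
independent. Proof. `q v` = the `(i + 1)`-st prime number (`Nat.nth Nat.Prime (i + 1)`, `i` the index of `v` in
`Fintype.equivFin V`), these are different odd primes. Suppose `2 ^ a * ∏ (q v) ^ (b v) = 1`. Move the factors with
negative exponents to the other side: an equality of natural numbers; compare the exponents of the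
primes (`Nat.factorization_prod`, `Nat.Prime.factorization_pow`), or take `padicValRat` of the rational number. -/
def PrimeEx : Prop := ∀ (V : Type) [Fintype V] [DecidableEq V], ∃ q : V → ℝ, (∀ v, 0 < q v) ∧
  ∀ (a : ℤ) (b : V → ℤ), (2 : ℝ) ^ a * ∏ v, (q v) ^ (b v) = 1 → a = 0 ∧ ∀ v, b v = 0

/-- The data of a star `S0 ∪ S1` near the clique vertex `x`: every element of `S0` is a twin of `x`, all
edges between `S0` and `S1` are degenerate for `z`, the absolute value of `z s` is `2 ^ ε s`. -/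
structure SD {V : Type} [DecidableEq V] (G : SimpleGraph V) (k' : V → V → ℕ) (x : V)
    (S0 S1 : Finset V) (ε : V → ℤ) (z : V → ℂˣ) : Prop where
  clq : Clq G x
  s0 : ∀ s ∈ S0, GTw G s x
  s1 : ∀ s ∈ S1, s = x ∨ G.Adj x s
  ne0 : S0.Nonempty
  ne1 : S1.Nonempty
  dis : Disjoint S0 S1
  eps : ∀ s ∈ S0 ∪ S1, ε s = 1 ∨ ε s = -1
  nrm : ∀ s ∈ S0 ∪ S1, ‖(z s : ℂ)‖ = (2 : ℝ) ^ ε s
  deg : ∀ s ∈ S0, ∀ s' ∈ S1, (z s : ℂ) * z s' ≠ 1 ∧ ((z s : ℂ) * z s') ^ k' s s' = 1

/-- the exponents of the pulled back representation -/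
def nS {V : Type} [DecidableEq V] (M : V → V → ℤ) (S0 S1 : Finset V) (ε : V → ℤ) (w : V) : ℤ :=
  ∑ s ∈ S0 ∪ S1, ε s * M s w

/-- **GenEx.** The vertices outside the star of `x` are divided into `Gen` (those connected to `S1` by a
path outside the star) and `Z`. Proof. `Out w` means `¬ (w = x ∨ G.Adj x w)`. Let `Gen` be the set of all `w` with
`Out w` such that `P w` holds for every `P : V → Prop` with (a) `P g` for all `g` with `Out g` which are adjacent to
some `s ∈ S1`, (b) `P g`, `Out g`, `Out g'`, `Adj g g'` imply `P g'`. Then (4) is the definition; an element of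
`Out` which is adjacent to an element of `S1` or of `Gen` belongs to `Gen`: this gives (2). (3): prove by (4) that
every `g ∈ Gen` has `∀ i, Out i → GDom G g i → i ∈ Gen`: if `g` is adjacent to `s ∈ S1` then `s = i` (impossible,
`s` is in the star of `x`) or `s` is adjacent to `i`; if `g` is adjacent to `g0 ∈ Gen` then `g0 = i` or `g0` is adjacent
to `i`. (For (4) with the extra information `g, g' ∈ Gen` apply the definition to `g ∈ Gen ∧ P g`.) -/
def GenEx : Prop := ∀ (V : Type) [Fintype V] [DecidableEq V] (G : SimpleGraph V) (x : V)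
  (S1 : Finset V), (∀ s ∈ S1, s = x ∨ G.Adj x s) → ∃ Gen Z : Finset V, Disjoint Gen Z ∧
    (∀ w, w ∈ Gen ∪ Z ↔ ¬ (w = x ∨ G.Adj x w)) ∧
    (∀ w ∈ Z, (∀ s ∈ S1, ¬ G.Adj w s) ∧ ∀ g ∈ Gen, ¬ G.Adj w g) ∧
    (∀ g ∈ Gen, ∀ i, ¬ (i = x ∨ G.Adj x i) → GDom G g i → i ∈ Gen) ∧
    ∀ P : V → Prop, (∀ g ∈ Gen, (∃ s ∈ S1, G.Adj g s) → P g) →
      (∀ g ∈ Gen, ∀ g' ∈ Gen, G.Adj g g' → P g → P g') → ∀ g ∈ Gen, P g

/-- **BlkOut.** `M g w = 0` for `w` in the star of a clique vertex `x` and `g` outside. Proof. `domM` gives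
`GDom w g`. If `w` is a twin of `x` then `GDom x g`, so `g` is in the star (`up_adj`). If `w` is adjacent to `x`
then `x = g` or `x` is adjacent to `g`. In general the second argument suffices for `w` adjacent to `x`, and
`up_adj` for `w = x`. -/
def BlkOut : Prop := ∀ (V : Type) (G : SimpleGraph V) (M : V → V → ℤ),
  (∀ v l, M l v ≠ 0 → GDom G v l) → ∀ x, Clq G x → ∀ w, (w = x ∨ G.Adj x w) →
  ∀ g, ¬ (g = x ∨ G.Adj x g) → M g w = 0

/-- **BlkGen.** The block of `M` on `Gen` is invertible. Proof. In `∑ i, N g i * M i g' = δ` the terms with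
`i ∉ Gen` vanish: `N g i ≠ 0` gives `GDom i g`, so `i` is outside the star of `x` (if `i` is in the star then `g`
is in the star, as in BlkOut); `M i g' ≠ 0` gives `GDom g' i`, so `i ∈ Gen` by the third hypothesis. -/
def BlkGen : Prop := ∀ (V : Type) [Fintype V] [DecidableEq V] (G : SimpleGraph V)
  (M N : V → V → ℤ), (∀ v w, ∑ i, N v i * M i w = if v = w then 1 else 0) →
  (∀ v l, M l v ≠ 0 → GDom G v l) → (∀ v l, N l v ≠ 0 → GDom G v l) → ∀ x, Clq G x →
  ∀ Gen : Finset V, (∀ g ∈ Gen, ¬ (g = x ∨ G.Adj x g)) →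
  (∀ g ∈ Gen, ∀ i, ¬ (i = x ∨ G.Adj x i) → GDom G g i → i ∈ Gen) →
  ∀ g ∈ Gen, ∀ g' ∈ Gen, ∑ i ∈ Gen, N g i * M i g' = if g = g' then 1 else 0

/-- **BlkS.** If `g` outside the star is adjacent to an element of `S1` then it is adjacent to an element
`w` of the star with `nS w ≠ 0`. Proof. Choose `s ∈ S1` adjacent to `g` which is maximal: every `s' ∈ S1` adjacent
to `g` with `GDom s s'` has `GDom s' s` (e.g. maximize the number of elements dominated by `s`). `s` is not a twin
of `x` (the star of a twin of `x` is the star of `x`), so it is adjacent to `x`. For `w` in the class of `s`: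
`w` is adjacent to `x` and to `g`; `M s' w = 0` for `s' ∈ S0` (`GDom w s'` and `w ~ g` give that `g` is in the star of
`s'`, which is the star of `x`); `M s' w = 0` for `s' ∈ S1` not twin of `s` (`GDom s s'`; `g ~ s` gives `g = s'`,
impossible, or `g ~ s'`; then `GDom s' s` by maximality, so `s'` is a twin of `s`). So `nS w` is the sum over the
twins `s' ∈ S1` of `s`. If `nS w = 0` for all `w ∈ gcls s` multiply by `N w s` and sum over `w ∈ gcls s`
(hypothesis `hMN`): `ε s = 0`, a contradiction. -/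
def BlkS : Prop := ∀ (V : Type) [Fintype V] [DecidableEq V] (G : SimpleGraph V)
  (M N : V → V → ℤ), (∀ v l, M l v ≠ 0 → GDom G v l) →
  (∀ a x y, x ∈ gcls G a → y ∈ gcls G a →
    ∑ w ∈ gcls G a, M x w * N w y = if x = y then 1 else 0) →
  ∀ (k' : V → V → ℕ) (x : V) (S0 S1 : Finset V) (ε : V → ℤ) (z : V → ℂˣ),
  SD G k' x S0 S1 ε z → ∀ g, ¬ (g = x ∨ G.Adj x g) → (∃ s ∈ S1, G.Adj g s) →
  ∃ w, G.Adj x w ∧ G.Adj w g ∧ nS M S0 S1 ε w ≠ 0

/-- **UpInv.** Proof. Let `s0 ∈ S0`. For every `s`, `∑ w, M s w * N w s0 = δ` (`mn`), and `N w s0 ≠ 0` gives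
`GDom s0 w`, hence `GDom x w`. So `∑ w ∈ Up, nS w * N w s0 = ε s0 = ± 1`, where `Up` is the set of all `w` with
`GDom x w`. Take `c w = ε s0 * N w s0`. -/
def UpInv : Prop := ∀ (V : Type) [Fintype V] [DecidableEq V] (G : SimpleGraph V)
  (M N : V → V → ℤ), (∀ i j, ∑ v, M i v * N v j = if i = j then 1 else 0) →
  (∀ v l, N l v ≠ 0 → GDom G v l) →
  ∀ (k' : V → V → ℕ) (x : V) (S0 S1 : Finset V) (ε : V → ℤ) (z : V → ℂˣ),
  SD G k' x S0 S1 ε z → ∃ c : V → ℤ, (∀ w, ¬ GDom G x w → c w = 0) ∧
    ∑ w, c w * nS M S0 S1 ε w = 1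

/-- **NormC.** The absolute values of the linear parts. Proof. `IsExp` for `Λ`, the homomorphism `χ`, and
`g = e (gen Γ w)`: `χ g = ∏ i, χ (gen Λ i) ^ (M i w)`; take absolute values and split the product over
`i ∈ S0 ∪ S1`, `i ∈ Gen`, other `i` (which give `1`); `∏ 2 ^ (ε i * M i w) = 2 ^ nS`. -/
def NormC : Prop := ∀ (V : Type) [Fintype V] [DecidableEq V] (Γ Λ : LGraph V)
  (y : V → (Artin Λ →* Multiplicative ℤ)), IsExp Λ y → ∀ (φ : Artin Γ →* Artin Λ)
  (χ : Artin Λ →* ℂˣ) (S0 S1 Gen : Finset V) (ε : V → ℤ) (q : V → ℝ),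
  Disjoint (S0 ∪ S1) Gen → (∀ s ∈ S0 ∪ S1, ‖(χ (gen Λ s) : ℂ)‖ = (2 : ℝ) ^ ε s) →
  (∀ g ∈ Gen, ‖(χ (gen Λ g) : ℂ)‖ = q g) →
  (∀ v, v ∉ S0 ∪ S1 → v ∉ Gen → χ (gen Λ v) = 1) → ∀ w,
  ‖(χ (φ (gen Γ w)) : ℂ)‖ = (2 : ℝ) ^ nS (mat y φ) S0 S1 ε w * ∏ g ∈ Gen, q g ^ (mat y φ g w)

/-- **Loc.** The pulled back star representation is not commutative on the star of `x`.
Proof. `Γ.graph = Λ.graph` as graphs (`TD.adj`). `Gen`, `Z` from GenEx, `q` from PrimeEx. RepC for `Λ` with `kind = some 0` on
`S0`, `some 1` on `S1` and `Gen`, `some 2` on `Z`, `none` elsewhere, and `z g = q g` on `Gen` (`SD.deg`; an element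
of `S0` is a twin of `x`, so it is not adjacent to elements outside the star; `Z` is not adjacent to
`S1` and `Gen`). Let `R c` be the homomorphism `Artin Γ →* Aff`, `g ↦ ⟨χ (e g), B c (e g)⟩`. By NormC (with
`M = mat y e`) the absolute value of the linear part at `gen w` is `2 ^ nS w * ∏ g ∈ Gen, q g ^ M g w`, which is
`2 ^ nS w` for `w` in the star (BlkOut). Suppose that for all `c` the images of the star of `x` commute. By UpInv
there is `w0` with `GDom x w0`, `nS w0 ≠ 0`; it is in the star; its linear part is not `1`. The linear map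
`c ↦ (B c (e (gen w0)), (B c (e (gen v)))_{v ∈ Z})` from a space of dimension `2 + |Z|` to one of dimension
`1 + |Z|` has a nonzero kernel element `c` (`LinearMap.exists_ne_zero...` or `LinearMap.ker_ne_bot_of_finrank_lt`).
For this `c`, write `b w = B c (e (gen w))`. (1) `b w = 0` for `w` in the star: commute with `w0`
(`Aff.commute_iff`). (2) `b g = 0` for `g ∈ Gen`, by the induction principle of GenEx: if `g` is adjacent to an
element of `S1`, BlkS gives `w` in the star adjacent to `g` with `nS w ≠ 0`. The relation `gen_rel` and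
`Aff.comm_or_norm`: they commute, because the product of the absolute values is `1` only if all exponents
vanish (PrimeEx), but `M g'' w = 0` and some `M g'' g ≠ 0`, `g'' ∈ Gen` (BlkGen). The linear part of `w` is not `1`,
so `b g = 0`. For adjacent `g, g' ∈ Gen`: they commute, otherwise `M g'' g + M g'' g' = 0` for all `g'' ∈ Gen`,
and multiplication by `N g g''` gives `1 = 0`; the linear part of `g` is not `1`. (3) `b v = 0` for `v ∈ Z`.
So `B c (e h) = 0` for all `h` (the homomorphisms `R c` and `R 0` agree), hence `B c = 0` on all generators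
of `Λ`: `(1 - z s) * c.1 = 0` for `s ∈ S0`, so `c.1 = 0` (absolute value of `z s` is `2` or `1/2`); `c.2.1 = 0`
(`s ∈ S1`), `c.2.2 = 0`. Contradiction to `c ≠ 0`. -/
def Loc : Prop := ∀ (V : Type) [Fintype V] [DecidableEq V] (Γ Λ : LGraph V) (M N : V → V → ℤ),
  IsEven Γ → IsEven Λ → TDE Γ Λ M N → ∀ (x : V) (S0 S1 : Finset V) (ε : V → ℤ) (z : V → ℂˣ),
  SD Γ.graph (half Λ) x S0 S1 ε z → ∃ R : Artin Γ →* Aff,
    (∀ w, (w = x ∨ Γ.graph.Adj x w) → ‖((R (gen Γ w)).a : ℂ)‖ = (2 : ℝ) ^ nS M S0 S1 ε w) ∧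
    ∃ c c', (c = x ∨ Γ.graph.Adj x c) ∧ (c' = x ∨ Γ.graph.Adj x c') ∧
      R (gen Γ c) * R (gen Γ c') ≠ R (gen Γ c') * R (gen Γ c)

/-- **LocS.** Proof. Write `n w = nS M S0 S1 ε w`, `g w = R (gen Γ w)` with `R` from Loc. For adjacent `w, w'` in the star:
`g w`, `g w'` commute or `n w + n w' = 0` (`Aff.comm_or_norm`), and they commute if `half = 1`. `g w = 1` gives
`n w = 0`. Elements `w` with `GDom x w` are in the star and equal or adjacent to all elements of the
star (`up_star`). By UpInv there is `w0` with `GDom x w0`, `n w0 ≠ 0`, so `g w0 ≠ 1`. Since `g c`, `g c'` do not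
commute, one of them, call it `u`, does not commute with `g w0` (`Aff.trans`); so `n u = - n w0`. Let `GDom x w`
and `g w ≠ 1`. `g w` does not commute with both `g w0` and `g u` (`Aff.trans`), so `n w = - n w0` or
`n w = - n u = n w0`. So `n w ∈ {0, n w0, - n w0}` for all these `w`, and UpInv gives `n w0 ∣ 1`. For a light pair
`w, w'` with `n w * n w' < 0`: `g w`, `g w'` are not `1` and commute. Some `v ∈ {w0, u}` does not commute with `w`,
hence not with `w'` (`Aff.trans`), so `n v = - n w = - n w'`, `n w = n w'`: contradiction. -/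
def LocS : Prop := ∀ (V : Type) [Fintype V] [DecidableEq V] (Γ Λ : LGraph V) (M N : V → V → ℤ),
  IsEven Γ → IsEven Λ → TDE Γ Λ M N → ∀ (x : V) (S0 S1 : Finset V) (ε : V → ℤ) (z : V → ℂˣ),
  SD Γ.graph (half Λ) x S0 S1 ε z → (∀ w, GDom Γ.graph x w → |nS M S0 S1 ε w| ≤ 1) ∧
    ∀ w w', GDom Γ.graph x w → GDom Γ.graph x w' → Γ.graph.Adj w w' → half Γ w w' = 1 →
      0 ≤ nS M S0 S1 ε w * nS M S0 S1 ε w'

/-- **StarQEx.** Star representations in characteristic `p` restricted to a clique `T`.
Proof. As `starEx` (`../Twin/StarEx.lean`, copy it) with `A = {a}`, `m = 0`: suppose the claim is false. Let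
`v0 ∈ T` with exponent `≠ 0`. Every `u ∈ T`, `u ≠ v0`, commutes with `v0` (RelL), so all elements of `T` commute
(CTL), and so on. (`goodEx`, `relL`, `cTL`, `resNil`, `sGen`, `repP` are theorems in `../Twin`.) -/
def StarQEx : Prop := ∀ (V W : Type) [Fintype V] [Fintype W] [DecidableEq V] [DecidableEq W]
  (Γ : LGraph V) (Λ : LGraph W), IsEven Γ → IsEven Λ →
  ∀ x : V → (Artin Γ →* Multiplicative ℤ), IsExp Γ x → ∀ φ : Artin Λ →* Artin Γ,
  ∀ p : ℕ, p.Prime → ∀ a b : V, Γ.graph.Adj a b → p ∣ half Γ a b →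
  ∀ (S : Finset V) (T : Finset W) (M' : W → V → ℤ), a ∈ S → b ∈ S →
  (∀ s ∈ S, ∀ s' ∈ S, ∑ w ∈ T, mat x φ s' w * M' w s = if s' = s then 1 else 0) →
  (∀ v ∈ T, ∀ u ∈ T, v ≠ u → Λ.graph.Adj v u) → (∃ v ∈ T, mat x φ a v - mat x φ b v ≠ 0) →
  ∃ v ∈ T, ∃ u ∈ T, v ≠ u ∧ mat x φ a v - mat x φ b v ≠ 0 ∧
    (mat x φ a v - mat x φ b v) + (mat x φ a u - mat x φ b u) = 0 ∧ p ∣ half Λ v u

/-- **StarSt.** Proof. `s1`: let `ζ = Reps.zt (half Λ i j)` (file `../Reps.lean`: `zt_ne_one`, `zt_pow`,
`zt_norm`). `ε i = 1`, `ε j = -1`, `z i = 2`, `z j = ζ / 2`. If `i` is a twin of `x` apply LocS to `S0 = {i}`,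
`S1 = {j}`; if `j` is a twin of `x` to `S0 = {j}`, `S1 = {i}`; `nS w = M i w - M j w`. `s2`: the same with two
leaves `j`, `l` (`S0 = {i}`, `S1 = {j, l}`, respectively `S0 = {j, l}`, `S1 = {i}`); `star_tw` for membership in the
star of `x`. `s3`: let `p` be a prime divisor of `half Λ i j`; StarQEx with the roles of `Γ`, `Λ` exchanged
(`x := y`, `φ := e`, star `(i; j)` of `Λ`, `S = T = gcls i`, `M' = N`; the sum condition is the second part of
`ClassInv`, `hci`; elements of `gcls i` are pairwise adjacent by `clq_adj2`; the exponents do not all vanish: multiply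
`M i v - M j v` by `N v i` and sum over `gcls i`). It gives `v ≠ u` in `gcls i` with `n v ≠ 0`, `n v + n u = 0`,
`p ∣ half Γ v u` (so `half Γ v u ≥ 2`, it is positive); `|n v| ≤ 1` by `s1`; take `v, u` or `u, v`. -/
def StarSt : Prop := ∀ (V : Type) [Fintype V] [DecidableEq V] (Γ Λ : LGraph V) (M N : V → V → ℤ),
  IsEven Γ → IsEven Λ → TDE Γ Λ M N → GStar Γ.graph (half Γ) (half Λ) M

/-- **UnitColG.** `UnitCol` without the hypothesis `TwinsIsolated`. Proof. As `../Twin/UnitCol.lean` (copy it); the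
hypothesis was only used to exclude that `b` has an adjacent twin when `cls a = {a}`. New case: `cls a = {a}`,
`b` adjacent to `a`, `half Γ a b ≥ 2`, and `b` has an adjacent twin. Suppose that `half Λ a j = 1` for all
`j ∈ cls b` (all are adjacent to `a`: `adj_tw`). By ClassInv `N a a * M a a = 1`. `heisN` for the edge `j a` of
`Λ` and the edge `b a` of `Γ`: `half Γ b a ∣ N b j * N a a - N a j * N b a`, and `N a j * N b a = 0` (otherwise `a`, `b` are
twins), so `half Γ b a ∣ N b j` for all `j ∈ cls b`; by ClassInv `∑ j ∈ cls b, N b j * M j b = 1`: contradiction.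
So some `j` has `half Λ a j ≥ 2`. -/
def UnitColG : Prop := ∀ (V : Type) [Fintype V] [DecidableEq V] (Γ Λ : LGraph V) (M N : V → V → ℤ),
  IsEven Γ → IsEven Λ → TD Γ Λ M N → ∀ a, Heavy Γ a →
  ∃ v, Tw Γ v a ∧ Heavy Λ v ∧ ∀ x, Tw Γ x a → x ≠ a → N x v = 0

/-- **PiExG.** Proof. Copy `../Twin/PiEx.lean`, with UnitColG instead of UnitCol. -/
def PiExG : Prop := ∀ (V : Type) [Fintype V] [DecidableEq V] (Γ Λ : LGraph V) (M N : V → V → ℤ),
  IsEven Γ → IsEven Λ → TD Γ Λ M N →
  ∃ π : Equiv.Perm V, (∀ a, Tw Γ (π a) a) ∧ (∀ a, Heavy Γ a ↔ Heavy Λ (π a)) ∧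
    ∀ a, Heavy Γ a → M (π a) a * N a (π a) = 1

/-- **CoreEx.** Proof. `G = Γ.graph` (`Λ.graph` is the same graph: `SimpleGraph.ext` and `TD.adj`; `GDom Γ.graph` and
`Dom Γ` are the same by definition, the same for `GTw`, `gcls`). `clsNM`, `clsMN`: `classInv domTr`. `starM`: StarSt,
`starN`: StarSt for TDESymm. `π` from PiExG. `¬ Clq a` means that `a` has no adjacent twin, so for such `a`:
`Hvy G (half Γ) a ↔ Heavy Γ a` and the same for `Λ` and `π a` (`Clq (π a) ↔ Clq a`). `lab`: copy the non-twin case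
of `../Twin/LabelEq.lean` (there the absence of adjacent twins came from `TwinsIsolated`, here it is the hypothesis
on `a` and `b`; `π a`, `π b` have none because they are twins of `a`, `b`). -/
def CoreEx : Prop := ∀ (V : Type) [Fintype V] [DecidableEq V] (Γ Λ : LGraph V) (M N : V → V → ℤ),
  IsEven Γ → IsEven Λ → TDE Γ Λ M N → ∃ π : Equiv.Perm V, Core Γ.graph (half Γ) (half Λ) M N π

/-! ## Part B: matrices -/

/-- **StarBG.** Proof. `WGirth.lemB` (`../LemB.lean`: read the statement `LemB` in `../Spec.lean`) for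
`xi = M i u`, `yi = M i v`, `xj = M j u`, ... : the bounds and signs for `i - j`, `i - l` are `starM.s1`, for
`i - j - l` they are `starM.s2`; `heisM` for the columns `u, v` (`k u v = 1`) shows that `k' i j ≥ 2` divides
`M i u * M j v - M j u * M i v`, so its absolute value is not `1`; the same for `l`. -/
def StarBG : Prop := ∀ (V : Type) [Fintype V] [DecidableEq V] (G : SimpleGraph V)
  (k k' : V → V → ℕ) (M N : V → V → ℤ) (π : Equiv.Perm V), Core G k k' M N π →
  ∀ x, Clq G x → ∀ i j l, G.Adj i j → G.Adj i l → G.Adj j l → 2 ≤ k' i j → 2 ≤ k' i l →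
  (GTw G i x ∨ (GTw G j x ∧ GTw G l x)) → ∀ u v, GDom G x u → GDom G x v → G.Adj u v → k u v = 1 →
  (Even (M i u) ∧ Even (M i v)) ∨
    (M i u * M j v = M j u * M i v ∧ M i u * M l v = M l u * M i v)

/-- **Minor.** The minors of two columns of a class block have no common divisor. Proof. Otherwise `q`
divides `∑ i j ∈ gcls x, N a i * N a2 j * (M i a * M j a2 - M j a * M i a2) = 1 * 1 - 0 * 0` (`clsNM`; expand the product of
sums; `∑ i, N a i * M i a2 = 0`, `∑ j, N a2 j * M j a = 0`). -/
def Minor : Prop := ∀ (V : Type) [Fintype V] [DecidableEq V] (G : SimpleGraph V)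
  (k k' : V → V → ℕ) (M N : V → V → ℤ) (π : Equiv.Perm V), Core G k k' M N π →
  ∀ x a a2, GTw G a x → GTw G a2 x → a ≠ a2 → ∀ q : ℤ, ¬ q ∣ 1 →
  ∃ i j, GTw G i x ∧ GTw G j x ∧ ¬ q ∣ (M i a * M j a2 - M j a * M i a2)

/-- **RowDvd.** Proof. `clsMN`: `1 = ∑ w, M j w * N w j`. -/
def RowDvd : Prop := ∀ (V : Type) [Fintype V] [DecidableEq V] (G : SimpleGraph V)
  (k k' : V → V → ℕ) (M N : V → V → ℤ) (π : Equiv.Perm V), Core G k k' M N π →
  ∀ j (q : ℤ), (∀ w, GTw G w j → q ∣ M j w) → q ∣ 1

/-- **EOne.** Light pairs with incomparable classes (or both rigid, or a rigid vertex which does not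
dominate the clique vertex) have light supports.
Proof. Let `j`, `w` be in the supports and suppose `2 ≤ k' j w` (`k' j w ≥ 1` by `posk'`, `j ~ w` by `adj_tw`).
Both rigid: `mat.lab`: `k' j w = k x y = 1`. `x` clique: then `¬ GDom x y`; `starM.s1` for `x`, the star `(j; w)` and
the column `x`: `|M j x - M w x| ≤ 1`, and `M w x = 0` (otherwise `GDom x w`, so `GDom x y`). So `|mm j x| = 1`. `x` rigid: `mm j x = 1`.
In the same way `|mm w y| = 1` (`y` clique: star `(j; w)` with `GTw w y`, column `y`). So `hdiv` (with `k x y = 1`)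
gives `k' j w ∣ 1`: contradiction. -/
def EOne : Prop := ∀ (V : Type) [Fintype V] [DecidableEq V] (G : SimpleGraph V)
  (k k' : V → V → ℕ) (M N : V → V → ℤ) (π : Equiv.Perm V), Core G k k' M N π →
  ∀ x y, G.Adj x y → ¬ GTw G x y → k x y = 1 → ¬ (Clq G x ∧ GDom G x y) →
  ¬ (Clq G y ∧ GDom G y x) → ∀ j w, Sup G M π x j → Sup G M π y w → k' j w = 1

/-- **ETwo.** Proof. `j ~ w` (`adj_tw`). `|M w y| = 1`: if `y` is rigid then `gcls y = {y}` (`up_rig`), `w = π y = y`
and `clsNM` gives `N y y * M y y = 1`; if `y` is a clique vertex use `starM.s1` for `x`, the star `(j; w)` and the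
column `y`: `|M j y - M w y| ≤ 1`, `M j y = 0` (otherwise `GDom y j`, so `x`, `y` are twins), and `M w y ≠ 0`. So
`|mm w y| = 1` in both cases, and `hdiv` gives `k' j w ∣ M j x`. Let `j' ≠ j` be a twin of `x` with
`k' j' w ≠ 1`, so `2 ≤ k' j' w`. StarBG for the centre `w` with leaves `j`, `j'` (`GTw j x`, `GTw j' x`; `j ~ j'` by
`clq_adj2`, `symk'`), columns `x`, `y`: `M w y` is odd, so `M w x * M j y = M j x * M w y`; the left side is `0`, but
`M j x ≠ 0`, `M w y ≠ 0`: contradiction. -/
def ETwo : Prop := ∀ (V : Type) [Fintype V] [DecidableEq V] (G : SimpleGraph V)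
  (k k' : V → V → ℕ) (M N : V → V → ℤ) (π : Equiv.Perm V), Core G k k' M N π →
  ∀ x y, Clq G x → GDom G x y → G.Adj x y → ¬ GTw G x y → k x y = 1 →
  ∀ j w, Sup G M π x j → Sup G M π y w → 2 ≤ k' j w →
  |M w y| = 1 ∧ |mm G M w y| = 1 ∧ (k' j w : ℤ) ∣ M j x ∧
    ∀ j', GTw G j' x → j' ≠ j → k' j' w = 1

/-- **EThree.** Proof. StarBG for the centre `j` with leaves `w`, `l`, columns `x`, `y` (`GTw j x`). Either
`M j x` is even or `M j x * M w y = M w x * M j y = 0` (`M j y = 0` as in ETwo), but `M j x ≠ 0` and `|M w y| = 1` by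
ETwo: contradiction. -/
def EThree : Prop := ∀ (V : Type) [Fintype V] [DecidableEq V] (G : SimpleGraph V)
  (k k' : V → V → ℕ) (M N : V → V → ℤ) (π : Equiv.Perm V), Core G k k' M N π →
  ∀ x y, Clq G x → GDom G x y → G.Adj x y → ¬ GTw G x y → k x y = 1 →
  ∀ j w l, Sup G M π x j → Sup G M π y w → 2 ≤ k' j w → G.Adj j l → G.Adj w l → 2 ≤ k' j l →
  Even (M j x)

/-- **EFour.** Two light columns of a clique class cannot be supported on a pairwise heavy set.
Proof. Let `r w = (M w a, M w a2)` for `w` in the class; a minor is `M i a * M j a2 - M j a * M i a2`. By Minor with `q = 0`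
there are `i, j` in the class with nonzero minor; so `i ≠ j`, both rows are nonzero, `J i`, `J j`, `2 ≤ k' i j`.
If there is no third `l` in the class with `J l`, then all minors except those of `{i, j}` vanish (a row is
zero or two rows are equal), and that of `i, j` is divisible by `k' i j` (`heisM`, `k a a2 = 1`): contradiction to Minor
with `q = k' i j`. If there is a third `l` with `J l`: for each `u ∈ {i, j, l}` or any other `u` with `J u`: choose
two others `v, v'` with `J`, StarBG with centre `u` and leaves `v`, `v'` (all in the class of `x`, columns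
`a`, `a2`). Claim: every row of the class is even, which contradicts Minor with `q = 2`. Rows with `¬ J` are zero.
Let `J u` and suppose that the row of `u` is not even. For every `v ≠ u` with `J v` there is a third one, so
StarBG gives `M u a * M v a2 = M v a * M u a2`. So the rows of `i` and `j` are proportional to the nonzero row of `u`
(also if `u = i` or `u = j`), so the minor of `i, j` vanishes: contradiction. -/
def EFour : Prop := ∀ (V : Type) [Fintype V] [DecidableEq V] (G : SimpleGraph V)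
  (k k' : V → V → ℕ) (M N : V → V → ℤ) (π : Equiv.Perm V), Core G k k' M N π →
  ∀ x, Clq G x → ∀ a a2, GTw G a x → GTw G a2 x → G.Adj a a2 → k a a2 = 1 → ∀ J : V → Prop,
  (∀ w, GTw G w x → (M w a ≠ 0 ∨ M w a2 ≠ 0) → J w) →
  (∀ w w', GTw G w x → GTw G w' x → G.Adj w w' → J w → J w' → 2 ≤ k' w w') → False

/-- **PairK.** A clique class satisfies the hypotheses of the theorems `t3`, `t4`, `t5` on complete graphs.
Proof. `nm`, `mn`: `clsNM`, `clsMN` (`Finset.sum_coe_sort` / `Finset.sum_attach`). `Dir.heis`: `heisM` with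
`k a b = 1`. `star1`: `starM.s1` and `starM.s3` (`i ~ j` by `clq_adj2`); `star2`: `starM.s2`. The direction `N`: the same for
`Core.swap`. -/
def PairK : Prop := ∀ (V : Type) [Fintype V] [DecidableEq V] (G : SimpleGraph V)
  (k k' : V → V → ℕ) (M N : V → V → ℤ) (π : Equiv.Perm V), Core G k k' M N π →
  ∀ x, Clq G x → MPair (V := {w // w ∈ gcls G x}) (W := {w // w ∈ gcls G x})
    (fun v w => k v.1 w.1) (fun v w => k' v.1 w.1) (fun i v => M i.1 v.1) (fun v i => N v.1 i.1)

/-- **TK.** Proof. The theorems `WGirth.t3 starB det3 (t3Two starB ind3 cardEq)` and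
`WGirth.t4 starB ind3 cardEq` (files `../T3.lean`, `../T45.lean`, see `../../../Results/MP_107652_al/EvenComplete.lean` for the
names) applied to PairK. (T4 is used in the contrapositive form; it gives `i, j, l` with `k' i j = 1`
and not `2 ≤ k' i l`.) -/
def TK : Prop := ∀ (V : Type) [Fintype V] [DecidableEq V] (G : SimpleGraph V)
  (k k' : V → V → ℕ) (M N : V → V → ℤ) (π : Equiv.Perm V), Core G k k' M N π →
  ∀ x, Clq G x → ∀ a b c, GTw G a x → GTw G b x → GTw G c x → G.Adj a b → G.Adj b c → G.Adj a c →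
  (k a b = 1 → k b c = 1 → k a c = 1 → ∃ i j l, GTw G i x ∧ GTw G j x ∧ GTw G l x ∧ G.Adj i j ∧
    G.Adj j l ∧ G.Adj i l ∧ k' i j = 1 ∧ k' j l = 1 ∧ k' i l = 1) ∧
  (k a b = 1 → k b c = 1 → ∃ i j l, GTw G i x ∧ GTw G j x ∧ GTw G l x ∧ G.Adj j i ∧
    G.Adj i l ∧ G.Adj j l ∧ k' j i = 1 ∧ k' i l = 1)

/-! ### No light triangle -/

/-- no light triangle -/
def H0 {V : Type} (G : SimpleGraph V) (k : V → V → ℕ) : Prop :=
  ∀ a b c, G.Adj a b → G.Adj b c → G.Adj a c → k a b = 1 → k b c = 1 → k a c = 1 → False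

/-- `x` is a clique vertex strictly below `y` (for adjacent `x`, `y` which are not twins) -/
def Bad {V : Type} (G : SimpleGraph V) (x y : V) : Prop := Clq G x ∧ GDom G x y

/-- **FourDOne.** Case `A < B`, `A` and `C` good. Proof. By EOne all pairs in `Sup a × Sup c` are light. Let
`w ∈ Sup b` (`sup_odd`). (1) If some `z ∈ Sup c` has `k' z w = 1`: for every `j ∈ Sup a`, `j`, `z`, `w` are pairwise adjacent
(`adj_tw`), `j z` and `z w` are light, so `2 ≤ k' j w` (H0 for `k'`, `posk'`). Take one `j ∈ Sup a`; by ETwo for `(a, b)`,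
`k' j w ∣ M j a` and all other twins of `a` are light to `w`, so `Sup a = {j}`, and `sup_ndvd` with
`q = k' j w` gives a contradiction. (2) Otherwise all `z ∈ Sup c` are heavy to `w`. If `¬ Bad b c` and
`¬ Bad c b` then EOne for `(b, c)` is a contradiction (`Sup c` is not empty). `Bad b c` gives
`Bad a c` (`gdom_trans`): excluded. So `Bad c b`, and ETwo for `(c, b)` gives in the same way `Sup c = {z}`,
`k' z w ∣ M z c` (`c` is a clique vertex, `mm = M`), a contradiction to `sup_ndvd`. -/
def FourDOne : Prop := ∀ (V : Type) [Fintype V] [DecidableEq V] (G : SimpleGraph V)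
  (k k' : V → V → ℕ) (M N : V → V → ℤ) (π : Equiv.Perm V), Core G k k' M N π → H0 G k' →
  ∀ a b c, G.Adj a b → G.Adj b c → G.Adj a c → ¬ GTw G a b → ¬ GTw G b c → ¬ GTw G a c →
  k a b = 1 → k b c = 1 → k a c = 1 → Bad G a b → ¬ Bad G a c → ¬ Bad G c a → False

/-- **FourDTwoA.** Case `A < B`, `A < C`, not `C < B`; the structure of the supports. Proof. All classes are
pairwise adjacent (`adj_tw`). (i) For `w ∈ Sup b`, `z ∈ Sup c` with `2 ≤ k' w z`: `Bad b c` (otherwise EOne), and
ETwo for `(b, c)`: `k' w z ∣ M w b`, `w` is the only heavy neighbour of `z` in the class of `b`. (ii) Some pair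
`w0 ∈ Sup b`, `z0 ∈ Sup c` is light: otherwise fix `z ∈ Sup c` and `w1 ∈ Sup b`; by (i) `Sup b = {w1}` and
`k' w1 z ∣ M w1 b`, against `sup_ndvd`. (iii) Let `(w, z)` be any light pair. Every `j ∈ Sup a` is heavy to `w` or
to `z` (H0). If `j ∈ Sup a` is heavy to `w`, ETwo for `(a, b)`: `k' j w ∣ M j a`, `|mm w b| = 1`, and all other
twins of `a` are light to `w`; the same for `z` with `(a, c)`. Take `j ∈ Sup a`, say heavy to `w` (the other case is
symmetric); `sup_ndvd` with `q = k' j w` gives `j1 ∈ Sup a`, `j1 ≠ j`; `j1` is light to `w`, so heavy to `z`, so `j` is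
light to `z`. So there are `j ≠ j1` in `Sup a` with `j w`, `j1 z` heavy, `j z`, `j1 w` light. Any further twin `u` of
`a` would be light to `w` and to `z`, against H0. (iv) Fix `w0, z0` and `j, j1`. Let `z ∈ Sup c`. `w0 z` is light:
otherwise `k' w0 z ∣ M w0 b` by (i), but `|mm w0 b| = 1` (`mm = M`: `b` is a clique vertex by `Bad b c`). By (iii) for
`(w0, z)` and uniqueness `j` is the element heavy to `w0`, so `j1` is heavy to `z` and `j` light to `z`. Let
`w ∈ Sup b`. If `w z0` is light, (iii) for `(w, z0)` gives that `j1` is light to `w` (`j1` is the one heavy to `z0`).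
If `w z0` is heavy then `k' w z0 ∣ M w b` by (i), so `|mm w b| ≠ 1`, so `j1 w` is not heavy (ETwo). -/
def FourDTwoA : Prop := ∀ (V : Type) [Fintype V] [DecidableEq V] (G : SimpleGraph V)
  (k k' : V → V → ℕ) (M N : V → V → ℤ) (π : Equiv.Perm V), Core G k k' M N π → H0 G k' →
  ∀ a b c, G.Adj a b → G.Adj b c → G.Adj a c → ¬ GTw G a b → ¬ GTw G b c → ¬ GTw G a c →
  k a b = 1 → k b c = 1 → k a c = 1 → Bad G a b → Bad G a c → ¬ Bad G c b →
  ∃ j j1 w0 z0, j ≠ j1 ∧ Sup G M π a j ∧ Sup G M π a j1 ∧ (∀ u, GTw G u a → u = j ∨ u = j1) ∧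
    Sup G M π b w0 ∧ Sup G M π c z0 ∧ 2 ≤ k' j w0 ∧ 2 ≤ k' j1 z0 ∧
    (∀ z, Sup G M π c z → k' j z = 1) ∧ ∀ w, Sup G M π b w → k' j1 w = 1

/-- **FourDTwo.** Proof. FourDTwoA. The class of `a` is `{j, j1}` and it has two elements `a`, `a'` (`a'` the one of
`j, j1` different from `a`; they are adjacent, `a' ~ b`, `a' ~ c` by `adj_tw`). (1) `2 ≤ k a' b`: otherwise `hdiv` for
`(a', b)` and `j, w0` (if `M j a' ≠ 0`, then `j ∈ Sup a'`) together with `|mm w0 b| = 1` (ETwo for `(a, b)`, `j`, `w0`)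
gives `k' j w0 ∣ M j a'`, and `k' j w0 ∣ M j a`; RowDvd: contradiction. (2) `2 ≤ k a' c` in the same way with
`j1, z0`. (3) StarBG for `Core.swap` (rows of `N`, labels `k` heavy, `k'` light), clique vertex `a`, centre `a'`, leaves `b`, `c`,
columns `u = j`, `v = z` for `z ∈ Sup c` (`GDom a z`; `k' j z = 1`): `N a' z = 0` (otherwise `GDom z a'`, so `c` is a twin of `a`).
If `N a' j` is odd then `N a' j * N c z = 0`, so `N c z = 0` for all `z ∈ Sup c`. If `c` is a clique vertex this
contradicts `clsNM`: `∑ w ∈ gcls c, N c w * M w c = 1` (`M w c = 0` outside `Sup c`). If `c` is rigid, `gcls c = {c}`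
(`up_rig`), `π c = c`, and `N c c * M c c = 1`: contradiction. So `N a' j` is even. In the same way, with the
columns `j1`, `w` for `w ∈ Sup b`, `N a' j1` is even. But `∑ w ∈ gcls a, N a' w * M w a' = 1`, `gcls a = {j, j1}`:
contradiction. -/
def FourDTwo : Prop := ∀ (V : Type) [Fintype V] [DecidableEq V] (G : SimpleGraph V)
  (k k' : V → V → ℕ) (M N : V → V → ℤ) (π : Equiv.Perm V), Core G k k' M N π → H0 G k' →
  ∀ a b c, G.Adj a b → G.Adj b c → G.Adj a c → ¬ GTw G a b → ¬ GTw G b c → ¬ GTw G a c →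
  k a b = 1 → k b c = 1 → k a c = 1 → Bad G a b → Bad G a c → ¬ Bad G c b → False

/-- **FourD.** A light triangle with vertices in three classes. Proof. No bad pair: EOne three times gives a light
triangle of `k'` (`sup_odd` for elements of the supports, `adj_tw`). Otherwise let (after renaming; the
hypotheses are symmetric with `symk`) `Bad a b`. If `Bad c a`: then `Bad c b`, and not `Bad b a` (`a`, `b` would be
twins): FourDTwo for `(c; a, b)`. Otherwise, if not `Bad a c`: FourDOne. If `Bad a c`: not both `Bad c b` and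
`Bad b c`: FourDTwo for `(a; b, c)` or for `(a; c, b)`. -/
def FourD : Prop := ∀ (V : Type) [Fintype V] [DecidableEq V] (G : SimpleGraph V)
  (k k' : V → V → ℕ) (M N : V → V → ℤ) (π : Equiv.Perm V), Core G k k' M N π → H0 G k' →
  ∀ a b c, G.Adj a b → G.Adj b c → G.Adj a c → ¬ GTw G a b → ¬ GTw G b c → ¬ GTw G a c →
  k a b = 1 → k b c = 1 → k a c = 1 → False

/-- **FourIOne.** Two vertices `a, a2` in one class, good pair. Proof. Let `z0 ∈ Sup c`. EFour with
`J w := k' w z0 = 1`: if `M w a ≠ 0` then `w ∈ Sup a` and EOne for `(a, c)`; if `M w a2 ≠ 0` EOne for `(a2, c)` (`a2` is a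
clique vertex; `¬ GDom a2 c`, `¬ GDom c a2`). Two adjacent `w, w'` with `J` are heavy by H0 (with `z0`). -/
def FourIOne : Prop := ∀ (V : Type) [Fintype V] [DecidableEq V] (G : SimpleGraph V)
  (k k' : V → V → ℕ) (M N : V → V → ℤ) (π : Equiv.Perm V), Core G k k' M N π → H0 G k' →
  ∀ a a2 c, GTw G a2 a → G.Adj a a2 → G.Adj a c → ¬ GTw G a c → k a a2 = 1 → k a c = 1 → k a2 c = 1 →
  ¬ GDom G a c → ¬ Bad G c a → False

/-- **FourITwoA.** Case `K < C`, first part (`K` the class of `a`). Proof. Let `z ∈ Sup c`. If all `w` in the class of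
`a` with `M w a ≠ 0` or `M w a2 ≠ 0` are light to `z`, EFour with `J w := k' w z = 1` is a contradiction (H0 as in
FourIOne). So there is such a `w`, call it `j1`, with `2 ≤ k' j1 z`. ETwo for `(a, c)` or `(a2, c)`: all other twins of
`a` are light to `z`, `|mm z c| = 1`; `hdiv` for `(a, c)` and for `(a2, c)` gives `k' j1 z ∣ M j1 a`, `M j1 a2` (trivial
if the entry is `0`). Two adjacent twins different from `j1` are heavy by H0 (with `z`). -/
def FourITwoA : Prop := ∀ (V : Type) [Fintype V] [DecidableEq V] (G : SimpleGraph V)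
  (k k' : V → V → ℕ) (M N : V → V → ℤ) (π : Equiv.Perm V), Core G k k' M N π → H0 G k' →
  ∀ a a2 c, GTw G a2 a → G.Adj a a2 → G.Adj a c → ¬ GTw G a c → k a a2 = 1 → k a c = 1 → k a2 c = 1 →
  GDom G a c → ∀ z, Sup G M π c z → ∃ j1, GTw G j1 a ∧ 2 ≤ k' j1 z ∧ |mm G M z c| = 1 ∧
    (M j1 a ≠ 0 ∨ M j1 a2 ≠ 0) ∧
    (k' j1 z : ℤ) ∣ M j1 a ∧ (k' j1 z : ℤ) ∣ M j1 a2 ∧ (∀ j, GTw G j a → j ≠ j1 → k' j z = 1) ∧
    ∀ w w', GTw G w a → GTw G w' a → w ≠ j1 → w' ≠ j1 → G.Adj w w' → 2 ≤ k' w w'

/-- **FourITwoB.** Case `K < C`, second part: the class of `a` has exactly three elements `i, i', j1`, and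
`i i'` is the only heavy edge. Proof. Let `z0 ∈ Sup c`, `j1`, `p = k' j1 z0` from FourITwoA. Minors are those of the columns
`a`, `a2`. Minors which involve `j1` are divisible by `p`, so Minor with `q = p` gives `i, i' ≠ j1` with
minor not divisible by `p`; so `i ≠ i'`, the minor is not `0`, `i i'` is heavy. Suppose that there is `l` in the class,
`l ≠ j1, i, i'`. Then every row except that of `j1` is even: let `u ≠ j1` be in the class, `v, v'` two further ones
different from `j1` (among `i, i', l`; for `u` not in `{i, i'}` take `v = i`, `v' = i'`; for `u = i` take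
`i'`, `l`; for `u = i'` take `i`, `l`). StarBG with centre `u`, leaves `v`, `v'`: if the row of `u` is not even, the
rows of `v`, `v'` are proportional to the nonzero row of `u`, and in all cases the minor of `i, i'` vanishes:
contradiction. So all minors are even: contradiction to Minor with `q = 2`. So the class is `{i, i', j1}`.
Suppose that `i j1` is heavy. StarBG with centre `i`, leaves `i'`, `j1`: the row of `i` is even (otherwise the
minor of `i, i'` vanishes). EThree for `(a, c)` with `j := j1`, `w := z0`, `l := i`: `M j1 a` is even (or `0`); for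
`(a2, c)`: `M j1 a2` is even. So all minors of two different elements of `{i, i', j1}` are even: contradiction to
Minor. So `i j1` is light, and `i' j1` in the same way. (The last claim: for `z ∈ Sup c` let `j1'` be given by
FourITwoA; if `j1' = i` then `i' j1` would be heavy; the same for `i'`; so `j1' = j1`.) -/
def FourITwoB : Prop := ∀ (V : Type) [Fintype V] [DecidableEq V] (G : SimpleGraph V)
  (k k' : V → V → ℕ) (M N : V → V → ℤ) (π : Equiv.Perm V), Core G k k' M N π → H0 G k' →
  ∀ a a2 c, GTw G a2 a → G.Adj a a2 → G.Adj a c → ¬ GTw G a c → k a a2 = 1 → k a c = 1 → k a2 c = 1 →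
  GDom G a c → ∃ i i' j1 z0, Sup G M π c z0 ∧ |mm G M z0 c| = 1 ∧ 2 ≤ k' j1 z0 ∧
    (k' j1 z0 : ℤ) ∣ M j1 a ∧ (k' j1 z0 : ℤ) ∣ M j1 a2 ∧
    GTw G i a ∧ GTw G i' a ∧ GTw G j1 a ∧ i ≠ i' ∧ i ≠ j1 ∧ i' ≠ j1 ∧
    (∀ u, GTw G u a → u = i ∨ u = i' ∨ u = j1) ∧ 2 ≤ k' i i' ∧ k' i j1 = 1 ∧ k' i' j1 = 1 ∧
    ∀ z, Sup G M π c z → k' i z = 1 ∧ k' i' z = 1

/-- **FourITwo.** Proof. FourITwoB. `gcls a = {i, i', j1}` has three elements, so it is `{a, a2, d}` for a third
`d` (cardinality). `starM.s3` for `i, i'`: there are adjacent `v, w` in the class with `2 ≤ k v w`; as `k a a2 = 1`, one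
of them is `d` and the other `a` or `a2`. So `2 ≤ k d a` or `2 ≤ k d a2`; the hypotheses are symmetric in
`a, a2`, so assume `2 ≤ k d b` with `{b, b2} = {a, a2}`. (1) `2 ≤ k d c`: otherwise `hdiv` for `(d, c)`, `j1`, `z0` gives
`k' j1 z0 ∣ M j1 d` (if the entry is not `0`), and it divides `M j1 a`, `M j1 a2`: RowDvd gives a contradiction.
(2) StarBG for `Core.swap`, clique vertex `a`, centre `d`, leaves `c`, `b`, columns `s ∈ {i, i'}` and `z ∈ Sup c`
(`k' s z = 1`, `GDom a z`): `N d z = 0` (otherwise `GDom z d`, `c` would be a twin of `a`). If `N d s` is odd then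
`N c z = 0` for all `z ∈ Sup c`: contradiction as in FourDTwo. So `N d i`, `N d i'` are even and `N d j1` is
odd (`∑ w ∈ gcls a, N d w * M w d = 1`). (3) StarBG for `Core.swap`, the same star, columns `j1, i` and `j1, i'` (light):
`N d j1` is odd, so `N d j1 * N b s = N b j1 * N d s` for `s = i, i'`, trivially for `s = j1`. Multiply by `M s b`
and sum over the class: `N d j1 * 1 = N b j1 * 0`: contradiction. -/
def FourITwo : Prop := ∀ (V : Type) [Fintype V] [DecidableEq V] (G : SimpleGraph V)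
  (k k' : V → V → ℕ) (M N : V → V → ℤ) (π : Equiv.Perm V), Core G k k' M N π → H0 G k' →
  ∀ a a2 c, GTw G a2 a → G.Adj a a2 → G.Adj a c → ¬ GTw G a c → k a a2 = 1 → k a c = 1 → k a2 c = 1 →
  GDom G a c → False

/-- **FourIThreeA.** Case `C < K`, `C` the class of the clique vertex `c`, `K` that of `a`; first part.
Proof. Choose `j ∈ Sup c` with `M j c` odd (`sup_odd`). If all `w` in `K` with `M w a ≠ 0` or `M w a2 ≠ 0` are light to
`j`, EFour with `J w := k' j w = 1` is a contradiction (H0 with `j`). So there is `w1 ∈ K` with a nonzero entry,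
say `M w1 b ≠ 0`, `b ∈ {a, a2}`, and `2 ≤ k' j w1`. ETwo for `(c, b)`, `j`, `w1`: `k' j w1 ∣ M j c` and all other
elements of `C` are light to `w1`. EThree for `(c, b)`: every `l` adjacent to `j` and to `w1` has `k' j l = 1`
(otherwise `M j c` is even). In particular `k' j w = 1` for `w ∈ K`, `w ≠ w1`, and `k' j j' = 1` for `j' ∈ C`, `j' ≠ j`.
H0 (triangle `j, j', w`): `2 ≤ k' j' w` for `j' ∈ C`, `j' ≠ j`, `w ∈ K`, `w ≠ w1`. H0 (triangle `j, w, w'`):
`2 ≤ k' w w'` for different `w, w' ∈ K` different from `w1`. `sup_ndvd` with `q = k' j w1`: there is `j' ∈ Sup c` with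
`q ∤ M j' c`, so `j' ≠ j`. Some `w ∈ K`, `w ≠ w1`, has a nonzero entry (otherwise all minors vanish: Minor with
`q = 0`), say `M w b ≠ 0`; ETwo for `(c, b)`, `j'`, `w`: all elements of `C` except `j'` are light to `w`; so
`C = {j, j'}`. Rows of `w ∈ K`: `|M w b| ≤ 1` for `b = a, a2`: `starM.s1` for the clique vertex `c` and the star
`(j'; w)` (`w ≠ w1`) or `(j; w1)`, column `b` (`M j' b = 0`, otherwise `GDom b j'` and `a`, `c` are twins). For `w, w' ∈ K`
different from `w1` the minor vanishes: if `w = w'` trivial; StarBG for the clique vertex `a`, centre `w`, leaves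
`w'`, `j'`, columns `a, a2`: the row of `w` is even, hence `0`, or the minor vanishes. -/
def FourIThreeA : Prop := ∀ (V : Type) [Fintype V] [DecidableEq V] (G : SimpleGraph V)
  (k k' : V → V → ℕ) (M N : V → V → ℤ) (π : Equiv.Perm V), Core G k k' M N π → H0 G k' →
  ∀ a a2 c, GTw G a2 a → G.Adj a a2 → G.Adj a c → ¬ GTw G a c → k a a2 = 1 → k a c = 1 → k a2 c = 1 →
  Bad G c a → ∃ j j' w1, GTw G j c ∧ GTw G j' c ∧ GTw G w1 a ∧ j ≠ j' ∧ ¬ Even (M j c) ∧ M j' c ≠ 0 ∧
    (∀ u, GTw G u c → u = j ∨ u = j') ∧ 2 ≤ k' j w1 ∧ k' j' w1 = 1 ∧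
    (∀ w, GTw G w a → w ≠ w1 → 2 ≤ k' j' w) ∧ (∀ w, GTw G w a → |M w a| ≤ 1 ∧ |M w a2| ≤ 1) ∧
    ∀ w w', GTw G w a → GTw G w' a → w ≠ w1 → w' ≠ w1 → M w a * M w' a2 - M w' a * M w a2 = 0

/-- **FourIThree.** Proof. FourIThreeA. The class of `c` is `{j, j'}`, it has two elements `c, c'`. (1) `2 ≤ k c' b` for
`b = a, a2`: suppose `k c' b = 1` (`c' ~ b` by `adj_tw`). Some `w` in the class of `a` has `M w b ≠ 0` (`clsNM`), so
`|M w b| = 1`. If `w = w1`: `hdiv` for `(c, b)` and `(c', b)` with `j, w1` gives `k' j w1 ∣ M j c` and `M j c'` (trivial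
if an entry is `0`), against RowDvd (row `j`; its class is `{c, c'}`). If `w ≠ w1`: the same with `j', w`. (2) `N c' j'`
is odd: `clsNM` for `(c', c)` and `(c', c')` on `{j, j'}`: `N c' j * M j c + N c' j' * M j' c = 0` and
`N c' j * M j c' + N c' j' * M j' c' = 1`; if `N c' j'` is even then `N c' j` is even (`M j c` odd): contradiction.
(3) StarBG for `Core.swap`, clique vertex `c`, centre `c'`, leaves `a`, `a2`, columns `j'`, `w1` (`k' j' w1 = 1`):
`N c' w1 = 0` (otherwise `GDom w1 c'` and `a`, `c` are twins), so `N c' j' * N a w1 = 0` and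
`N c' j' * N a2 w1 = 0`: `N a w1 = N a2 w1 = 0`. (4) Expand
`1 = (∑ w, N a w * M w a) * (∑ w', N a2 w' * M w' a2) - (∑ w, N a w * M w a2) * (∑ w', N a2 w' * M w' a)`
`= ∑ w w', N a w * N a2 w' * (M w a * M w' a2 - M w' a * M w a2)`: every term is `0`. Contradiction. -/
def FourIThree : Prop := ∀ (V : Type) [Fintype V] [DecidableEq V] (G : SimpleGraph V)
  (k k' : V → V → ℕ) (M N : V → V → ℤ) (π : Equiv.Perm V), Core G k k' M N π → H0 G k' →
  ∀ a a2 c, GTw G a2 a → G.Adj a a2 → G.Adj a c → ¬ GTw G a c → k a a2 = 1 → k a c = 1 → k a2 c = 1 →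
  Bad G c a → False

/-- **Four.** Proof. Let `a, b, c` be a light triangle for `k`. Three classes: FourD. All in one class: `a` is a
clique vertex; TK and H0. Exactly two in one class (after renaming `a, a2` and `c`): if `GDom a c` FourITwo; if
`Bad c a` FourIThree; otherwise FourIOne. -/
def Four : Prop := ∀ (V : Type) [Fintype V] [DecidableEq V] (G : SimpleGraph V)
  (k k' : V → V → ℕ) (M N : V → V → ℤ) (π : Equiv.Perm V), Core G k k' M N π →
  H0 G k' → H0 G k

/-! ### No triangle with two light edges, no light quadrilateral -/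

/-- no triangle with two light edges -/
def H1 {V : Type} (G : SimpleGraph V) (k : V → V → ℕ) : Prop :=
  ∀ a b c, G.Adj a b → G.Adj b c → G.Adj a c → k a b = 1 → k b c = 1 → False

/-- no light quadrilateral -/
def C4 {V : Type} (G : SimpleGraph V) (k : V → V → ℕ) : Prop :=
  ∀ a b c d, a ≠ c → b ≠ d → G.Adj a b → G.Adj b c → G.Adj c d → G.Adj d a →
    k a b = 1 → k b c = 1 → k c d = 1 → k d a = 1 → False

/-- **FiveL.** Let `x y` be light, `w ∈ Sup y` with odd coefficient. Then all of `Sup x` is light to `w`, or `x`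
is below `y`. Proof. Suppose not `Bad x y`. If not `Bad y x`: EOne. If `Bad y x`: let `j ∈ Sup x`
and suppose `2 ≤ k' w j`. ETwo for `(y, x)` (its `j` is our `w`, its `w` is our `j`): all other twins of `y` are
light to `j`. EThree for `(y, x)`: every `l` adjacent to `w` and `j` has `k' w l = 1` (otherwise `M w y` is even;
`mm = M`). `w` is a clique vertex (`clq_tw`), so it has an adjacent twin `w''`; `w'' ~ j` (`adj_tw`). So `w w''` and
`w'' j` are light: contradiction to H1. -/
def FiveL : Prop := ∀ (V : Type) [Fintype V] [DecidableEq V] (G : SimpleGraph V)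
  (k k' : V → V → ℕ) (M N : V → V → ℤ) (π : Equiv.Perm V), Core G k k' M N π → H1 G k' →
  ∀ x y, G.Adj x y → ¬ GTw G x y → k x y = 1 → ∀ w, Sup G M π y w → ¬ Even (mm G M w y) →
  (∀ j, Sup G M π x j → k' j w = 1) ∨ Bad G x y

/-- **FiveM.** In the situation of FiveL `w` has a light neighbour in the class of `x`. Proof. FiveL: in the
first case any element of `Sup x` (`sup_odd`). In the second case let `j ∈ Sup x`; if `j w` is heavy, ETwo for
`(x, y)` shows that all other twins of `x` are light to `w`, and there is another one (`x` is a clique vertex,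
so `j` is one, `clq_tw`). -/
def FiveM : Prop := ∀ (V : Type) [Fintype V] [DecidableEq V] (G : SimpleGraph V)
  (k k' : V → V → ℕ) (M N : V → V → ℤ) (π : Equiv.Perm V), Core G k k' M N π → H1 G k' →
  ∀ x y, G.Adj x y → ¬ GTw G x y → k x y = 1 → ∀ w, Sup G M π y w → ¬ Even (mm G M w y) →
  ∃ j, GTw G j x ∧ G.Adj j w ∧ k' j w = 1

/-- **FiveOne.** Light path `a - b - c` in three classes. Proof. Let `w ∈ Sup b` with odd coefficient. FiveM for
`(a, b)` and for `(c, b)` gives twins `j` of `a` and `z` of `c`, both light to `w`; `j ~ z` (`adj_tw`): contradiction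
to H1 for `j, w, z`. -/
def FiveOne : Prop := ∀ (V : Type) [Fintype V] [DecidableEq V] (G : SimpleGraph V)
  (k k' : V → V → ℕ) (M N : V → V → ℤ) (π : Equiv.Perm V), Core G k k' M N π → H1 G k' →
  ∀ a b c, G.Adj a b → G.Adj b c → G.Adj a c → ¬ GTw G a b → ¬ GTw G b c → ¬ GTw G a c →
  k a b = 1 → k b c = 1 → False

/-- **FiveTwo.** Light path `a - b - c` with `a`, `c` in one class. Proof. `a` is a clique vertex. Let `w ∈ Sup b`
with odd coefficient. Two different twins of `a` are not both light to `w` (H1; they are adjacent, `clq_adj2`).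
Minor (`q = 0`, columns `a`, `c`): there are `i ≠ i'` in the class of `a` whose rows `(M i a, M i c)`,
`(M i' a, M i' c)` are not zero. One of them, call it `j`, is heavy to `w`. Say `M j u ≠ 0`, `u ∈ {a, c}`, so `j ∈ Sup u`.
FiveL for `(u, b)` gives `Bad u b`, i.e. `GDom a b`. ETwo for `(u, b)`: all other twins of `a` are light to `w`, so there is
at most one other: the class is `{i, i'} = {a, c}` (it contains `a ≠ c`), and `|mm w b| = 1`; `hdiv` for `(a, b)` and
`(c, b)`: `k' j w ∣ M j a`, `M j c` (trivial if the entry is `0`). RowDvd: contradiction. -/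
def FiveTwo : Prop := ∀ (V : Type) [Fintype V] [DecidableEq V] (G : SimpleGraph V)
  (k k' : V → V → ℕ) (M N : V → V → ℤ) (π : Equiv.Perm V), Core G k k' M N π → H1 G k' →
  ∀ a b c, G.Adj a b → G.Adj b c → G.Adj a c → ¬ GTw G a b → GTw G a c →
  k a b = 1 → k b c = 1 → False

/-- **FiveThree.** Light path `a - b - c` with `a`, `b` in one class and `c` in another one. Proof. `b` is a clique
vertex. Let `w ∈ Sup b` with `M w b` odd. FiveM for `(c, b)`: a twin `z` of `c` is light to `w`. So every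
twin `w' ≠ w` of `a` is heavy to `w` (H1 for `z, w, w'`; all adjacent by `adj_tw`, `clq_adj2`). If some `l` is a third twin
besides `w, w'`: StarBG with centre `w`, leaves `w'`, `l`, columns `a`, `b`: `M w b` is odd, so
`M w a * M w' b = M w' a * M w b`. If the class has a third element besides `w` and `w'` for every `w'`, i.e. at least
three elements, all rows are proportional to the row of `w`, which is nonzero: all minors vanish, against Minor
with `q = 0`. If the class is `{w, w'}` the only minors are `±` that of `w, w'`, divisible by `k' w w'` (`heisM`,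
`k a b = 1`), against Minor with `q = k' w w'`. -/
def FiveThree : Prop := ∀ (V : Type) [Fintype V] [DecidableEq V] (G : SimpleGraph V)
  (k k' : V → V → ℕ) (M N : V → V → ℤ) (π : Equiv.Perm V), Core G k k' M N π → H1 G k' →
  ∀ a b c, G.Adj a b → G.Adj b c → G.Adj a c → GTw G a b → ¬ GTw G b c →
  k a b = 1 → k b c = 1 → False

/-- **FiveA.** Proof. Light path `a - b - c` with `a ~ c`. Three classes: FiveOne. `a`, `c` in one class and `b` not:
FiveTwo. `a`, `b` in one class and `c` not: FiveThree; `b`, `c` in one class and `a` not: FiveThree for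
`c - b - a`. All in one class: TK (second part) and H1 for `k'`. -/
def FiveA : Prop := ∀ (V : Type) [Fintype V] [DecidableEq V] (G : SimpleGraph V)
  (k k' : V → V → ℕ) (M N : V → V → ℤ) (π : Equiv.Perm V), Core G k k' M N π →
  H1 G k' → H1 G k

/-- **FiveB.** Proof. Let `a, b, c, d` be a light quadrilateral for `k`. `a`, `c` are not adjacent (H1 for `k`), and `b`, `d` are
not adjacent. For each side, e.g. `a b`: not `GDom a b` (`d ~ a`, `d ≠ b`, `d` not adjacent to `b`) and not
`GDom b a` (`c ~ b`). So EOne applies to each side. Choose elements `a0 ∈ Sup a`, ... (`sup_odd`): adjacent (`adj_tw`) and light.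
`a0 ≠ c0`: otherwise `a`, `c` are twins; they are not adjacent, so `a` is rigid (`clq_adj`), `c` too, and `a0 = π a`,
`c0 = π c`, so `a = c`. The same for `b0 ≠ d0`. Contradiction to C4 for `k'`. -/
def FiveB : Prop := ∀ (V : Type) [Fintype V] [DecidableEq V] (G : SimpleGraph V)
  (k k' : V → V → ℕ) (M N : V → V → ℤ) (π : Equiv.Perm V), Core G k k' M N π →
  H1 G k → C4 G k' → C4 G k

/-! ### All edges of triangles heavy -/

/-- no light edge in a triangle -/
def H2 {V : Type} (G : SimpleGraph V) (k : V → V → ℕ) : Prop :=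
  ∀ a b c, G.Adj a b → G.Adj b c → G.Adj a c → k a b = 1 → False

/-- no quadrilateral with three light sides -/
def P4 {V : Type} (G : SimpleGraph V) (k : V → V → ℕ) : Prop :=
  ∀ a b c d, a ≠ c → b ≠ d → G.Adj a b → G.Adj b c → G.Adj c d → G.Adj d a →
    k a b = 1 → k b c = 1 → k c d = 1 → False

/-- no light pentagon -/
def C5 {V : Type} (G : SimpleGraph V) (k : V → V → ℕ) : Prop :=
  ∀ a b c d e, a ≠ c → b ≠ d → c ≠ e → d ≠ a → e ≠ b → G.Adj a b → G.Adj b c → G.Adj c d →
    G.Adj d e → G.Adj e a → k a b = 1 → k b c = 1 → k c d = 1 → k d e = 1 → k e a = 1 → False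

/-- **SixA.** Proof. Let `a b` be light for `k` and `c` adjacent to both. (1) `a`, `b` twins: clique class `K`. Any two
adjacent elements `w, w'` of `K` have a common neighbour (`c` if `c` is not in `K`, by `adj_tw`; if `c` is in `K`, one of the
three elements `a, b, c` is different from `w, w'`), so they are heavy for `k'`: EFour with `J := True`.
(2) `a`, `b` not twins. Any `j` in the class of `a` and `w` in the class of `b` are adjacent and have a common
neighbour: if `c` is not a twin of `a` nor of `b`, it is `c`; if `c` is a twin of `a` (then `a` is a clique vertex)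
one of `a, c` is different from `j` and it works; the same for `b`. So they are heavy for `k'` (H2, `posk'`). If neither
`Bad a b` nor `Bad b a`, EOne (with elements of the supports) is a contradiction. If `Bad a b`: ETwo for `j ∈ Sup a`,
`w ∈ Sup b` shows that another twin of `a` (it exists) is light to `w`: contradiction. The same for `Bad b a`. -/
def SixA : Prop := ∀ (V : Type) [Fintype V] [DecidableEq V] (G : SimpleGraph V)
  (k k' : V → V → ℕ) (M N : V → V → ℤ) (π : Equiv.Perm V), Core G k k' M N π →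
  H2 G k' → H2 G k

/-- **SixB.** Proof. As FiveB: `a`, `c` are not adjacent (`a b` is light, H2 for `k`), `b`, `d` not (`b c` is light and
would lie in the triangle `b c d`), all four sides have incomparable ends, EOne for the three light sides,
`adj_tw` for the fourth. -/
def SixB : Prop := ∀ (V : Type) [Fintype V] [DecidableEq V] (G : SimpleGraph V)
  (k k' : V → V → ℕ) (M N : V → V → ℤ) (π : Equiv.Perm V), Core G k k' M N π →
  H2 G k → P4 G k' → P4 G k

/-- **SixC.** Proof. As FiveB for a pentagon: no two vertices at distance two are adjacent (H2 for `k`), so adjacent ones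
are incomparable: EOne. Elements `a0`, `c0` of the supports are different: if `a0 = c0` then `a`, `c` are twins, but
`e ~ a`, `e ≠ c` and `e` is not adjacent to `c`. -/
def SixC : Prop := ∀ (V : Type) [Fintype V] [DecidableEq V] (G : SimpleGraph V)
  (k k' : V → V → ℕ) (M N : V → V → ℤ) (π : Equiv.Perm V), Core G k k' M N π →
  H2 G k → C5 G k' → C5 G k

/-! ## Part C: cycles -/

open Classical in
/-- `1` for a heavy edge, `0` for a light one -/
noncomputable def hv {V : Type} (Γ : LGraph V) (s t : V) : ℕ := if 3 ≤ Γ.label s(s, t) then 1 else 0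

/-- **CycUp.** Proof. The closed walks `a - b - c - a`, `a - b - c - d - a`, `a - b - c - d - e - a`
(`SimpleGraph.Walk.cons`) are cycles (`SimpleGraph.Walk.isCycle_def` or `cons_isCycle_iff`, the vertices are
different); `wgirth` is an infimum (`iInf_le_of_le`). See `../Girth.lean` for the case of a triangle in a complete graph. -/
def CycUp : Prop := ∀ (V : Type) (Γ : LGraph V),
  (∀ a b c, Γ.graph.Adj a b → Γ.graph.Adj b c → Γ.graph.Adj c a →
    wgirth Γ ≤ ((3 + (hv Γ a b + hv Γ b c + hv Γ c a) : ℕ) : ℕ∞)) ∧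
  (∀ a b c d, a ≠ c → b ≠ d → Γ.graph.Adj a b → Γ.graph.Adj b c → Γ.graph.Adj c d →
    Γ.graph.Adj d a →
    wgirth Γ ≤ ((4 + (hv Γ a b + hv Γ b c + hv Γ c d + hv Γ d a) : ℕ) : ℕ∞)) ∧
  (∀ a b c d e, a ≠ c → b ≠ d → c ≠ e → d ≠ a → e ≠ b → Γ.graph.Adj a b → Γ.graph.Adj b c →
    Γ.graph.Adj c d → Γ.graph.Adj d e → Γ.graph.Adj e a →
    wgirth Γ ≤ ((5 + (hv Γ a b + hv Γ b c + hv Γ c d + hv Γ d e + hv Γ e a) : ℕ) : ℕ∞))

/-- **CycLow.** Proof. Pattern matching on a cycle of length `3`, `4`, `5` (see `../Girth.lean` for length 3 and 4);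
a cycle has length `≥ 3`, and its weight is at least its length. The vertices of a cycle are different
(`IsCycle.support_nodup`). -/
def CycLow : Prop := ∀ (V : Type) (Γ : LGraph V) (v : V) (p : Γ.graph.Walk v v), p.IsCycle →
  6 ≤ weight Γ p ∨
  (∃ a b c, Γ.graph.Adj a b ∧ Γ.graph.Adj b c ∧ Γ.graph.Adj c a ∧
    weight Γ p = 3 + (hv Γ a b + hv Γ b c + hv Γ c a)) ∨
  (∃ a b c d, a ≠ c ∧ b ≠ d ∧ Γ.graph.Adj a b ∧ Γ.graph.Adj b c ∧ Γ.graph.Adj c d ∧
    Γ.graph.Adj d a ∧ weight Γ p = 4 + (hv Γ a b + hv Γ b c + hv Γ c d + hv Γ d a)) ∨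
  (∃ a b c d e, a ≠ c ∧ b ≠ d ∧ c ≠ e ∧ d ≠ a ∧ e ≠ b ∧ Γ.graph.Adj a b ∧ Γ.graph.Adj b c ∧
    Γ.graph.Adj c d ∧ Γ.graph.Adj d e ∧ Γ.graph.Adj e a ∧
    weight Γ p = 5 + (hv Γ a b + hv Γ b c + hv Γ c d + hv Γ d e + hv Γ e a))

/-- **GirthC.** Proof. For an edge of an even graph: `hv = 0 ↔ half = 1`, and `hv = 1 ↔ 2 ≤ half`
(`IsEven.label_eq`, `half_pos`), `hv ≤ 1`. (1) `3 ≤ wgirth`: all weights are `≥ 3` (CycLow). (2) CycUp. (3) to (5): from left to
right by CycUp (a forbidden configuration gives a cycle of smaller weight; use `half_comm` and rotate if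
necessary), from right to left by CycLow (`le_iInf`): e.g. a quadrilateral with at most one heavy side contains
three consecutive light sides. -/
def GirthC : Prop := ∀ (V : Type) (Γ : LGraph V), IsEven Γ →
  3 ≤ wgirth Γ ∧
  ((∃ a b c, Γ.graph.Adj a b ∧ Γ.graph.Adj b c ∧ Γ.graph.Adj a c) → wgirth Γ ≤ 6) ∧
  (4 ≤ wgirth Γ ↔ H0 Γ.graph (half Γ)) ∧
  (5 ≤ wgirth Γ ↔ H1 Γ.graph (half Γ) ∧ C4 Γ.graph (half Γ)) ∧
  (6 ≤ wgirth Γ ↔ H2 Γ.graph (half Γ) ∧ P4 Γ.graph (half Γ) ∧ C5 Γ.graph (half Γ))

/-- **Final.** Proof. If `Γ` has no triangle: `TwinsIsolated Γ` (adjacent twins `a, b` with a third vertex adjacent to `a`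
give a triangle), and the theorem `rigid` of `../Twin` with `wgIso` (see `../../../Results/MP_107652_al/EvenRigid.lean`). Let
`Γ` have a triangle. Trans2, CoreEx: `σ`, `Core Γ.graph (half Γ) (half Λ')` with `Λ' = pull Λ σ` (even),
`wgirth Λ' = wgirth Λ` (`wgIso`; `Λ'.graph = Γ.graph`, so `Λ'` has a triangle). By GirthC both weighted girths
are between `3` and `6`, and by Four, FiveA, FiveB, SixA, SixB, SixC for `Core` and `Core.swap` they are `≥ n` at the
same time for `n = 4, 5, 6`. -/
def Final : Prop := ∀ (V W : Type) [Fintype V] [Fintype W] (Γ : LGraph V) (Λ : LGraph W),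
  IsEven Γ → IsEven Λ → Nonempty (Artin Γ ≃* Artin Λ) → wgirth Γ = wgirth Λ

end WGEven
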