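import Pool.Agent.Lib.MP_107652_al.Even.Spec

/-!
# MP_107652_al, Even/GenEx: the vertices outside a star which are connected to `S1` outside the star
-/

set_option autoImplicit false

open Finset

namespace WGEven

open WGirth WGTwin

namespace GenExAux

/-- the vertices outside the star of `x` which are connected to `S1` by a path outside the star -/
inductive Rch {V : Type} (G : SimpleGraph V) (x : V) (S1 : Finset V) : V → Prop
  | base (g s : V) (hg : ¬ (g = x ∨ G.Adj x g)) (hs : s ∈ S1) (hgs : G.Adj g s) : Rch G x S1 g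
  | step (g g' : V) (hg : Rch G x S1 g) (hg' : ¬ (g' = x ∨ G.Adj x g')) (hgg : G.Adj g g') :
      Rch G x S1 g'

variable {V : Type} {G : SimpleGraph V} {x : V} {S1 : Finset V}

theorem Rch.out {g : V} (h : Rch G x S1 g) : ¬ (g = x ∨ G.Adj x g) := by
  cases h with
  | base _ _ hg _ _ => exact hg
  | step _ _ _ hg' _ => exact hg'

theorem Rch.dom (hS : ∀ s ∈ S1, s = x ∨ G.Adj x s) {g : V} (h : Rch G x S1 g) {i : V}
    (hi : ¬ (i = x ∨ G.Adj x i)) (hd : GDom G g i) : Rch G x S1 i := by
  cases h with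
  | base _ s _ hs hgs =>
    rcases hd s hgs with h1 | h1
    · subst h1
      exact absurd (hS s hs) hi
    · exact Rch.base i s hi hs h1.symm
  | step g0 _ hg0 _ hgg =>
    rcases hd g0 hgg.symm with h1 | h1
    · subst h1
      exact hg0
    · exact Rch.step g0 i hg0 hi h1

end GenExAux

open GenExAux

theorem genEx : GenEx := by
  classical
  intro V _ _ G x S1 hS
  have mg : ∀ w, w ∈ (Finset.univ.filter (fun w => Rch G x S1 w)) ↔ Rch G x S1 w := by
    intro w
    simp
  have mz : ∀ w, w ∈ (Finset.univ.filter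
      (fun w => ¬ (w = x ∨ G.Adj x w) ∧ ¬ Rch G x S1 w)) ↔
      (¬ (w = x ∨ G.Adj x w) ∧ ¬ Rch G x S1 w) := by
    intro w
    simp
  refine ⟨Finset.univ.filter (fun w => Rch G x S1 w),
    Finset.univ.filter (fun w => ¬ (w = x ∨ G.Adj x w) ∧ ¬ Rch G x S1 w), ?_, ?_, ?_, ?_, ?_⟩
  · rw [Finset.disjoint_left]
    intro w hw hw'
    exact ((mz w).mp hw').2 ((mg w).mp hw)
  · intro w
    rw [Finset.mem_union, mg, mz]
    constructor
    · rintro (h | h)
      · exact h.out
      · exact h.1
    · intro h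
      by_cases h1 : Rch G x S1 w
      · exact Or.inl h1
      · exact Or.inr ⟨h, h1⟩
  · intro w hw
    rw [mz] at hw
    refine ⟨fun s hs hws => hw.2 (Rch.base w s hw.1 hs hws), fun g hg hwg => ?_⟩
    rw [mg] at hg
    exact hw.2 (Rch.step g w hg hw.1 hwg.symm)
  · intro g hg i hi hd
    rw [mg] at hg ⊢
    exact hg.dom hS hi hd
  · intro P hb hs g hg
    rw [mg] at hg
    induction hg with
    | base g s hg hs hgs => exact hb g ((mg g).mpr (Rch.base g s hg hs hgs)) ⟨s, hs, hgs⟩
    | step g g' hg hg' hgg ih =>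
      exact hs g ((mg g).mpr hg) g' ((mg g').mpr (Rch.step g g' hg hg' hgg)) hgg ih

end WGEven
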