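import Pool.Agent.Lib.MP_107652_al.Even.Spec

/-!
# MP_107652_al, even case: multiplicatively independent real numbers
-/

set_option autoImplicit false

open Finset

namespace WGEven

namespace PrimeExAux

theorem val_prod {ι : Type} (P : ι → ℕ) (hP : ∀ i, (P i).Prime) (c : ι → ℤ) (p : ℕ)
    [Fact p.Prime] (s : Finset ι) :
    padicValRat p (∏ i ∈ s, (P i : ℚ) ^ (c i)) = ∑ i ∈ s, c i * padicValRat p (P i : ℚ) := by
  classical
  induction s using Finset.induction_on with
  | empty => simp
  | insert a s ha ih =>
    rw [Finset.prod_insert ha, Finset.sum_insert ha, padicValRat.mul, ih, padicValRat.zpow]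
    · exact zpow_ne_zero _ (by exact_mod_cast (hP a).ne_zero)
    · exact Finset.prod_ne_zero_iff.mpr
        (fun i _ => zpow_ne_zero _ (by exact_mod_cast (hP i).ne_zero))

theorem indep {ι : Type} [Fintype ι] (P : ι → ℕ) (hP : ∀ i, (P i).Prime)
    (hinj : Function.Injective P) (c : ι → ℤ) (h : ∏ i, (P i : ℚ) ^ (c i) = 1) (j : ι) :
    c j = 0 := by
  classical
  have : Fact (P j).Prime := ⟨hP j⟩
  have h1 := val_prod P hP c (P j) Finset.univ
  rw [h, padicValRat.one] at h1
  rw [Finset.sum_eq_single j] at h1
  · rw [padicValRat.of_nat, padicValNat_self] at h1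
    simpa using h1.symm
  · intro i _ hij
    have : Fact (P i).Prime := ⟨hP i⟩
    rw [padicValRat.of_nat, padicValNat_primes (fun h2 => hij (hinj h2.symm))]
    simp
  · intro h2
    exact absurd (Finset.mem_univ j) h2

end PrimeExAux

theorem primeEx : PrimeEx := by
  intro V _ _
  let P : Option V → ℕ := fun o => match o with
    | none => 2
    | some v => Nat.nth Nat.Prime ((Fintype.equivFin V v).val + 1)
  have h2 : Nat.nth Nat.Prime 0 = 2 := Nat.nth_prime_zero_eq_two
  have hP : ∀ o, (P o).Prime := by
    intro o
    cases o with
    | none => exact Nat.prime_two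
    | some v => exact Nat.prime_nth_prime _
  have hmono := Nat.nth_injective Nat.infinite_setOf_prime
  have hinj : Function.Injective P := by
    intro o o' hoo
    cases o with
    | none =>
      cases o' with
      | none => rfl
      | some v =>
        exfalso
        have h3 : Nat.nth Nat.Prime 0 = Nat.nth Nat.Prime ((Fintype.equivFin V v).val + 1) := by
          rw [h2]
          exact hoo
        have := hmono h3
        omega
    | some v =>
      cases o' with
      | none =>
        exfalso
        have h3 : Nat.nth Nat.Prime ((Fintype.equivFin V v).val + 1) = Nat.nth Nat.Prime 0 := by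
          rw [h2]
          exact hoo
        have := hmono h3
        omega
      | some v' =>
        have h3 := hmono hoo
        have h4 : Fintype.equivFin V v = Fintype.equivFin V v' := Fin.ext (by omega)
        rw [(Fintype.equivFin V).injective h4]
  refine ⟨fun v => (P (some v) : ℝ), fun v => Nat.cast_pos.mpr (hP (some v)).pos, ?_⟩
  intro a b hab
  let c : Option V → ℤ := fun o => match o with
    | none => a
    | some v => b v
  have h5 : ∏ o : Option V, (P o : ℚ) ^ (c o) = 1 := by
    rw [Fintype.prod_option]
    have h6 : (((2 : ℚ) ^ a * ∏ v : V, (P (some v) : ℚ) ^ (b v) : ℚ) : ℝ) = ((1 : ℚ) : ℝ) := by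
      push_cast
      exact hab
    have h7 := Rat.cast_injective h6
    rw [← h7]
    norm_num [P, c]
  have h8 := PrimeExAux.indep P hP hinj c h5
  exact ⟨h8 none, fun v => h8 (some v)⟩

end WGEven
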