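import Pool.Agent.Lib.MP_107652_al.Even.Spec

/-!
# MP_107652_al: the combination of the exponents which is equal to one
-/

set_option autoImplicit false

open Finset

namespace WGEven

theorem upInv : UpInv := by
  intro V _ _ G M N hMN hN k' x S0 S1 ε z hSD
  obtain ⟨s0, hs0⟩ := hSD.ne0
  refine ⟨fun w => ε s0 * N w s0, ?_, ?_⟩
  · intro w hw
    have h0 : N w s0 = 0 := by
      by_contra hne
      exact hw (gdom_trans (hSD.s0 s0 hs0).2 (hN s0 w hne))
    show ε s0 * N w s0 = 0
    rw [h0, mul_zero]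
  · have hmem : s0 ∈ S0 ∪ S1 := Finset.mem_union_left _ hs0
    have h1 : ∀ w, (ε s0 * N w s0) * nS M S0 S1 ε w
        = ∑ s ∈ S0 ∪ S1, ε s0 * ε s * (M s w * N w s0) := by
      intro w
      unfold nS
      rw [Finset.mul_sum]
      apply Finset.sum_congr rfl
      intro s _
      ring
    show ∑ w, (ε s0 * N w s0) * nS M S0 S1 ε w = 1
    rw [Finset.sum_congr rfl (fun w _ => h1 w), Finset.sum_comm]
    have h2 : ∀ s ∈ S0 ∪ S1, ∑ w, ε s0 * ε s * (M s w * N w s0)
        = if s = s0 then 1 else 0 := by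
      intro s _
      rw [← Finset.mul_sum, hMN s s0]
      by_cases hs : s = s0
      · subst hs
        rcases hSD.eps s hmem with h | h
        · rw [h]; simp
        · rw [h]; simp
      · simp only [if_neg hs, mul_zero]
    rw [Finset.sum_congr rfl h2, Finset.sum_ite_eq' (S0 ∪ S1) s0 (fun _ => (1 : ℤ)), if_pos hmem]

end WGEven
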