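import Pool.Agent.Lib.MP_107652_al.Even.Spec

/-!
# MP_107652_al: `BlkOut` and `BlkGen`
-/

set_option autoImplicit false

open Finset

namespace WGEven

open WGirth WGTwin

theorem blkOut : BlkOut := by
  intro V G M domM x hx w hw g hg
  by_contra hne
  have hd := domM w g hne
  rcases hw with h | h
  · subst h
    exact hg (up_adj hx hd)
  · rcases hd x h.symm with h2 | h2
    · exact hg (Or.inl h2.symm)
    · exact hg (Or.inr h2)

theorem blkGen (h : BlkOut) : BlkGen := by
  intro V _ _ G M N hNM domM domN x hx Gen hout hup g hg g' hg'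
  rw [← hNM g g']
  apply Finset.sum_subset (Finset.subset_univ _)
  intro i _ hi
  by_contra hne
  have hN : N g i ≠ 0 := left_ne_zero_of_mul hne
  have hM : M i g' ≠ 0 := right_ne_zero_of_mul hne
  have hiout : ¬ (i = x ∨ G.Adj x i) := by
    intro hs
    exact hN (h V G N domN x hx i hs g (hout g hg))
  exact hi (hup g' hg' i hiout (domM g' i hM))

end WGEven
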