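import Pool.Agent.Lib.MP_107652_al.Even.Spec
import Pool.Agent.Lib.MP_107652_al.Reps
import Pool.Agent.Lib.MP_107652_al.Twin.DomTr
import Pool.Agent.Lib.MP_107652_al.Twin.ClassInv

/-!
# MP_107652_al, Even/StarSt: the star conditions
-/

set_option autoImplicit false

open Finset

namespace WGEven

open WGirth WGTwin

namespace StarStAux

open Reps

/-- the linear part of a leaf -/
noncomputable def leafU (k : ℕ) : ℂˣ := Units.mk0 (zt k / 2) (zt_half_ne_zero k)

theorem leaf_norm {k : ℕ} (hk : 2 ≤ k) : ‖(leafU k : ℂ)‖ = (2 : ℝ) ^ (-1 : ℤ) := by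
  show ‖zt k / 2‖ = _
  rw [norm_div, zt_norm hk]
  norm_num

theorem two_norm : ‖(two : ℂ)‖ = (2 : ℝ) ^ (1 : ℤ) := by
  rw [two_val]
  norm_num

theorem prod_ne {k : ℕ} (hk : 2 ≤ k) :
    (two : ℂ) * leafU k ≠ 1 ∧ ((two : ℂ) * leafU k) ^ k = 1 := by
  have e : (two : ℂ) * leafU k = zt k := by
    show (2 : ℂ) * (zt k / 2) = zt k
    ring
  rw [e]
  exact ⟨zt_ne_one hk, zt_pow hk⟩

theorem prod_ne' {k : ℕ} (hk : 2 ≤ k) :
    (leafU k : ℂ) * two ≠ 1 ∧ ((leafU k : ℂ) * two) ^ k = 1 := by
  rw [mul_comm]
  exact prod_ne hk

end StarStAux

open StarStAux Reps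

theorem starSt (h1 : LocS) (h2 : StarQEx) : StarSt := by
  classical
  intro V _ _ Γ Λ M N hΓ hΛ ht
  have hadj : ∀ a b, Γ.graph.Adj a b ↔ Λ.graph.Adj a b := ht.td.adj
  -- one leaf
  have S1 : ∀ x, Clq Γ.graph x → ∀ i j, Γ.graph.Adj i j → 2 ≤ half Λ i j →
      (GTw Γ.graph i x ∨ GTw Γ.graph j x) →
      (∀ w, GDom Γ.graph x w → |M i w - M j w| ≤ 1) ∧
      ∀ w w', GDom Γ.graph x w → GDom Γ.graph x w' → Γ.graph.Adj w w' → half Γ w w' = 1 →
        0 ≤ (M i w - M j w) * (M i w' - M j w') := by
    intro x hx i j hij hk hor
    have hne : i ≠ j := hij.ne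
    let ε : V → ℤ := fun v => if v = i then 1 else -1
    let z : V → ℂˣ := fun v => if v = i then two else leafU (half Λ i v)
    have zi : z i = two := if_pos rfl
    have zj : z j = leafU (half Λ i j) := if_neg hne.symm
    have ei : ε i = 1 := if_pos rfl
    have ej : ε j = -1 := if_neg hne.symm
    have hn : ∀ S0 S1 : Finset V, S0 ∪ S1 = {i, j} → ∀ w, nS M S0 S1 ε w = M i w - M j w := by
      intro S0 S1 hS w
      unfold nS
      rw [hS, Finset.sum_pair hne, ei, ej]
      ring
    rcases hor with hor | hor
    · have hsd : SD Γ.graph (half Λ) x {i} {j} ε z := by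
        refine ⟨hx, ?_, ?_, ⟨i, Finset.mem_singleton_self i⟩, ⟨j, Finset.mem_singleton_self j⟩,
          ?_, ?_, ?_, ?_⟩
        · intro s hs
          rw [Finset.mem_singleton.mp hs]
          exact hor
        · intro s hs
          rw [Finset.mem_singleton.mp hs]
          exact star_tw (clq_tw hx hor) (gtw_symm hor) (Or.inr hij)
        · rw [Finset.disjoint_singleton]
          exact hne
        · intro s _
          by_cases hs : s = i
          · left; exact if_pos hs
          · right; exact if_neg hs
        · intro s hs
          rw [Finset.mem_union, Finset.mem_singleton, Finset.mem_singleton] at hs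
          rcases hs with hs | hs
          · rw [hs, zi, ei]; exact two_norm
          · rw [hs, zj, ej]; exact leaf_norm hk
        · intro s hs s' hs'
          rw [Finset.mem_singleton.mp hs, Finset.mem_singleton.mp hs', zi, zj]
          exact prod_ne hk
      have := h1 V Γ Λ M N hΓ hΛ ht x {i} {j} ε z hsd
      have hu : ({i} : Finset V) ∪ {j} = {i, j} := rfl
      simp only [hn {i} {j} hu] at this
      exact this
    · have hsd : SD Γ.graph (half Λ) x {j} {i} ε z := by
        refine ⟨hx, ?_, ?_, ⟨j, Finset.mem_singleton_self j⟩, ⟨i, Finset.mem_singleton_self i⟩,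
          ?_, ?_, ?_, ?_⟩
        · intro s hs
          rw [Finset.mem_singleton.mp hs]
          exact hor
        · intro s hs
          rw [Finset.mem_singleton.mp hs]
          exact star_tw (clq_tw hx hor) (gtw_symm hor) (Or.inr hij.symm)
        · rw [Finset.disjoint_singleton]
          exact hne.symm
        · intro s _
          by_cases hs : s = i
          · left; exact if_pos hs
          · right; exact if_neg hs
        · intro s hs
          rw [Finset.mem_union, Finset.mem_singleton, Finset.mem_singleton] at hs
          rcases hs with hs | hs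
          · rw [hs, zj, ej]; exact leaf_norm hk
          · rw [hs, zi, ei]; exact two_norm
        · intro s hs s' hs'
          rw [Finset.mem_singleton.mp hs, Finset.mem_singleton.mp hs', zi, zj, half_comm Λ j i]
          exact prod_ne' hk
      have := h1 V Γ Λ M N hΓ hΛ ht x {j} {i} ε z hsd
      have hu : ({j} : Finset V) ∪ {i} = {i, j} := by
        ext v
        simp only [Finset.mem_union, Finset.mem_singleton, Finset.mem_insert]
        tauto
      simp only [hn {j} {i} hu] at this
      exact this
  refine ⟨S1, ?_, ?_⟩
  · -- two leaves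
    intro x hx i j l hij hil hjl hk hk2 hor
    have hne : i ≠ j := hij.ne
    have hne2 : i ≠ l := hil.ne
    have hne3 : j ≠ l := hjl.ne
    let ε : V → ℤ := fun v => if v = i then 1 else -1
    let z : V → ℂˣ := fun v => if v = i then two else leafU (half Λ i v)
    have zi : z i = two := if_pos rfl
    have zj : z j = leafU (half Λ i j) := if_neg hne.symm
    have zl : z l = leafU (half Λ i l) := if_neg hne2.symm
    have ei : ε i = 1 := if_pos rfl
    have ej : ε j = -1 := if_neg hne.symm
    have el : ε l = -1 := if_neg hne2.symm
    have hn : ∀ S0 S1 : Finset V, S0 ∪ S1 = {i, j, l} → ∀ w,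
        nS M S0 S1 ε w = M i w - M j w - M l w := by
      intro S0 S1 hS w
      unfold nS
      rw [hS, Finset.sum_insert (by simp [hne, hne2]), Finset.sum_pair hne3, ei, ej, el]
      ring
    rcases hor with hor | ⟨hor, hor2⟩
    · have hsd : SD Γ.graph (half Λ) x {i} {j, l} ε z := by
        refine ⟨hx, ?_, ?_, ⟨i, Finset.mem_singleton_self i⟩, ⟨j, Finset.mem_insert_self j _⟩,
          ?_, ?_, ?_, ?_⟩
        · intro s hs
          rw [Finset.mem_singleton.mp hs]
          exact hor
        · intro s hs
          rw [Finset.mem_insert, Finset.mem_singleton] at hs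
          rcases hs with hs | hs
          · rw [hs]
            exact star_tw (clq_tw hx hor) (gtw_symm hor) (Or.inr hij)
          · rw [hs]
            exact star_tw (clq_tw hx hor) (gtw_symm hor) (Or.inr hil)
        · rw [Finset.disjoint_singleton_left, Finset.mem_insert, Finset.mem_singleton, not_or]
          exact ⟨hne, hne2⟩
        · intro s _
          by_cases hs : s = i
          · left; exact if_pos hs
          · right; exact if_neg hs
        · intro s hs
          rw [Finset.mem_union, Finset.mem_singleton, Finset.mem_insert,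
            Finset.mem_singleton] at hs
          rcases hs with hs | hs | hs
          · rw [hs, zi, ei]; exact two_norm
          · rw [hs, zj, ej]; exact leaf_norm hk
          · rw [hs, zl, el]; exact leaf_norm hk2
        · intro s hs s' hs'
          rw [Finset.mem_insert, Finset.mem_singleton] at hs'
          rcases hs' with hs' | hs'
          · rw [Finset.mem_singleton.mp hs, hs', zi, zj]
            exact prod_ne hk
          · rw [Finset.mem_singleton.mp hs, hs', zi, zl]
            exact prod_ne hk2
      have := h1 V Γ Λ M N hΓ hΛ ht x {i} {j, l} ε z hsd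
      have hu : ({i} : Finset V) ∪ {j, l} = {i, j, l} := rfl
      simp only [hn {i} {j, l} hu] at this
      exact this
    · have hsd : SD Γ.graph (half Λ) x {j, l} {i} ε z := by
        refine ⟨hx, ?_, ?_, ⟨j, Finset.mem_insert_self j _⟩, ⟨i, Finset.mem_singleton_self i⟩,
          ?_, ?_, ?_, ?_⟩
        · intro s hs
          rw [Finset.mem_insert, Finset.mem_singleton] at hs
          rcases hs with hs | hs
          · rw [hs]; exact hor
          · rw [hs]; exact hor2
        · intro s hs
          rw [Finset.mem_singleton.mp hs]
          exact star_tw (clq_tw hx hor) (gtw_symm hor) (Or.inr hij.symm)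
        · rw [Finset.disjoint_singleton_right, Finset.mem_insert, Finset.mem_singleton, not_or]
          exact ⟨hne, hne2⟩
        · intro s _
          by_cases hs : s = i
          · left; exact if_pos hs
          · right; exact if_neg hs
        · intro s hs
          rw [Finset.mem_union, Finset.mem_singleton, Finset.mem_insert,
            Finset.mem_singleton] at hs
          rcases hs with (hs | hs) | hs
          · rw [hs, zj, ej]; exact leaf_norm hk
          · rw [hs, zl, el]; exact leaf_norm hk2
          · rw [hs, zi, ei]; exact two_norm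
        · intro s hs s' hs'
          rw [Finset.mem_insert, Finset.mem_singleton] at hs
          rcases hs with hs | hs
          · rw [Finset.mem_singleton.mp hs', hs, zi, zj, half_comm Λ j i]
            exact prod_ne' hk
          · rw [Finset.mem_singleton.mp hs', hs, zi, zl, half_comm Λ l i]
            exact prod_ne' hk2
      have := h1 V Γ Λ M N hΓ hΛ ht x {j, l} {i} ε z hsd
      have hu : ({j, l} : Finset V) ∪ {i} = {i, j, l} := by
        ext v
        simp only [Finset.mem_union, Finset.mem_singleton, Finset.mem_insert]
        tauto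
      simp only [hn {j, l} {i} hu] at this
      exact this
  · -- the star in characteristic `p`
    intro i j hij htw hk
    obtain ⟨x, y, e, hx, hy, hM, hN⟩ := ht.ex
    obtain ⟨p, hp, hpd⟩ := Nat.exists_prime_and_dvd (show half Λ i j ≠ 1 by omega)
    have ci : Clq Γ.graph i := ⟨j, hij, htw⟩
    have hci := classInv domTr V Γ Λ M N ht.td
    have hcls : ∀ w, w ∈ cls Γ i ↔ GTw Γ.graph w i := by
      intro w
      unfold cls
      rw [Finset.mem_filter]
      exact ⟨fun h => h.2, fun h => ⟨Finset.mem_univ _, h⟩⟩
    have hmi : i ∈ cls Γ i := (hcls i).mpr (gtw_refl i)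
    have hmj : j ∈ cls Γ i := (hcls j).mpr (gtw_symm htw)
    have key := h2 V V Λ Γ hΛ hΓ y hy e.toMonoidHom p hp i j ((hadj i j).mp hij) hpd
      (cls Γ i) (cls Γ i) N hmi hmj ?_ ?_ ?_
    · simp only [← hM] at key
      obtain ⟨v, hv, u, hu, hvu, hn0, hsum, hpd2⟩ := key
      have tv := (hcls v).mp hv
      have tu := (hcls u).mp hu
      have hvu' : Γ.graph.Adj v u := by
        rcases clq_adj2 ci tv tu with h | h
        · exact absurd h hvu
        · exact h
      have hpos := hΓ.half_pos hvu'
      have hh : 2 ≤ half Γ v u := hp.two_le.trans (Nat.le_of_dvd hpos hpd2)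
      have hb := (S1 i ci i j hij hk (Or.inl (gtw_refl i))).1 v tv.2
      rw [abs_le] at hb
      rcases lt_or_gt_of_ne hn0 with h | h
      · exact ⟨u, v, tu, tv, hvu'.symm, by rw [half_comm]; exact hh, by omega, by omega⟩
      · exact ⟨v, u, tv, tu, hvu', hh, by omega, by omega⟩
    · intro s hs s' hs'
      simp only [← hM]
      exact (hci i s' s hs' hs).2
    · intro v hv u hu hvu
      rcases clq_adj2 ci ((hcls v).mp hv) ((hcls u).mp hu) with h | h
      · exact absurd h hvu
      · exact h
    · by_contra hcon
      push Not at hcon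
      simp only [← hM] at hcon
      have e1 := (hci i i i hmi hmi).2
      have e2 := (hci i j i hmj hmi).2
      rw [if_pos rfl] at e1
      rw [if_neg hij.ne'] at e2
      have e3 : ∑ w ∈ cls Γ i, M i w * N w i = ∑ w ∈ cls Γ i, M j w * N w i := by
        apply Finset.sum_congr rfl
        intro w hw
        rw [sub_eq_zero.mp (hcon w hw)]
      rw [e1, e2] at e3
      exact one_ne_zero e3

end WGEven
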