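import Pool.Agent.Lib.MP_107652_al.Even.Spec
import Pool.Agent.Lib.MP_107652_al.Twin.DomTr
import Pool.Agent.Lib.MP_107652_al.Twin.ClassInv

/-!
# MP_107652_al: the abstract situation `Core` for an isomorphism of even Artin groups
-/

set_option autoImplicit false

namespace WGEven

open WGirth WGTwin

namespace CoreExAux

theorem dvd_unit {x k d e : ℤ} (h : x ∣ k * d) (hde : d * e = 1) : x ∣ k := by
  have h1 : x ∣ k * d * e := Dvd.dvd.mul_right h e
  rwa [mul_assoc, hde, mul_one] at h1

/-- for a vertex without adjacent twin `Heavy` and `Hvy` agree -/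
theorem heavy_iff {V : Type} {Γ : LGraph V} {a : V} (ha : ¬ Clq Γ.graph a) :
    Heavy Γ a ↔ Hvy Γ.graph (half Γ) a := by
  constructor
  · intro h
    exact h.2
  · intro h
    refine ⟨fun x hx hxa => ?_, h⟩
    exact ha ⟨x, hxa.symm, gtw_symm (G := Γ.graph) hx⟩

end CoreExAux

open CoreExAux

theorem coreEx (h1 : StarSt) (h2 : TDESymm) (h3 : PiExG) : CoreEx := by
  intro V _ _ Γ Λ M N hΓ hΛ h
  have htd := h.td
  have hgr : Λ.graph = Γ.graph := by
    ext a b
    exact (htd.adj a b).symm
  obtain ⟨π, hπ, hH, hU⟩ := h3 V Γ Λ M N hΓ hΛ htd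
  have hπ' : ∀ a, GTw Γ.graph (π a) a := hπ
  have hclq : ∀ a, ¬ Clq Γ.graph a → ¬ Clq Γ.graph (π a) := fun a ha hc =>
    ha (clq_tw hc (gtw_symm (hπ' a)))
  have hΛclq : ∀ a, ¬ Clq Γ.graph a → ¬ Clq Λ.graph a := by
    intro a ha
    rw [hgr]
    exact ha
  have hHvy : ∀ a, ¬ Clq Γ.graph a →
      (Hvy Γ.graph (half Γ) a ↔ Hvy Γ.graph (half Λ) (π a)) := by
    intro a ha
    have e1 := heavy_iff ha
    have e2 : Heavy Λ (π a) ↔ Hvy Λ.graph (half Λ) (π a) := heavy_iff (hΛclq _ (hclq a ha))
    rw [hgr] at e2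
    rw [← e1, ← e2]
    exact hH a
  refine ⟨π, ?_⟩
  exact
  { symk := fun v w => half_comm Γ v w
    symk' := fun v w => half_comm Λ v w
    posk := fun v w hvw => hΓ.half_pos hvw
    posk' := fun v w hvw => hΛ.half_pos ((htd.adj v w).mp hvw)
    domM := fun v l hl => htd.domM v l hl
    domN := fun v l hl => htd.domN l v hl
    heisM := fun a b hab i j hij => htd.pre.heisM a b hab i j ((htd.adj i j).mp hij)
    heisN := fun a b hab i j hij => htd.pre.heisN a b ((htd.adj a b).mp hab) i j hij
    clsNM := fun a x y hx hy => (classInv domTr V Γ Λ M N htd a x y hx hy).1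
    clsMN := fun a x y hx hy => (classInv domTr V Γ Λ M N htd a x y hx hy).2
    starM := h1 V Γ Λ M N hΓ hΛ h
    starN := by
      have := h1 V Λ Γ N M hΛ hΓ (h2 V Γ Λ M N h)
      rw [hgr] at this
      exact this
    mat :=
    { tw := hπ'
      hvy := hHvy
      unit := fun a ha hh => hU a ((heavy_iff ha).mpr hh)
      lab := by
        intro a b ha hb hab
        have htw : ¬ GTw Γ.graph a b := fun ht => ha ⟨b, hab, ht⟩
        have hadj : Γ.graph.Adj (π a) (π b) := adj_tw hab htw (hπ' a) (hπ' b)
        have hadjL : Λ.graph.Adj (π a) (π b) := (htd.adj _ _).mp hadj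
        have hpos1 := hΓ.half_pos hab
        have hpos2 := hΛ.half_pos hadjL
        by_cases hheavy : Heavy Γ a ∧ Heavy Γ b
        · obtain ⟨hha, hhb⟩ := hheavy
          have ua := hU a hha
          have ub := hU b hhb
          have z1 : M (π b) a * M (π a) b = 0 := by
            by_contra hz
            have e1 : GDom Γ.graph a (π b) := htd.domM a _ (left_ne_zero_of_mul hz)
            have e2 : GDom Γ.graph b (π a) := htd.domM b _ (right_ne_zero_of_mul hz)
            exact htw ⟨gdom_trans e1 (hπ' b).1, gdom_trans e2 (hπ' a).1⟩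
          have z2 : N b (π a) * N a (π b) = 0 := by
            by_contra hz
            have e1 : GDom Γ.graph (π a) b := htd.domN b _ (left_ne_zero_of_mul hz)
            have e2 : GDom Γ.graph (π b) a := htd.domN a _ (right_ne_zero_of_mul hz)
            exact htw ⟨gdom_trans (hπ' a).2 e1, gdom_trans (hπ' b).2 e2⟩
          have d1 := htd.pre.heisM a b hab (π a) (π b) hadjL
          rw [z1, sub_zero] at d1
          have d2 := htd.pre.heisN (π a) (π b) hadjL a b hab
          rw [z2, sub_zero] at d2
          have e1 : (M (π a) a * M (π b) b) * (N a (π a) * N b (π b)) = 1 := by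
            calc (M (π a) a * M (π b) b) * (N a (π a) * N b (π b)) =
                (M (π a) a * N a (π a)) * (M (π b) b * N b (π b)) := by ring
              _ = 1 := by rw [ua, ub]; norm_num
          have e2 : (N a (π a) * N b (π b)) * (M (π a) a * M (π b) b) = 1 := by
            rw [mul_comm]; exact e1
          exact Nat.dvd_antisymm (Int.natCast_dvd_natCast.mp (dvd_unit d1 e1))
            (Int.natCast_dvd_natCast.mp (dvd_unit d2 e2))
        · have l1 : ¬ 2 ≤ half Γ a b := fun hl => hheavy
            ⟨(heavy_iff ha).mpr ⟨b, hab, hl⟩,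
              (heavy_iff hb).mpr ⟨a, hab.symm, by rw [half_comm]; exact hl⟩⟩
          have l2 : ¬ 2 ≤ half Λ (π a) (π b) := fun hl => hheavy
            ⟨(heavy_iff ha).mpr ((hHvy a ha).mpr ⟨π b, hadj, hl⟩),
              (heavy_iff hb).mpr ((hHvy b hb).mpr
                ⟨π a, hadj.symm, by rw [half_comm]; exact hl⟩)⟩
          omega } }

end WGEven
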