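import Pool.Agent.Lib.MP_107652_al.Even.Spec

/-!
# MP_107652_al, CycLow: cycles of small weight
-/

set_option autoImplicit false

open Finset

namespace WGEven

open WGirth WGTwin

namespace CycLowAux

theorem hv_eq {V : Type} (Γ : LGraph V) (s t : V) :
    (if decide (3 ≤ Γ.label s(s, t)) = true then 1 else 0) = hv Γ s t := by
  unfold hv
  simp only [decide_eq_true_eq]

end CycLowAux

open CycLowAux in
/-- **CycLow.** -/
theorem cycLow : CycLow := by
  intro V Γ v p hp
  have h3 := hp.three_le_length
  have hlen : p.length ≤ weight Γ p := Nat.le_add_right _ _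
  by_cases h6 : 6 ≤ p.length
  · exact Or.inl (h6.trans hlen)
  have hnd := hp.support_nodup
  match p, hp with
  | .nil, hp => simp at h3
  | .cons h1 .nil, hp => simp at h3
  | .cons h1 (.cons h2 .nil), hp => simp at h3
  | .cons (v := b) h1 (.cons (v := c) h2 (.cons h4 .nil)), hp =>
    refine Or.inr (Or.inl ⟨v, b, c, h1, h2, h4, ?_⟩)
    unfold weight
    simp only [SimpleGraph.Walk.length_cons, SimpleGraph.Walk.length_nil,
      SimpleGraph.Walk.edges_cons, SimpleGraph.Walk.edges_nil, List.countP_cons, List.countP_nil,
      hv_eq]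
    omega
  | .cons (v := b) h1 (.cons (v := c) h2 (.cons (v := d) h4 (.cons h5 .nil))), hp =>
    simp at hnd
    have hac : v ≠ c := by
      intro h
      subst h
      simp at hnd
    have hbd : b ≠ d := by
      intro h
      subst h
      simp at hnd
    refine Or.inr (Or.inr (Or.inl ⟨v, b, c, d, hac, hbd, h1, h2, h4, h5, ?_⟩))
    unfold weight
    simp only [SimpleGraph.Walk.length_cons, SimpleGraph.Walk.length_nil,
      SimpleGraph.Walk.edges_cons, SimpleGraph.Walk.edges_nil, List.countP_cons, List.countP_nil,
      hv_eq]
    omega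
  | .cons (v := b) h1 (.cons (v := c) h2 (.cons (v := d) h4 (.cons (v := e) h5 (.cons h7 .nil)))), hp =>
    simp at hnd
    have e1 : v ≠ c := by
      intro h
      subst h
      simp at hnd
    have e2 : b ≠ d := by
      intro h
      subst h
      simp at hnd
    have e3 : c ≠ e := by
      intro h
      subst h
      simp at hnd
    have e4 : d ≠ v := by
      intro h
      subst h
      simp at hnd
    have e5 : e ≠ b := by
      intro h
      subst h
      simp at hnd
    refine Or.inr (Or.inr (Or.inr ⟨v, b, c, d, e, e1, e2, e3, e4, e5, h1, h2, h4, h5, h7, ?_⟩))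
    unfold weight
    simp only [SimpleGraph.Walk.length_cons, SimpleGraph.Walk.length_nil,
      SimpleGraph.Walk.edges_cons, SimpleGraph.Walk.edges_nil, List.countP_cons, List.countP_nil,
      hv_eq]
    omega
  | .cons h1 (.cons h2 (.cons h4 (.cons h5 (.cons h7 (.cons h8 q))))), hp =>
    simp only [SimpleGraph.Walk.length_cons] at h6
    omega

end WGEven
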