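import Pool.Agent.Lib.MP_107652_al.Even.Spec
import Pool.Agent.Lib.MP_107652_al.Girth

/-!
# Upper bounds for the weighted girth: triangles, quadrilaterals, pentagons
-/

set_option autoImplicit false

open WGirth

namespace WGEven

theorem cycUp : CycUp := by
  intro V Γ
  refine ⟨?_, ?_, ?_⟩
  · intro a b c h1 h2 h3
    have hab := h1.ne
    have hbc := h2.ne
    have hca := h3.ne
    let p : Γ.graph.Walk a a := .cons h1 (.cons h2 (.cons h3 .nil))
    have hp : p.IsCycle := by
      rw [SimpleGraph.Walk.cons_isCycle_iff]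
      refine ⟨?_, ?_⟩
      · simp [hab.symm, hbc, hca]
      · simp [hab, hbc, hca.symm, hab.symm]
    refine Girth.wgirth_le p hp (le_of_eq ?_)
    unfold weight hv
    simp only [p, SimpleGraph.Walk.length_cons, SimpleGraph.Walk.length_nil,
      SimpleGraph.Walk.edges_cons, SimpleGraph.Walk.edges_nil, List.countP_cons, List.countP_nil,
      decide_eq_true_eq]
    omega
  · intro a b c d hac hbd h1 h2 h3 h4
    have hab := h1.ne
    have hbc := h2.ne
    have hcd := h3.ne
    have hda := h4.ne
    let p : Γ.graph.Walk a a := .cons h1 (.cons h2 (.cons h3 (.cons h4 .nil)))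
    have hp : p.IsCycle := by
      rw [SimpleGraph.Walk.cons_isCycle_iff]
      refine ⟨?_, ?_⟩
      · simp [hab.symm, hbc, hcd, hda, hac.symm, hbd]
      · simp [hab, hbc, hda.symm, hab.symm, hac, hbd]
    refine Girth.wgirth_le p hp (le_of_eq ?_)
    unfold weight hv
    simp only [p, SimpleGraph.Walk.length_cons, SimpleGraph.Walk.length_nil,
      SimpleGraph.Walk.edges_cons, SimpleGraph.Walk.edges_nil, List.countP_cons, List.countP_nil,
      decide_eq_true_eq]
    omega
  · intro a b c d e hac hbd hce hda hdb h1 h2 h3 h4 h5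
    have hab := h1.ne
    have hbc := h2.ne
    have hcd := h3.ne
    have hde := h4.ne
    have hea := h5.ne
    let p : Γ.graph.Walk a a := .cons h1 (.cons h2 (.cons h3 (.cons h4 (.cons h5 .nil))))
    have hp : p.IsCycle := by
      rw [SimpleGraph.Walk.cons_isCycle_iff]
      refine ⟨?_, ?_⟩
      · simp [hab.symm, hbc, hcd, hda, hac.symm, hbd, hde, hea, hce, hdb.symm]
      · simp [hab, hbc, hda.symm, hab.symm, hac, hbd, hea.symm, hdb.symm]
    refine Girth.wgirth_le p hp (le_of_eq ?_)
    unfold weight hv
    simp only [p, SimpleGraph.Walk.length_cons, SimpleGraph.Walk.length_nil,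
      SimpleGraph.Walk.edges_cons, SimpleGraph.Walk.edges_nil, List.countP_cons, List.countP_nil,
      decide_eq_true_eq]
    omega

end WGEven
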