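import Pool.Agent.Lib.MP_107652_al.Even.Spec

/-!
# MP_107652_al: two light columns of a clique class are not supported on a pairwise heavy set
-/

set_option autoImplicit false

open Finset

namespace WGEven

namespace EFourAux

/-- two rows proportional to a nonzero row have minor zero -/
theorem prop0 {p q r s t u : ℤ} (hne : p ≠ 0 ∨ q ≠ 0) (h1 : p * s = r * q) (h2 : p * u = t * q) :
    r * u - t * s = 0 := by
  rcases hne with h | h
  · have h3 : p * (r * u - t * s) = 0 := by linear_combination r * h2 - t * h1
    exact (mul_eq_zero.mp h3).resolve_left h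
  · have h3 : q * (r * u - t * s) = 0 := by linear_combination s * h2 - u * h1
    exact (mul_eq_zero.mp h3).resolve_left h

/-- of three different elements one is different from two given ones -/
theorem third {V : Type} {P : V → Prop} {i j l : V} (hij : i ≠ j) (hil : i ≠ l) (hjl : j ≠ l)
    (hi : P i) (hj : P j) (hl : P l) (w v : V) : ∃ u, P u ∧ u ≠ w ∧ u ≠ v := by
  by_cases h1 : i = w ∨ i = v
  · by_cases h2 : j = w ∨ j = v
    · refine ⟨l, hl, ?_, ?_⟩
      · rintro rfl
        rcases h1 with h1 | h1
        · exact hil h1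
        · rcases h2 with h2 | h2
          · exact hjl h2
          · exact hij (h1.trans h2.symm)
      · rintro rfl
        rcases h1 with h1 | h1
        · rcases h2 with h2 | h2
          · exact hij (h1.trans h2.symm)
          · exact hjl h2
        · exact hil h1
    · push Not at h2
      exact ⟨j, hj, h2.1, h2.2⟩
  · push Not at h1
    exact ⟨i, hi, h1.1, h1.2⟩

end EFourAux

theorem eFour (h1 : StarBG) (h2 : Minor) : EFour := by
  intro V _ _ G k k' M N π h x hx a a2 ha ha2 hadj hk J hJ hH
  have hne : a ≠ a2 := G.ne_of_adj hadj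
  obtain ⟨i, j, hi, hj, hD⟩ := h2 V G k k' M N π h x a a2 ha ha2 hne 0 (by norm_num)
  rw [zero_dvd_iff] at hD
  have hrow : ∀ w, GTw G w x → ¬ J w → M w a = 0 ∧ M w a2 = 0 := by
    intro w hw hn
    constructor
    · by_contra h0
      exact hn (hJ w hw (Or.inl h0))
    · by_contra h0
      exact hn (hJ w hw (Or.inr h0))
  have hJi : J i := by
    by_contra hn
    obtain ⟨e1, e2⟩ := hrow i hi hn
    exact hD (by rw [e1, e2]; ring)
  have hJj : J j := by
    by_contra hn
    obtain ⟨e1, e2⟩ := hrow j hj hn
    exact hD (by rw [e1, e2]; ring)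
  have hij : i ≠ j := by
    rintro rfl
    exact hD (by ring)
  have adj : ∀ {u v}, GTw G u x → GTw G v x → u ≠ v → G.Adj u v := fun hu hv huv =>
    (clq_adj2 hx hu hv).resolve_left huv
  have hkij := hH i j hi hj (adj hi hj hij) hJi hJj
  by_cases hl : ∃ l, GTw G l x ∧ J l ∧ l ≠ i ∧ l ≠ j
  · obtain ⟨l, hlx, hJl, hli, hlj⟩ := hl
    have heven : ∀ w, GTw G w x → Even (M w a) ∧ Even (M w a2) := by
      intro w hw
      by_cases hJw : J w
      · by_contra hcon
        have hprop : ∀ v, GTw G v x → J v → M w a * M v a2 = M v a * M w a2 := by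
          intro v hv hJv
          by_cases hvw : v = w
          · rw [hvw]
          · obtain ⟨u, ⟨hu, hJu⟩, huw, huv⟩ := EFourAux.third
              (P := fun u => GTw G u x ∧ J u) hij (Ne.symm hli) (Ne.symm hlj)
              ⟨hi, hJi⟩ ⟨hj, hJj⟩ ⟨hlx, hJl⟩ w v
            have hwv := adj hw hv (Ne.symm hvw)
            have hwu := adj hw hu (Ne.symm huw)
            rcases h1 V G k k' M N π h x hx w v u hwv hwu (adj hv hu (Ne.symm huv))
              (hH w v hw hv hwv hJw hJv) (hH w u hw hu hwu hJw hJu) (Or.inl hw) a a2 ha.2 ha2.2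
              hadj hk with h3 | h3
            · exact absurd h3 hcon
            · exact h3.1
        have hnz : M w a ≠ 0 ∨ M w a2 ≠ 0 := by
          by_contra h0
          push Not at h0
          exact hcon (by rw [h0.1, h0.2]; simp)
        exact hD (EFourAux.prop0 hnz (hprop i hi hJi) (hprop j hj hJj))
      · obtain ⟨e1, e2⟩ := hrow w hw hJw
        rw [e1, e2]
        simp
    obtain ⟨u, v, hu, hv, huv⟩ := h2 V G k k' M N π h x a a2 ha ha2 hne 2 (by norm_num)
    apply huv
    have e1 := even_iff_two_dvd.mp (heven u hu).1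
    have e2 := even_iff_two_dvd.mp (heven v hv).1
    exact dvd_sub (e1.mul_right _) (e2.mul_right _)
  · push Not at hl
    obtain ⟨u, v, hu, hv, huv⟩ := h2 V G k k' M N π h x a a2 ha ha2 hne (k' i j : ℤ) (by
      intro hd
      have := Int.le_of_dvd one_pos hd
      omega)
    apply huv
    have hz : ∀ w, GTw G w x → w ≠ i → w ≠ j → M w a = 0 ∧ M w a2 = 0 := by
      intro w hw hwi hwj
      exact hrow w hw (fun hJw => hwj (hl w hw hJw hwi))
    have hd := h.heisM a a2 hadj i j (adj hi hj hij)
    rw [hk] at hd
    by_cases hui : u = i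
    · by_cases hvi : v = i
      · rw [hui, hvi]
        simp
      · by_cases hvj : v = j
        · rw [hui, hvj]
          simpa using hd
        · obtain ⟨e1, e2⟩ := hz v hv hvi hvj
          rw [e1, e2]
          simp
    · by_cases huj : u = j
      · by_cases hvi : v = i
        · rw [huj, hvi]
          have e : M j a * M i a2 - M i a * M j a2 =
              -(((1 : ℕ) : ℤ) * (M i a * M j a2 - M j a * M i a2)) := by
            push_cast
            ring
          rw [e]
          exact (dvd_neg).mpr hd
        · by_cases hvj : v = j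
          · rw [huj, hvj]
            simp
          · obtain ⟨e1, e2⟩ := hz v hv hvi hvj
            rw [e1, e2]
            simp
      · obtain ⟨e1, e2⟩ := hz u hu hui huj
        rw [e1, e2]
        simp

end WGEven
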