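import Pool.Agent.Lib.MP_107652_al.Even.Spec

/-!
# MP_107652_al, Even/EOne: light pairs with incomparable classes have light supports
-/

set_option autoImplicit false

open Finset

namespace WGEven

namespace EOneAux

/-- a coefficient of a clique vertex at a heavy edge which leaves the star -/
theorem one_abs {V : Type} [Fintype V] [DecidableEq V] {G : SimpleGraph V}
    {k k' : V → V → ℕ} {M N : V → V → ℤ} {π : Equiv.Perm V} (h : Core G k k' M N π)
    {x y j w : V} (hn : ¬ (Clq G x ∧ GDom G x y)) (hj : Sup G M π x j) (hw : Sup G M π y w)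
    (hjw : G.Adj j w) (h2 : 2 ≤ k' j w) : |mm G M j x| = 1 := by
  have tj := sup_tw h hj
  have tw := sup_tw h hw
  by_cases hx : Clq G x
  · rw [mm_clq hx]
    have hne : M j x ≠ 0 := ((sup_clq hx).mp hj).2
    have h0 : M w x = 0 := by
      by_contra h0
      exact hn ⟨hx, gdom_trans (h.domM x w h0) tw.1⟩
    have h1 := (h.starM.s1 x hx j w hjw h2 (Or.inl tj)).1 x (gdom_refl x)
    rw [h0, sub_zero] at h1
    have h3 : 0 < |M j x| := abs_pos.mpr hne
    omega
  · rw [mm_rig hx]
    exact abs_one

end EOneAux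

open EOneAux in
theorem eOne : EOne := by
  intro V _ _ G k k' M N π h x y hxy hn hk nx ny j w hj hw
  have tj := sup_tw h hj
  have tw := sup_tw h hw
  have hjw : G.Adj j w := adj_tw hxy hn tj tw
  have hpos := h.posk' j w hjw
  by_contra hne
  have h2 : 2 ≤ k' j w := by omega
  have a1 : |mm G M j x| = 1 := one_abs h nx hj hw hjw h2
  have a2 : |mm G M w y| = 1 := one_abs h ny hw hj hjw.symm (by rw [h.symk' w j]; exact h2)
  have h3 := hdiv h hxy hn hj hw
  rw [hk] at h3
  have h4 := (dvd_abs _ _).mpr h3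
  rw [abs_mul, abs_mul, a1, a2] at h4
  have h5 : ((k' j w : ℕ) : ℤ) ∣ ((1 : ℕ) : ℤ) := by simpa using h4
  have h6 := Nat.le_of_dvd one_pos (Int.natCast_dvd_natCast.mp h5)
  omega

end WGEven
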