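import Pool.Agent.Lib.MP_107652_al.Even.Spec

/-!
# MP_107652_al, Even/EThree
-/

set_option autoImplicit false

open Finset

namespace WGEven

open WGirth WGTwin

theorem eThree (h3 : StarBG) (h2 : ETwo) : EThree := by
  intro V _ _ G k k' M N π h x y hx hxy hadj hn hk j w l hj hw hh hjl hwl hh2
  have tj := sup_tw h hj
  have tw := sup_tw h hw
  have hjw : G.Adj j w := adj_tw hadj hn tj tw
  have habs := (h2 V G k k' M N π h x y hx hxy hadj hn hk j w hj hw hh).1
  rcases h3 V G k k' M N π h x hx j w l hjw hjl hwl hh hh2 (Or.inl tj) x y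
    (gdom_refl x) hxy hadj hk with e | ⟨e, -⟩
  · exact e.1
  · exfalso
    have hz : M j y = 0 := by
      by_contra h0
      have e := h.domM y j h0
      exact hn ⟨hxy, gdom_trans e tj.1⟩
    rw [hz, mul_zero] at e
    have h0 : M j x ≠ 0 := ((sup_clq hx).mp hj).2
    have h1 : M w y ≠ 0 := by
      intro h2
      rw [h2] at habs
      simp at habs
    exact (mul_ne_zero h0 h1) e

end WGEven
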