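import Pool.Agent.Lib.MP_107652_al.Even.Spec

/-!
# MP_107652_al, Even/ETwo
-/

set_option autoImplicit false

open Finset

namespace WGEven

open WGirth WGTwin

theorem eTwo (h3 : StarBG) : ETwo := by
  intro V _ _ G k k' M N π h x y hx hxy hadj hn hk j w hj hw hh
  have tj := sup_tw h hj
  have tw := sup_tw h hw
  have hjw : G.Adj j w := adj_tw hadj hn tj tw
  have hz : ∀ m, GTw G m x → M m y = 0 := by
    intro m hm
    by_contra h0
    have e := h.domM y m h0
    exact hn ⟨hxy, gdom_trans e hm.1⟩
  have habs : |M w y| = 1 := by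
    by_cases hy : Clq G y
    · have hs := (h.starM.s1 x hx j w hjw hh (Or.inl tj)).1 y hxy
      rw [hz j tj, zero_sub, abs_neg] at hs
      have h0 : M w y ≠ 0 := ((sup_clq hy).mp hw).2
      have := abs_pos.mpr h0
      omega
    · have hcls : gcls G y = {y} := by
        ext m
        rw [mem_gcls, Finset.mem_singleton]
        constructor
        · exact fun hm => up_rig hx hxy hy hm
        · intro hm
          rw [hm]
          exact gtw_refl y
      have hwy : w = y := up_rig hx hxy hy tw
      have h1 := h.clsNM y y y (mem_gcls.mpr (gtw_refl y)) (mem_gcls.mpr (gtw_refl y))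
      rw [if_pos rfl, hcls, Finset.sum_singleton] at h1
      rw [hwy]
      exact Int.isUnit_iff_abs_eq.mp (IsUnit.of_mul_eq_one _ (by rw [mul_comm]; exact h1))
  have hmm : |mm G M w y| = 1 := by
    by_cases hy : Clq G y
    · rw [mm_clq hy]
      exact habs
    · rw [mm_rig hy]
      norm_num
  refine ⟨habs, hmm, ?_, ?_⟩
  · have hd := hdiv h hadj hn hj hw
    rw [hk, Nat.cast_one, one_mul, mm_clq hx] at hd
    rcases (abs_eq (by norm_num)).mp hmm with h1 | h1
    · rwa [h1, mul_one] at hd
    · rw [h1] at hd
      have e : M j x = -(M j x * -1) := by ring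
      rw [e]
      exact (dvd_neg).mpr hd
  · intro j' tj' hne
    by_contra hcon
    have hj'w : G.Adj j' w := adj_tw hadj hn tj' tw
    have hp := h.posk' j' w hj'w
    have hh' : 2 ≤ k' j' w := by omega
    have hjj' : G.Adj j j' := by
      rcases clq_adj2 hx tj tj' with e | e
      · exact absurd e.symm hne
      · exact e
    rcases h3 V G k k' M N π h x hx w j j' hjw.symm hj'w.symm hjj'
      (by rw [h.symk']; exact hh) (by rw [h.symk']; exact hh') (Or.inr ⟨tj, tj'⟩) x y
      (gdom_refl x) hxy hadj hk with e | ⟨e, -⟩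
    · have h1 := even_iff_two_dvd.mp e.2
      rcases (abs_eq (by norm_num)).mp habs with h2 | h2 <;> rw [h2] at h1 <;> omega
    · rw [hz j tj, mul_zero] at e
      have h0 : M j x ≠ 0 := ((sup_clq hx).mp hj).2
      have h1 : M w y ≠ 0 := by
        intro h2
        rw [h2] at habs
        simp at habs
      exact (mul_ne_zero h0 h1) e.symm

end WGEven
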