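import Pool.Agent.Lib.MP_107652_al.Even.Spec
import Pool.Agent.Lib.MP_107652_al.ExpHom
import Pool.Agent.Lib.MP_107652_al.Twin.AdjIso
import Pool.Agent.Lib.MP_107652_al.Twin.ClassInv
import Pool.Agent.Lib.MP_107652_al.Twin.DegLe
import Pool.Agent.Lib.MP_107652_al.Twin.DomM
import Pool.Agent.Lib.MP_107652_al.Twin.DomN
import Pool.Agent.Lib.MP_107652_al.Twin.DomTr
import Pool.Agent.Lib.MP_107652_al.Twin.GoodEx
import Pool.Agent.Lib.MP_107652_al.Twin.HeisGen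
import Pool.Agent.Lib.MP_107652_al.Twin.LabelEq
import Pool.Agent.Lib.MP_107652_al.Twin.PermEx
import Pool.Agent.Lib.MP_107652_al.Twin.PiEx
import Pool.Agent.Lib.MP_107652_al.Twin.PreEx
import Pool.Agent.Lib.MP_107652_al.Twin.RelL
import Pool.Agent.Lib.MP_107652_al.Twin.RepP
import Pool.Agent.Lib.MP_107652_al.Twin.ResNil
import Pool.Agent.Lib.MP_107652_al.Twin.Rigid
import Pool.Agent.Lib.MP_107652_al.Twin.SGen
import Pool.Agent.Lib.MP_107652_al.Twin.StarEx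
import Pool.Agent.Lib.MP_107652_al.Twin.Transport
import Pool.Agent.Lib.MP_107652_al.Twin.UnitCol
import Pool.Agent.Lib.MP_107652_al.Twin.UnitCore
import Pool.Agent.Lib.MP_107652_al.Twin.UnitSym
import Pool.Agent.Lib.MP_107652_al.Twin.WgIso

/-!
# MP_107652_al: the weighted girth of even Artin groups is an invariant
-/

set_option autoImplicit false

namespace WGEven

open WGirth WGTwin

namespace FinalAux

/-- The rigid case. -/
theorem rigid_case (V W : Type) [Fintype V] [Fintype W] (Γ : LGraph V) (Λ : LGraph W)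
    (hΓ : IsEven Γ) (hΛ : IsEven Λ) (hT : TwinsIsolated Γ)
    (e : Nonempty (Artin Γ ≃* Artin Λ)) : wgirth Γ = wgirth Λ := by
  classical
  have hPre : PreEx := preEx heisGen (starEx goodEx relL cTL resNil sGen repP)
  have hTrans : Transport := transport permEx (domM degLe permEx) (domN domTr) (adjIso domTr)
  have hCI : ClassInv := classInv domTr
  have hPi : PiEx := piEx (unitCol (unitCore hCI domTr) hCI domTr) (unitSym hCI) tDsymm domTr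
  obtain ⟨π, h1, h2⟩ := rigid hPre hTrans hPi (labelEq hCI domTr) V W Γ Λ hΓ hΛ hT e
  exact wgIso V W Γ Λ π h1 h2

theorem isolated_of_no_triangle {V : Type} (Γ : LGraph V)
    (h : ¬ ∃ a b c, Γ.graph.Adj a b ∧ Γ.graph.Adj b c ∧ Γ.graph.Adj a c) : TwinsIsolated Γ := by
  intro a b hab htw c hac
  rcases htw.1 c hac with h1 | h1
  · exact h1
  · exact absurd ⟨a, b, c, hab, h1.symm, hac⟩ h

/-- numbers between `3` and `6` with the same lower bounds are equal -/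
theorem eq_of_bounds {x y : ℕ∞} (hx3 : 3 ≤ x) (hx6 : x ≤ 6) (hy3 : 3 ≤ y) (hy6 : y ≤ 6)
    (h4 : 4 ≤ x ↔ 4 ≤ y) (h5 : 5 ≤ x ↔ 5 ≤ y) (h6 : 6 ≤ x ↔ 6 ≤ y) : x = y := by
  have hxt : x ≠ ⊤ := ne_top_of_le_ne_top (by decide) hx6
  have hyt : y ≠ ⊤ := ne_top_of_le_ne_top (by decide) hy6
  obtain ⟨m, rfl⟩ := ENat.ne_top_iff_exists.mp hxt
  obtain ⟨n, rfl⟩ := ENat.ne_top_iff_exists.mp hyt
  have c3 : ∀ k : ℕ, (3 : ℕ∞) ≤ (k : ℕ∞) ↔ 3 ≤ k := fun k => by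
    rw [show (3 : ℕ∞) = ((3 : ℕ) : ℕ∞) from rfl, Nat.cast_le]
  have c4 : ∀ k : ℕ, (4 : ℕ∞) ≤ (k : ℕ∞) ↔ 4 ≤ k := fun k => by
    rw [show (4 : ℕ∞) = ((4 : ℕ) : ℕ∞) from rfl, Nat.cast_le]
  have c5 : ∀ k : ℕ, (5 : ℕ∞) ≤ (k : ℕ∞) ↔ 5 ≤ k := fun k => by
    rw [show (5 : ℕ∞) = ((5 : ℕ) : ℕ∞) from rfl, Nat.cast_le]
  have c6 : ∀ k : ℕ, (6 : ℕ∞) ≤ (k : ℕ∞) ↔ 6 ≤ k := fun k => by
    rw [show (6 : ℕ∞) = ((6 : ℕ) : ℕ∞) from rfl, Nat.cast_le]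
  have d6 : ∀ k : ℕ, (k : ℕ∞) ≤ 6 ↔ k ≤ 6 := fun k => by
    rw [show (6 : ℕ∞) = ((6 : ℕ) : ℕ∞) from rfl, Nat.cast_le]
  rw [c3] at hx3 hy3
  rw [d6] at hx6 hy6
  rw [c4, c4] at h4
  rw [c5, c5] at h5
  rw [c6, c6] at h6
  have : m = n := by omega
  rw [this]

/-- all conditions transfer from `k'` to `k` -/
theorem transfer (h3 : Four) (h4 : FiveA) (h5 : FiveB) (h6 : SixA) (h7 : SixB) (h8 : SixC)
    {V : Type} [Fintype V] [DecidableEq V] {G : SimpleGraph V} {k k' : V → V → ℕ}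
    {M N : V → V → ℤ} {π : Equiv.Perm V} (hc : Core G k k' M N π) :
    (H0 G k' → H0 G k) ∧ (H1 G k' ∧ C4 G k' → H1 G k ∧ C4 G k) ∧
    (H2 G k' ∧ P4 G k' ∧ C5 G k' → H2 G k ∧ P4 G k ∧ C5 G k) := by
  refine ⟨h3 V G k k' M N π hc, ?_, ?_⟩
  · rintro ⟨a, b⟩
    have a' := h4 V G k k' M N π hc a
    exact ⟨a', h5 V G k k' M N π hc a' b⟩
  · rintro ⟨a, b, c⟩
    have a' := h6 V G k k' M N π hc a
    exact ⟨a', h7 V G k k' M N π hc a' b, h8 V G k k' M N π hc a' c⟩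

theorem pull_even' {V W : Type} {Λ : LGraph W} (h : IsEven Λ) (σ : V ≃ W) :
    IsEven (pull Λ σ) := by
  intro s t hst
  have h1 : Λ.graph.Adj (σ s) (σ t) := hst
  exact h (σ s) (σ t) h1

theorem pull_wgirth {V W : Type} (Λ : LGraph W) (σ : V ≃ W) :
    wgirth (pull Λ σ) = wgirth Λ :=
  wgIso V W (pull Λ σ) Λ σ (fun _ _ => Iff.rfl) (fun _ _ _ => rfl)

end FinalAux

open FinalAux in
/-- **Final.** -/
theorem final (h1 : Trans2) (h2 : CoreEx) (h3 : Four) (h4 : FiveA) (h5 : FiveB) (h6 : SixA)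
    (h7 : SixB) (h8 : SixC) (h9 : GirthC) : Final := by
  classical
  intro V W _ _ Γ Λ hΓ hΛ e
  by_cases htri : ∃ a b c, Γ.graph.Adj a b ∧ Γ.graph.Adj b c ∧ Γ.graph.Adj a c
  · obtain ⟨σ, M, N, hT⟩ := h1 V W Γ Λ hΓ hΛ e
    have hΛ' : IsEven (pull Λ σ) := pull_even' hΛ σ
    obtain ⟨π, hc⟩ := h2 V Γ (pull Λ σ) M N hΓ hΛ' hT
    have hg : (pull Λ σ).graph = Γ.graph := by
      ext a b
      exact (hT.td.adj a b).symm
    rw [← pull_wgirth Λ σ]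
    obtain ⟨x3, x6, x4, x5, x66⟩ := h9 V Γ hΓ
    obtain ⟨y3, y6, y4, y5, y66⟩ := h9 V (pull Λ σ) hΛ'
    rw [hg] at y6 y4 y5 y66
    obtain ⟨t4, t5, t6⟩ := transfer h3 h4 h5 h6 h7 h8 hc
    obtain ⟨s4, s5, s6⟩ := transfer h3 h4 h5 h6 h7 h8 hc.swap
    refine eq_of_bounds x3 (x6 htri) y3 (y6 htri) ?_ ?_ ?_
    · rw [x4, y4]
      exact ⟨s4, t4⟩
    · rw [x5, y5]
      exact ⟨s5, t5⟩
    · rw [x66, y66]
      exact ⟨s6, t6⟩
  · exact rigid_case V W Γ Λ hΓ hΛ (isolated_of_no_triangle Γ htri) e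

end WGEven
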