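import Pool.Agent.Lib.MP_107652_al.Even.Spec

/-!
# MP_107652_al, Even/FiveA: no triangle with two light edges
-/

set_option autoImplicit false

open Finset

namespace WGEven

theorem fiveOne (h : FiveM) : FiveOne := by
  intro V _ _ G k k' M N π hc h1 a b c hab hbc hac nab nbc nac kab kbc
  obtain ⟨w, hw, hodd⟩ := sup_odd hc b
  obtain ⟨j, tj, hjw, kj⟩ := h V G k k' M N π hc h1 a b hab nab kab w hw hodd
  obtain ⟨z, tz, hzw, kz⟩ := h V G k k' M N π hc h1 c b hbc.symm (fun ht => nbc (gtw_symm ht))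
    (by rw [hc.symk c b]; exact kbc) w hw hodd
  exact h1 j w z hjw hzw.symm (adj_tw hac nac tj tz) kj (by rw [hc.symk' w z]; exact kz)

theorem fiveA (h1 : FiveOne) (h2 : FiveTwo) (h3 : FiveThree) (h4 : TK) : FiveA := by
  intro V _ _ G k k' M N π hc hH a b c hab hbc hac kab kbc
  by_cases tab : GTw G a b
  · by_cases tbc : GTw G b c
    · have hclq : Clq G a := ⟨b, hab, tab⟩
      obtain ⟨i, j, l, -, -, -, hji, hil, hjl, e1, e2⟩ := (h4 V G k k' M N π hc a hclq a b c
        (gtw_refl a) (gtw_symm tab) (gtw_symm (gtw_trans tab tbc)) hab hbc hac).2 kab kbc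
      exact hH j i l hji hil hjl e1 e2
    · exact h3 V G k k' M N π hc hH a b c hab hbc hac tab tbc kab kbc
  · by_cases tbc : GTw G b c
    · exact h3 V G k k' M N π hc hH c b a hbc.symm hab.symm hac.symm (gtw_symm tbc)
        (fun ht => tab (gtw_symm ht)) (by rw [hc.symk c b]; exact kbc)
        (by rw [hc.symk b a]; exact kab)
    · by_cases tac : GTw G a c
      · exact h2 V G k k' M N π hc hH a b c hab hbc hac tab tac kab kbc
      · exact h1 V G k k' M N π hc hH a b c hab hbc hac tab tbc tac kab kbc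

end WGEven
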