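import Pool.Agent.Lib.MP_107652_al.Even.Spec

/-!
# MP_107652_al: light edges and supports, no triangle with two light edges
-/

set_option autoImplicit false

open Finset

namespace WGEven

theorem fiveL (h1 : EOne) (h2 : ETwo) (h3 : EThree) : FiveL := by
  intro V _ _ G k k' M N π h hH1 x y hxy hn hk w hw hodd
  by_cases hb : Bad G x y
  · exact Or.inr hb
  left
  intro j hj
  by_cases hb2 : Bad G y x
  · by_contra hne
    have hny : ¬ GTw G y x := fun ht => hn (gtw_symm ht)
    have twy := sup_tw h hw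
    have tjx := sup_tw h hj
    have hwj : G.Adj w j := adj_tw hxy.symm hny twy tjx
    have hjw2 : 2 ≤ k' w j := by
      have h4 := h.posk' w j hwj
      rw [h.symk' j w] at hne
      omega
    have hkyx : k y x = 1 := by
      rw [h.symk y x]
      exact hk
    obtain ⟨-, -, -, h5⟩ := h2 V G k k' M N π h y x hb2.1 hb2.2 hxy.symm hny hkyx w j hw hj hjw2
    obtain ⟨w2, hw2, tw2⟩ := clq_tw hb2.1 twy
    have tw2y : GTw G w2 y := gtw_trans (gtw_symm tw2) twy
    have hw2j : G.Adj w2 j := adj_tw hxy.symm hny tw2y tjx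
    have hl2 : k' w2 j = 1 := h5 w2 tw2y (G.ne_of_adj hw2).symm
    have hl1 : k' w w2 = 1 := by
      by_contra hne2
      have h6 := h.posk' w w2 hw2
      have h7 : 2 ≤ k' w w2 := by omega
      have h8 := h3 V G k k' M N π h y x hb2.1 hb2.2 hxy.symm hny hkyx w j w2 hw hj hjw2 hw2
        hw2j.symm h7
      rw [mm_clq hb2.1] at hodd
      exact hodd h8
    exact hH1 w w2 j hw2 hw2j hwj hl1 hl2
  · exact h1 V G k k' M N π h x y hxy hn hk hb hb2 j w hj hw

theorem fiveM (h1 : FiveL) (h2 : ETwo) : FiveM := by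
  intro V _ _ G k k' M N π h hH1 x y hxy hn hk w hw hodd
  obtain ⟨j, hj, -⟩ := sup_odd h x
  have twy := sup_tw h hw
  have tjx := sup_tw h hj
  have hjw : G.Adj j w := adj_tw hxy hn tjx twy
  by_cases hl : k' j w = 1
  · exact ⟨j, tjx, hjw, hl⟩
  rcases h1 V G k k' M N π h hH1 x y hxy hn hk w hw hodd with h3 | h3
  · exact ⟨j, tjx, hjw, h3 j hj⟩
  · have h4 : 2 ≤ k' j w := by
      have h5 := h.posk' j w hjw
      omega
    obtain ⟨-, -, -, h5⟩ := h2 V G k k' M N π h x y h3.1 h3.2 hxy hn hk j w hj hw h4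
    obtain ⟨j2, hj2, tj2⟩ := clq_tw h3.1 tjx
    have tj2x : GTw G j2 x := gtw_trans (gtw_symm tj2) tjx
    exact ⟨j2, tj2x, adj_tw hxy hn tj2x twy, h5 j2 tj2x (G.ne_of_adj hj2).symm⟩

end WGEven
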