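import Pool.Agent.Lib.MP_107652_al.Even.Spec

/-!
# MP_107652_al, even Artin groups: FiveThree
-/

set_option autoImplicit false

namespace WGEven

open WGirth WGTwin

theorem fiveThree (h1 : FiveM) (h2 : StarBG) (h3 : Minor) : FiveThree := by
  intro V _ _ G k k' M N π h hH a b c hab hbc hac htab hnbc kab kbc
  have hclq : Clq G b := ⟨a, hab.symm, gtw_symm htab⟩
  obtain ⟨w, hw, hodd⟩ := sup_odd h b
  have hw' := (sup_clq hclq).1 hw
  obtain ⟨z, hz1, hz2, hz3⟩ := h1 V G k k' M N π h hH c b hbc.symm (fun ht => hnbc (gtw_symm ht))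
    (by rw [h.symk]; exact kbc) w hw hodd
  rw [mm_clq hclq] at hodd
  -- all other elements of the class are heavy neighbours of `w`
  have hheavy : ∀ w', GTw G w' b → w' ≠ w → G.Adj w w' ∧ 2 ≤ k' w w' := by
    intro w' ht hne
    have hadj : G.Adj w w' := by
      rcases clq_adj2 hclq hw'.1 ht with e | e
      · exact absurd e.symm hne
      · exact e
    refine ⟨hadj, ?_⟩
    have hzw' : G.Adj z w' :=
      adj_tw hbc.symm (fun ht => hnbc (gtw_symm ht)) hz1 ht
    have hne1 : k' w w' ≠ 1 := fun e => hH z w w' hz2 hadj hzw' hz3 e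
    have := h.posk' w w' hadj
    omega
  have hba : GDom G b a := htab.2
  by_cases hthird : ∃ w1 w2, GTw G w1 b ∧ GTw G w2 b ∧ w1 ≠ w ∧ w2 ≠ w ∧ w1 ≠ w2
  · obtain ⟨w1, w2, t1, t2, n1, n2, n12⟩ := hthird
    have hstar : ∀ w' l, GTw G w' b → GTw G l b → w' ≠ w → l ≠ w → w' ≠ l →
        M w a * M w' b = M w' a * M w b := by
      intro w' l tw' tl nw' nl nwl
      obtain ⟨e1, e2⟩ := hheavy w' tw' nw'
      obtain ⟨f1, f2⟩ := hheavy l tl nl
      have hwl : G.Adj w' l := by
        rcases clq_adj2 hclq tw' tl with e | e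
        · exact absurd e nwl
        · exact e
      rcases h2 V G k k' M N π h b hclq w w' l e1 f1 hwl e2 f2 (Or.inl hw'.1) a b hba
        (gdom_refl b) hab kab with hev | hev
      · exact absurd hev.2 hodd
      · exact hev.1
    have hprop : ∀ w', GTw G w' b → M w a * M w' b = M w' a * M w b := by
      intro w' tw'
      by_cases e : w' = w
      · subst e
        ring
      · by_cases e1 : w' = w1
        · exact hstar w' w2 tw' t2 e n2 (by rw [e1]; exact n12)
        · exact hstar w' w1 tw' t1 e n1 e1
    obtain ⟨i, j, ti, tj, hij⟩ := h3 V G k k' M N π h b a b htab (gtw_refl b) hab.ne 0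
      (by norm_num)
    apply hij
    rw [zero_dvd_iff]
    have e1 := hprop i ti
    have e2 := hprop j tj
    have : M w b * (M i a * M j b - M j a * M i b) = 0 := by
      linear_combination (-M j b) * e1 + (M i b) * e2
    rcases mul_eq_zero.1 this with e | e
    · exact absurd e hw'.2
    · exact e
  · push Not at hthird
    obtain ⟨w', tw', nw'⟩ : ∃ w', GTw G w' b ∧ w' ≠ w := by
      by_cases e : a = w
      · exact ⟨b, gtw_refl b, fun e' => hab.ne (e.trans e'.symm)⟩
      · exact ⟨a, htab, e⟩
    have hall : ∀ u, GTw G u b → u = w ∨ u = w' := by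
      intro u tu
      by_cases e : u = w
      · exact Or.inl e
      · exact Or.inr (hthird u w' tu tw' e nw')
    obtain ⟨e1, e2⟩ := hheavy w' tw' nw'
    obtain ⟨i, j, ti, tj, hij⟩ := h3 V G k k' M N π h b a b htab (gtw_refl b) hab.ne
      (k' w w' : ℤ) (by
        intro hd
        have := Int.le_of_dvd one_pos hd
        omega)
    apply hij
    have hd := h.heisM a b hab w w' e1
    rw [kab, Nat.cast_one, one_mul] at hd
    rcases hall i ti with rfl | rfl
    · rcases hall j tj with rfl | rfl
      · rw [sub_self]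
        exact dvd_zero _
      · exact hd
    · rcases hall j tj with rfl | rfl
      · have : M i a * M j b - M j a * M i b = -(M j a * M i b - M i a * M j b) := by ring
        rw [this]
        exact (dvd_neg).2 hd
      · rw [sub_self]
        exact dvd_zero _

end WGEven
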