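import Pool.Agent.Lib.MP_107652_al.Even.Spec

/-!
# MP_107652_al, even Artin groups: `FiveTwo`
-/

set_option autoImplicit false
set_option linter.unusedSectionVars false

open Finset

namespace WGEven

namespace FiveTwoAux

variable {V : Type} [Fintype V] [DecidableEq V] {G : SimpleGraph V} {k k' : V → V → ℕ}
  {M N : V → V → ℤ} {π : Equiv.Perm V}

/-- a twin `j` of `a` in the support of `u ∈ {a, c}` which is heavy to `w` -/
theorem heavyRow (h1 : FiveL) (h2 : ETwo) (h4 : RowDvd) (h : Core G k k' M N π) (hH : H1 G k')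
    {a b c : V} (hab : G.Adj a b) (hbc : G.Adj b c) (hac : G.Adj a c) (hn : ¬ GTw G a b)
    (ht : GTw G a c) (kab : k a b = 1) (kbc : k b c = 1) {w : V} (hw : Sup G M π b w)
    (hodd : ¬ Even (mm G M w b)) {u j : V} (hu : u = a ∨ u = c) (hj : GTw G j a)
    (hM : M j u ≠ 0) (hk : 2 ≤ k' j w) : False := by
  have ca : Clq G a := ⟨c, hac, ht⟩
  have cc : Clq G c := clq_tw ca (gtw_symm ht)
  have hcb : G.Adj c b := hbc.symm
  have kcb : k c b = 1 := by rw [h.symk]; exact kbc
  have hnc : ¬ GTw G c b := fun h' => hn (gtw_trans ht h')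
  have tw := sup_tw h hw
  -- two different twins of `a` are not both light to `w`
  have two : ∀ i i', GTw G i a → GTw G i' a → i ≠ i' → k' i w = 1 → k' i' w = 1 → False := by
    intro i i' hi hi' hne e e'
    have h5 : G.Adj i i' := (clq_adj2 ca hi hi').resolve_left hne
    have h6 : G.Adj i w := adj_tw hab hn hi tw
    have h7 : G.Adj i' w := adj_tw hab hn hi' tw
    exact hH i w i' h6 h7.symm h5 e (by rw [h.symk']; exact e')
  have cu : Clq G u := by rcases hu with rfl | rfl <;> assumption
  have tu : GTw G u a := by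
    rcases hu with rfl | rfl
    · exact gtw_refl _
    · exact gtw_symm ht
  have hub : G.Adj u b := by rcases hu with rfl | rfl <;> assumption
  have kub : k u b = 1 := by rcases hu with rfl | rfl <;> assumption
  have hnu : ¬ GTw G u b := by rcases hu with rfl | rfl <;> assumption
  have hsj : Sup G M π u j := (sup_clq cu).mpr ⟨gtw_trans hj (gtw_symm tu), hM⟩
  have hbad : Bad G u b := by
    rcases h1 V G k k' M N π h hH u b hub hnu kub w hw hodd with h5 | h5
    · have := h5 j hsj
      omega
    · exact h5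
  obtain ⟨-, hmm, -, hlight⟩ := h2 V G k k' M N π h u b cu hbad.2 hub hnu kub j w hsj hw hk
  have cls : ∀ v, GTw G v a → v = a ∨ v = c := by
    intro v hv
    by_contra hcon
    push Not at hcon
    have hL : ∀ v', GTw G v' a → v' ≠ j → k' v' w = 1 := fun v' hv' hne =>
      hlight v' (gtw_trans hv' (gtw_symm tu)) hne
    have hacne : a ≠ c := hac.ne
    by_cases e1 : a = j
    · exact two v c hv (gtw_symm ht) hcon.2
        (hL v hv (fun e => hcon.1 (e.trans e1.symm)))
        (hL c (gtw_symm ht) (fun e => hacne (e1.trans e.symm)))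
    · by_cases e2 : c = j
      · exact two v a hv (gtw_refl a) hcon.1
          (hL v hv (fun e => hcon.2 (e.trans e2.symm))) (hL a (gtw_refl a) e1)
      · exact two a c (gtw_refl a) (gtw_symm ht) hacne (hL a (gtw_refl a) e1)
          (hL c (gtw_symm ht) e2)
  have hunit : IsUnit (mm G M w b) := Int.isUnit_iff_abs_eq.mpr hmm
  have dv : ∀ v, (v = a ∨ v = c) → (k' j w : ℤ) ∣ M j v := by
    intro v hv
    by_cases h0 : M j v = 0
    · rw [h0]
      exact dvd_zero _
    · have cv : Clq G v := by rcases hv with rfl | rfl <;> assumption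
      have tv : GTw G v a := by
        rcases hv with rfl | rfl
        · exact gtw_refl _
        · exact gtw_symm ht
      have hvb : G.Adj v b := by rcases hv with rfl | rfl <;> assumption
      have kvb : k v b = 1 := by rcases hv with rfl | rfl <;> assumption
      have hnv : ¬ GTw G v b := by rcases hv with rfl | rfl <;> assumption
      have h5 := hdiv h hvb hnv ((sup_clq cv).mpr ⟨gtw_trans hj (gtw_symm tv), h0⟩) hw
      rw [kvb, Nat.cast_one, one_mul, mm_clq cv] at h5
      exact (hunit.dvd_mul_right).mp h5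
  have h6 : (k' j w : ℤ) ∣ 1 := h4 V G k k' M N π h j (k' j w : ℤ)
    (fun v hv => dv v (cls v (gtw_trans hv hj)))
  have h7 : k' j w ∣ 1 := by exact_mod_cast h6
  have h8 := Nat.dvd_one.mp h7
  omega

end FiveTwoAux

open FiveTwoAux in
theorem fiveTwo (h1 : FiveL) (h2 : ETwo) (h3 : Minor) (h4 : RowDvd) : FiveTwo := by
  intro V _ _ G k k' M N π h hH a b c hab hbc hac hn ht kab kbc
  have ca : Clq G a := ⟨c, hac, ht⟩
  obtain ⟨w, hw, hodd⟩ := sup_odd h b
  have tw := sup_tw h hw
  obtain ⟨i, i', hi, hi', hmin⟩ := h3 V G k k' M N π h a a c (gtw_refl a) (gtw_symm ht) hac.ne 0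
    (by norm_num)
  rw [zero_dvd_iff] at hmin
  have hne : i ≠ i' := by
    rintro rfl
    apply hmin
    ring
  have h5 : G.Adj i i' := (clq_adj2 ca hi hi').resolve_left hne
  have h6 : G.Adj i w := adj_tw hab hn hi tw
  have h7 : G.Adj i' w := adj_tw hab hn hi' tw
  have row : ∀ j, GTw G j a → (M j a ≠ 0 ∨ M j c ≠ 0) → 2 ≤ k' j w → False := by
    intro j hj hM hk
    rcases hM with hM | hM
    · exact heavyRow h1 h2 h4 h hH hab hbc hac hn ht kab kbc hw hodd (Or.inl rfl) hj hM hk
    · exact heavyRow h1 h2 h4 h hH hab hbc hac hn ht kab kbc hw hodd (Or.inr rfl) hj hM hk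
  have ri : M i a ≠ 0 ∨ M i c ≠ 0 := by
    by_contra hcon
    push Not at hcon
    apply hmin
    rw [hcon.1, hcon.2]
    ring
  have ri' : M i' a ≠ 0 ∨ M i' c ≠ 0 := by
    by_contra hcon
    push Not at hcon
    apply hmin
    rw [hcon.1, hcon.2]
    ring
  have p1 := h.posk' i w h6
  have p2 := h.posk' i' w h7
  by_cases e1 : 2 ≤ k' i w
  · exact row i hi ri e1
  · by_cases e2 : 2 ≤ k' i' w
    · exact row i' hi' ri' e2
    · exact hH i w i' h6 h7.symm h5 (by omega) (by rw [h.symk']; omega)

end WGEven
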