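import Pool.Agent.Lib.MP_107652_al.Even.Spec

/-!
# MP_107652_al: Four
-/

set_option autoImplicit false
set_option linter.unusedSectionVars false

open Finset

namespace WGEven

theorem four (h1 : FourD) (h2 : FourIOne) (h3 : FourITwo) (h4 : FourIThree) (h5 : TK) : Four := by
  intro V _ _ G k k' M N π hC hH0 a b c hab hbc hac kab kbc kac
  have two : ∀ a a2 c, GTw G a2 a → G.Adj a a2 → G.Adj a c → ¬ GTw G a c → k a a2 = 1 →
      k a c = 1 → k a2 c = 1 → False := by
    intro a a2 c t e1 e2 hn l1 l2 l3
    by_cases hd : GDom G a c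
    · exact h3 V G k k' M N π hC hH0 a a2 c t e1 e2 hn l1 l2 l3 hd
    · by_cases hb : Bad G c a
      · exact h4 V G k k' M N π hC hH0 a a2 c t e1 e2 hn l1 l2 l3 hb
      · exact h2 V G k k' M N π hC hH0 a a2 c t e1 e2 hn l1 l2 l3 hd hb
  by_cases tab : GTw G a b
  · by_cases tbc : GTw G b c
    · have tba := gtw_symm tab
      have tca : GTw G c a := gtw_trans (gtw_symm tbc) tba
      obtain ⟨i, j, l, -, -, -, e1, e2, e3, l1, l2, l3⟩ :=
        (h5 V G k k' M N π hC a ⟨b, hab, tab⟩ a b c (gtw_refl a) tba tca hab hbc hac).1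
          kab kbc kac
      exact hH0 i j l e1 e2 e3 l1 l2 l3
    · have tac : ¬ GTw G a c := fun h => tbc (gtw_trans (gtw_symm tab) h)
      exact two a b c (gtw_symm tab) hab hac tac kab kac kbc
  · by_cases tbc : GTw G b c
    · refine two b c a (gtw_symm tbc) hbc hab.symm (fun h => tab (gtw_symm h)) kbc ?_ ?_
      · rw [hC.symk b a]
        exact kab
      · rw [hC.symk c a]
        exact kac
    · by_cases tac : GTw G a c
      · refine two a c b (gtw_symm tac) hac hab tab kac kab ?_
        rw [hC.symk c b]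
        exact kbc
      · exact h1 V G k k' M N π hC hH0 a b c hab hbc hac tab tbc tac kab kbc kac

end WGEven
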