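import Pool.Agent.Lib.MP_107652_al.Even.Spec

/-!
# MP_107652_al, Even, module FourD
-/

set_option autoImplicit false

namespace WGEven

namespace FourDAux

variable {V : Type} [Fintype V] [DecidableEq V] {G : SimpleGraph V} {k k' : V → V → ℕ}
  {M N : V → V → ℤ} {π : Equiv.Perm V}

/-- the case `Bad a b` -/
theorem bad (h2 : FourDOne) (h3 : FourDTwo) (h : Core G k k' M N π) (h0 : H0 G k')
    (a b c : V) (hab : G.Adj a b) (hbc : G.Adj b c) (hac : G.Adj a c) (nab : ¬ GTw G a b)
    (nbc : ¬ GTw G b c) (nac : ¬ GTw G a c) (lab : k a b = 1) (lbc : k b c = 1) (lac : k a c = 1)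
    (hB : Bad G a b) : False := by
  by_cases hca : Bad G c a
  · have hcb : Bad G c b := ⟨hca.1, gdom_trans hca.2 hB.2⟩
    have hba : ¬ Bad G b a := fun hh => nab ⟨hB.2, hh.2⟩
    exact h3 V G k k' M N π h h0 c a b hac.symm hab hbc.symm (fun t => nac (gtw_symm t)) nab
      (fun t => nbc (gtw_symm t)) (by rw [h.symk]; exact lac) lab (by rw [h.symk]; exact lbc)
      hca hcb hba
  · by_cases hac' : Bad G a c
    · by_cases hcb : Bad G c b
      · have hbc' : ¬ Bad G b c := fun hh => nbc ⟨hh.2, hcb.2⟩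
        exact h3 V G k k' M N π h h0 a c b hac hbc.symm hab nac (fun t => nbc (gtw_symm t)) nab
          lac (by rw [h.symk]; exact lbc) lab hac' hB hbc'
      · exact h3 V G k k' M N π h h0 a b c hab hbc hac nab nbc nac lab lbc lac hB hac' hcb
    · exact h2 V G k k' M N π h h0 a b c hab hbc hac nab nbc nac lab lbc lac hB hac' hca

end FourDAux

theorem fourD (h1 : EOne) (h2 : FourDOne) (h3 : FourDTwo) : FourD := by
  intro V _ _ G k k' M N π h h0 a b c hab hbc hac nab nbc nac lab lbc lac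
  have sba : k b a = 1 := by rw [h.symk]; exact lab
  have scb : k c b = 1 := by rw [h.symk]; exact lbc
  have sca : k c a = 1 := by rw [h.symk]; exact lac
  have nba : ¬ GTw G b a := fun t => nab (gtw_symm t)
  have ncb : ¬ GTw G c b := fun t => nbc (gtw_symm t)
  have nca : ¬ GTw G c a := fun t => nac (gtw_symm t)
  by_cases e1 : Bad G a b
  · exact FourDAux.bad h2 h3 h h0 a b c hab hbc hac nab nbc nac lab lbc lac e1
  by_cases e2 : Bad G b a
  · exact FourDAux.bad h2 h3 h h0 b a c hab.symm hac hbc nba nac nbc sba lac lbc e2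
  by_cases e3 : Bad G a c
  · exact FourDAux.bad h2 h3 h h0 a c b hac hbc.symm hab nac ncb nab lac scb lab e3
  by_cases e4 : Bad G c a
  · exact FourDAux.bad h2 h3 h h0 c a b hac.symm hab hbc.symm nca nab ncb sca lab scb e4
  by_cases e5 : Bad G b c
  · exact FourDAux.bad h2 h3 h h0 b c a hbc hac.symm hab.symm nbc nca nba lbc sca sba e5
  by_cases e6 : Bad G c b
  · exact FourDAux.bad h2 h3 h h0 c b a hbc.symm hab.symm hac.symm ncb nba nca scb sba sca e6
  obtain ⟨j, hj, -⟩ := sup_odd h a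
  obtain ⟨w, hw, -⟩ := sup_odd h b
  obtain ⟨z, hz, -⟩ := sup_odd h c
  have tj := sup_tw h hj
  have tw := sup_tw h hw
  have tz := sup_tw h hz
  refine h0 j w z (adj_tw hab nab tj tw) (adj_tw hbc nbc tw tz) (adj_tw hac nac tj tz) ?_ ?_ ?_
  · exact h1 V G k k' M N π h a b hab nab lab e1 e2 j w hj hw
  · exact h1 V G k k' M N π h b c hbc nbc lbc e5 e6 w z hw hz
  · exact h1 V G k k' M N π h a c hac nac lac e3 e4 j z hj hz

end WGEven
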