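import Pool.Agent.Lib.MP_107652_al.Even.Spec

/-!
# MP_107652_al, Even/FourDOne: light triangles with vertices in three classes, `A < B`, `A` and `C` good
-/

set_option autoImplicit false

open Finset

namespace WGEven

open WGirth WGTwin

namespace FourDOneAux

variable {V : Type} [Fintype V] [DecidableEq V] {G : SimpleGraph V} {k k' : V → V → ℕ}
  {M N : V → V → ℤ} {π : Equiv.Perm V}

/-- the support of `x` cannot be heavy to an element of the support of `y` -/
theorem not_all_heavy (h2 : ETwo) (h : Core G k k' M N π) {x y : V} (hx : Clq G x)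
    (hd : GDom G x y) (hxy : G.Adj x y) (hn : ¬ GTw G x y) (hl : k x y = 1) {w : V}
    (hw : Sup G M π y w) (hall : ∀ j, Sup G M π x j → 2 ≤ k' j w) : False := by
  obtain ⟨j, hj, _⟩ := sup_odd h x
  have hjw := hall j hj
  obtain ⟨_, _, hdvd, huniq⟩ := h2 V G k k' M N π h x y hx hd hxy hn hl j w hj hw hjw
  have hq : ¬ ((k' j w : ℕ) : ℤ) ∣ 1 := by
    intro h1
    have h3 := Int.le_of_dvd one_pos h1
    omega
  obtain ⟨j1, hj1, hnd⟩ := sup_ndvd h x (k' j w) hq
  rw [mm_clq hx] at hnd
  by_cases hjj : j1 = j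
  · rw [hjj] at hnd
    exact hnd hdvd
  · have h3 := huniq j1 (sup_tw h hj1) hjj
    have h4 := hall j1 hj1
    omega

end FourDOneAux

open FourDOneAux

theorem fourDOne (h1 : EOne) (h2 : ETwo) : FourDOne := by
  intro V _ _ G k k' M N π h hH0 a b c hab hbc hac nab nbc nac lab lbc lac Bab nBac nBca
  have hlight := h1 V G k k' M N π h a c hac nac lac nBac nBca
  obtain ⟨w, hw, _⟩ := sup_odd h b
  have tw := sup_tw h hw
  by_cases hz : ∃ z, Sup G M π c z ∧ k' z w = 1
  · obtain ⟨z, hz, hzw⟩ := hz
    have tz := sup_tw h hz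
    have azw : G.Adj z w := (adj_tw hbc nbc tw tz).symm
    refine not_all_heavy h2 h Bab.1 Bab.2 hab nab lab hw fun j hj => ?_
    have tj := sup_tw h hj
    have ajw : G.Adj j w := adj_tw hab nab tj tw
    have ajz : G.Adj j z := adj_tw hac nac tj tz
    have h3 := h.posk' j w ajw
    by_contra hcon
    exact hH0 j z w ajz azw ajw (hlight j z hj hz) hzw (by omega)
  · push Not at hz
    have hheavy : ∀ z, Sup G M π c z → 2 ≤ k' z w := by
      intro z hzs
      have azw : G.Adj z w := (adj_tw hbc nbc tw (sup_tw h hzs)).symm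
      have h3 := h.posk' z w azw
      have h4 := hz z hzs
      omega
    by_cases hBcb : Bad G c b
    · exact not_all_heavy h2 h hBcb.1 hBcb.2 hbc.symm (fun e => nbc (gtw_symm e))
        ((h.symk c b).trans lbc) hw hheavy
    · by_cases hBbc : Bad G b c
      · exact nBac ⟨Bab.1, gdom_trans Bab.2 hBbc.2⟩
      · obtain ⟨z, hzs, _⟩ := sup_odd h c
        have h3 := h1 V G k k' M N π h b c hbc nbc lbc hBbc hBcb w z hw hzs
        have h4 := hheavy z hzs
        rw [h.symk' z w] at h4
        omega

end WGEven
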