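import Pool.Agent.Lib.MP_107652_al.Even.Spec

/-!
# MP_107652_al, Even/FourDTwo: light triangles with vertices in three classes, `A < B`, `A < C`
-/

set_option autoImplicit false

open Finset

namespace WGEven

open WGirth WGTwin

namespace FourDTwoAux

variable {V : Type} [Fintype V] [DecidableEq V] {G : SimpleGraph V} {k k' : V → V → ℕ}
  {M N : V → V → ℤ} {π : Equiv.Perm V}

theorem two_ndvd_one {q : ℕ} (h : 2 ≤ q) : ¬ (q : ℤ) ∣ 1 := by
  intro h1
  have h2 := Int.le_of_dvd one_pos h1
  have h3 : (2 : ℤ) ≤ q := by exact_mod_cast h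
  omega

theorem dvd_of_mul_abs {q m n : ℤ} (hm : |n| = 1) (h : q ∣ m * n) : q ∣ m := by
  rcases (abs_eq (by norm_num)).mp hm with h1 | h1
  · rwa [h1, mul_one] at h
  · rw [h1] at h
    have e : m = -(m * -1) := by ring
    rw [e]
    exact (dvd_neg).mpr h

/-- the row of `c` does not vanish on the support of `c` -/
theorem row_ne (h : Core G k k' M N π) {a c : V} (ha : Clq G a) (hac : GDom G a c) :
    ∃ z, Sup G M π c z ∧ N c z ≠ 0 := by
  by_contra hcon
  push Not at hcon
  have h1 := h.clsNM c c c (mem_gcls.mpr (gtw_refl c)) (mem_gcls.mpr (gtw_refl c))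
  rw [if_pos rfl] at h1
  by_cases hc : Clq G c
  · have h2 : ∑ w ∈ gcls G c, N c w * M w c = 0 := by
      apply Finset.sum_eq_zero
      intro w hw
      by_cases h0 : M w c = 0
      · rw [h0, mul_zero]
      · rw [hcon w ((sup_clq hc).mpr ⟨mem_gcls.mp hw, h0⟩), zero_mul]
    rw [h2] at h1
    exact zero_ne_one h1
  · have hcls : gcls G c = {c} := by
      ext w
      rw [mem_gcls, Finset.mem_singleton]
      constructor
      · exact fun hw => up_rig ha hac hc hw
      · intro hw
        rw [hw]
        exact gtw_refl c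
    have hpi : π c = c := up_rig ha hac hc (h.mat.tw c)
    have h3 := hcon c ((sup_rig hc).mpr hpi.symm)
    rw [hcls, Finset.sum_singleton, h3, zero_mul] at h1
    exact zero_ne_one h1

end FourDTwoAux

open FourDTwoAux

theorem fourDTwo (h1 : FourDTwoA) (h2 : ETwo) (h3 : StarBG) (h4 : RowDvd) : FourDTwo := by
  intro V _ _ G k k' M N π h hH0 a b c hab hbc hac nab nbc nac lab lbc lac Bab Bac nBcb
  obtain ⟨j, j1, w0, z0, hne, hj, hj1, hcls, hw0, hz0, hjw, hj1z, hz, hw⟩ :=
    h1 V G k k' M N π h hH0 a b c hab hbc hac nab nbc nac lab lbc lac Bab Bac nBcb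
  have tj := sup_tw h hj
  have tj1 := sup_tw h hj1
  have ca := Bab.1
  -- the other element of the class
  obtain ⟨a', ta', hne', hcov⟩ : ∃ a', GTw G a' a ∧ a' ≠ a ∧ ∀ u, GTw G u a → u = a ∨ u = a' := by
    rcases hcls a (gtw_refl a) with e | e
    · refine ⟨j1, tj1, ?_, ?_⟩
      · rw [e]; exact hne.symm
      · intro u hu
        rw [e]
        rcases hcls u (e ▸ hu) with e2 | e2
        · exact Or.inl e2
        · exact Or.inr e2
    · refine ⟨j, tj, ?_, ?_⟩
      · rw [e]; exact hne
      · intro u hu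
        rw [e]
        rcases hcls u (e ▸ hu) with e2 | e2
        · exact Or.inr e2
        · exact Or.inl e2
  have ca' : Clq G a' := clq_tw ca ta'
  have haa' : G.Adj a' a := by
    rcases clq_adj ca ta' with e | e
    · exact absurd e hne'
    · exact e
  have ha'b : G.Adj a' b := adj_tw hab nab ta' (gtw_refl b)
  have ha'c : G.Adj a' c := adj_tw hac nac ta' (gtw_refl c)
  have na'b : ¬ GTw G a' b := fun e => nab (gtw_trans (gtw_symm ta') e)
  have na'c : ¬ GTw G a' c := fun e => nac (gtw_trans (gtw_symm ta') e)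
  have E2b := h2 V G k k' M N π h a b Bab.1 Bab.2 hab nab lab
  have E2c := h2 V G k k' M N π h a c Bac.1 Bac.2 hac nac lac
  -- a light edge at `a'` contradicts `RowDvd`
  have hrow : ∀ y i w, G.Adj a' y → ¬ GTw G a' y → k a' y = 1 → GTw G i a → Sup G M π y w →
      |mm G M w y| = 1 → 2 ≤ k' i w → (k' i w : ℤ) ∣ M i a → False := by
    intro y i w hay nay lay hi hwy hm hh hd
    apply two_ndvd_one hh
    apply h4 V G k k' M N π h i
    intro u hu
    rcases hcov u (gtw_trans hu hi) with e | e
    · rw [e]; exact hd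
    · rw [e]
      by_cases h0 : M i a' = 0
      · rw [h0]; exact dvd_zero _
      · have hs : Sup G M π a' i := (sup_clq ca').mpr ⟨gtw_trans hi (gtw_symm ta'), h0⟩
        have := hdiv h hay nay hs hwy
        rw [lay, mm_clq ca', Nat.cast_one, one_mul] at this
        exact dvd_of_mul_abs hm this
  have k1 : 2 ≤ k a' b := by
    have hp := h.posk a' b ha'b
    by_contra hcon
    have e := E2b j w0 hj hw0 hjw
    exact hrow b j w0 ha'b na'b (by omega) tj hw0 e.2.1 hjw e.2.2.1
  have k2 : 2 ≤ k a' c := by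
    have hp := h.posk a' c ha'c
    by_contra hcon
    have e := E2c j1 z0 hj1 hz0 hj1z
    exact hrow c j1 z0 ha'c na'c (by omega) tj1 hz0 e.2.1 hj1z e.2.2.1
  -- star in the other direction
  have hsw := h.swap
  have key : ∀ s u y, GTw G s a → G.Adj a y → ¬ GTw G a y → GDom G a y → GTw G u y → k' s u = 1 →
      (y = b ∨ y = c) → Even (N a' s) ∨ N y u = 0 := by
    intro s u y hs hay nay hdy hu hlight hy
    have hsu : G.Adj s u := adj_tw hay nay hs hu
    have hz0' : N a' u = 0 := by
      by_contra h0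
      have e := h.domN u a' h0
      exact nay ⟨hdy, gdom_trans hu.2 (gdom_trans e ta'.1)⟩
    have := h3 V G k' k N M π.symm hsw a ca a' b c ha'b ha'c hbc k1 k2 (Or.inl ta') s u hs.2
      (gdom_trans hdy hu.2) hsu hlight
    rcases this with e | ⟨e1, e2⟩
    · exact Or.inl e.1
    · by_cases hev : Even (N a' s)
      · exact Or.inl hev
      · right
        have hne0 : N a' s ≠ 0 := fun e => hev (by rw [e]; exact Even.zero)
        rw [hz0', mul_zero] at e1 e2
        rcases hy with rfl | rfl
        · exact (mul_eq_zero.mp e1).resolve_left hne0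
        · exact (mul_eq_zero.mp e2).resolve_left hne0
  have ev1 : Even (N a' j) := by
    obtain ⟨z, hzs, hzn⟩ := row_ne h ca Bac.2
    rcases key j z c tj hac nac Bac.2 (sup_tw h hzs) (hz z hzs) (Or.inr rfl) with e | e
    · exact e
    · exact absurd e hzn
  have ev2 : Even (N a' j1) := by
    obtain ⟨w, hws, hwn⟩ := row_ne h ca Bab.2
    rcases key j1 w b tj1 hab nab Bab.2 (sup_tw h hws) (hw w hws) (Or.inl rfl) with e | e
    · exact e
    · exact absurd e hwn
  -- the row of `a'`
  have hfin := h.clsNM a a' a' (mem_gcls.mpr ta') (mem_gcls.mpr ta')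
  rw [if_pos rfl] at hfin
  have h2d : (2 : ℤ) ∣ 1 := by
    rw [← hfin]
    apply Finset.dvd_sum
    intro w hw'
    apply Dvd.dvd.mul_right
    rcases hcls w (mem_gcls.mp hw') with e | e
    · rw [e]; exact even_iff_two_dvd.mp ev1
    · rw [e]; exact even_iff_two_dvd.mp ev2
  norm_num at h2d

end WGEven
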