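import Pool.Agent.Lib.MP_107652_al.Even.Spec

/-!
# MP_107652_al, Even/FourDTwoA: structure of the supports
-/

set_option autoImplicit false

open Finset

namespace WGEven

open WGirth WGTwin

namespace FourDTwoAAux

variable {V : Type} [Fintype V] [DecidableEq V] {G : SimpleGraph V} {k k' : V → V → ℕ}
  {M N : V → V → ℤ} {π : Equiv.Perm V}

theorem two_ndvd_one {q : ℕ} (h : 2 ≤ q) : ¬ (q : ℤ) ∣ 1 := by
  intro h1
  have h2 := Int.le_of_dvd one_pos h1
  have h3 : (2 : ℤ) ≤ q := by exact_mod_cast h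
  omega

theorem ndvd_abs {q : ℕ} (h : 2 ≤ q) {m : ℤ} (hm : |m| = 1) : ¬ (q : ℤ) ∣ m := by
  intro h1
  apply two_ndvd_one h
  rw [← hm]
  exact (dvd_abs _ _).mpr h1

end FourDTwoAAux

open FourDTwoAAux

theorem fourDTwoA (h1 : EOne) (h2 : ETwo) : FourDTwoA := by
  intro V _ _ G k k' M N π h hH0 a b c hab hbc hac nab nbc nac lab lbc lac Bab Bac nBcb
  -- adjacency between the classes
  have adj1 : ∀ {j w}, Sup G M π a j → Sup G M π b w → G.Adj j w := fun hj hw =>
    adj_tw hab nab (sup_tw h hj) (sup_tw h hw)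
  have adj2 : ∀ {w z}, Sup G M π b w → Sup G M π c z → G.Adj w z := fun hw hz =>
    adj_tw hbc nbc (sup_tw h hw) (sup_tw h hz)
  have adj3 : ∀ {j z}, Sup G M π a j → Sup G M π c z → G.Adj j z := fun hj hz =>
    adj_tw hac nac (sup_tw h hj) (sup_tw h hz)
  have E2b := h2 V G k k' M N π h a b Bab.1 Bab.2 hab nab lab
  have E2c := h2 V G k k' M N π h a c Bac.1 Bac.2 hac nac lac
  have heavy : ∀ {u v : V}, G.Adj u v → k' u v ≠ 1 → 2 ≤ k' u v := by
    intro u v huv hne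
    have := h.posk' u v huv
    omega
  -- (i)
  have hi : ∀ w z, Sup G M π b w → Sup G M π c z → 2 ≤ k' w z →
      Bad G b c ∧ (k' w z : ℤ) ∣ M w b ∧ ∀ w', GTw G w' b → w' ≠ w → k' w' z = 1 := by
    intro w z hw hz hwz
    by_cases hB : Bad G b c
    · have := h2 V G k k' M N π h b c hB.1 hB.2 hbc nbc lbc w z hw hz hwz
      exact ⟨hB, this.2.2.1, this.2.2.2⟩
    · have := h1 V G k k' M N π h b c hbc nbc lbc hB nBcb w z hw hz
      omega
  -- (ii)
  have hii : ∃ w0 z0, Sup G M π b w0 ∧ Sup G M π c z0 ∧ k' w0 z0 = 1 := by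
    by_contra hcon
    push Not at hcon
    obtain ⟨z, hz, -⟩ := sup_odd h c
    obtain ⟨w1, hw1, -⟩ := sup_odd h b
    have hh1 := heavy (adj2 hw1 hz) (hcon w1 z hw1 hz)
    obtain ⟨hB, hd, hu⟩ := hi w1 z hw1 hz hh1
    obtain ⟨w2, hw2, hnd⟩ := sup_ndvd h b (k' w1 z) (two_ndvd_one hh1)
    by_cases he : w2 = w1
    · subst he
      rw [mm_clq hB.1] at hnd
      exact hnd hd
    · exact hcon w2 z hw2 hz (hu w2 (sup_tw h hw2) he)
  -- (iii)
  have hiii : ∀ w z, Sup G M π b w → Sup G M π c z → k' w z = 1 →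
      ∃ j j1, j ≠ j1 ∧ Sup G M π a j ∧ Sup G M π a j1 ∧ 2 ≤ k' j w ∧ 2 ≤ k' j1 z ∧ k' j z = 1 ∧
        k' j1 w = 1 ∧ ∀ u, GTw G u a → u = j ∨ u = j1 := by
    intro w z hw hz hwz
    have hor : ∀ j, Sup G M π a j → 2 ≤ k' j w ∨ 2 ≤ k' j z := by
      intro j hj
      by_cases h3 : k' j w = 1
      · right
        apply heavy (adj3 hj hz)
        intro h4
        exact hH0 j w z (adj1 hj hw) (adj2 hw hz) (adj3 hj hz) h3 hwz h4
      · exact Or.inl (heavy (adj1 hj hw) h3)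
    have fin : ∀ j j1, j ≠ j1 → Sup G M π a j → Sup G M π a j1 → 2 ≤ k' j w → 2 ≤ k' j1 z →
        ∀ u, GTw G u a → u = j ∨ u = j1 := by
      intro j j1 _ hj hj1 hjw hjz u hu
      by_contra hcon
      push Not at hcon
      have e1 := (E2b j w hj hw hjw).2.2.2 u hu hcon.1
      have e2 := (E2c j1 z hj1 hz hjz).2.2.2 u hu hcon.2
      exact hH0 u w z (adj_tw hab nab hu (sup_tw h hw)) (adj2 hw hz)
        (adj_tw hac nac hu (sup_tw h hz)) e1 hwz e2
    obtain ⟨j, hj, -⟩ := sup_odd h a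
    rcases hor j hj with hjw | hjz
    · obtain ⟨-, -, hd, hu⟩ := E2b j w hj hw hjw
      obtain ⟨j1, hj1, hnd⟩ := sup_ndvd h a (k' j w) (two_ndvd_one hjw)
      have hne : j1 ≠ j := by
        intro e
        subst e
        rw [mm_clq Bab.1] at hnd
        exact hnd hd
      have e1 := hu j1 (sup_tw h hj1) hne
      have hj1z : 2 ≤ k' j1 z := by
        rcases hor j1 hj1 with h3 | h3
        · omega
        · exact h3
      have e2 := (E2c j1 z hj1 hz hj1z).2.2.2 j (sup_tw h hj) hne.symm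
      exact ⟨j, j1, hne.symm, hj, hj1, hjw, hj1z, e2, e1, fin j j1 hne.symm hj hj1 hjw hj1z⟩
    · obtain ⟨-, -, hd, hu⟩ := E2c j z hj hz hjz
      obtain ⟨j1, hj1, hnd⟩ := sup_ndvd h a (k' j z) (two_ndvd_one hjz)
      have hne : j1 ≠ j := by
        intro e
        subst e
        rw [mm_clq Bab.1] at hnd
        exact hnd hd
      have e1 := hu j1 (sup_tw h hj1) hne
      have hj1w : 2 ≤ k' j1 w := by
        rcases hor j1 hj1 with h3 | h3
        · exact h3
        · omega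
      have e2 := (E2b j1 w hj1 hw hj1w).2.2.2 j (sup_tw h hj) hne.symm
      exact ⟨j1, j, hne, hj1, hj, hj1w, hjz, e1, e2, fin j1 j hne hj1 hj hj1w hjz⟩
  obtain ⟨w0, z0, hw0, hz0, hwz0⟩ := hii
  obtain ⟨j, j1, hne, hj, hj1, hjw, hj1z, hjz, hj1w, hcls⟩ := hiii w0 z0 hw0 hz0 hwz0
  refine ⟨j, j1, w0, z0, hne, hj, hj1, hcls, hw0, hz0, hjw, hj1z, ?_, ?_⟩
  · -- (iv), first part
    intro z hz
    have hl : k' w0 z = 1 := by
      by_contra hcon
      have hh := heavy (adj2 hw0 hz) hcon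
      obtain ⟨hB, hd, -⟩ := hi w0 z hw0 hz hh
      have e1 := (E2b j w0 hj hw0 hjw).1
      exact ndvd_abs hh e1 hd
    obtain ⟨i, i1, hne', hi', hi1', hiw, hi1z, hiz, hi1w, -⟩ := hiii w0 z hw0 hz hl
    have e : i = j := by
      by_contra hcon
      have := (E2b j w0 hj hw0 hjw).2.2.2 i (sup_tw h hi') hcon
      omega
    rw [← e]
    exact hiz
  · intro w hw
    by_cases hl : k' w z0 = 1
    · obtain ⟨i, i1, hne', hi', hi1', hiw, hi1z, hiz, hi1w, -⟩ := hiii w z0 hw hz0 hl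
      have e : i1 = j1 := by
        by_contra hcon
        have := (E2c j1 z0 hj1 hz0 hj1z).2.2.2 i1 (sup_tw h hi1') hcon
        omega
      rw [← e]
      exact hi1w
    · have hh := heavy (adj2 hw hz0) hl
      obtain ⟨hB, hd, -⟩ := hi w z0 hw hz0 hh
      by_contra hcon
      have hh2 := heavy (adj1 hj1 hw) hcon
      have e1 := (E2b j1 w hj1 hw hh2).1
      exact ndvd_abs hh e1 hd

end WGEven
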