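import Pool.Agent.Lib.MP_107652_al.Even.Spec

/-!
# MP_107652_al, Even/FourIOne: two vertices in one class, good pair
-/

set_option autoImplicit false

open Finset

namespace WGEven

theorem fourIOne (h1 : EOne) (h2 : EFour) : FourIOne := by
  intro V _ _ G k k' M N π h h0 a a2 c ta2 haa2 hac hn kaa2 kac ka2c hgood hbad
  have hclq : Clq G a := ⟨a2, haa2, gtw_symm ta2⟩
  have hclq2 : Clq G a2 := clq_tw hclq ta2
  obtain ⟨z0, hz0, -⟩ := sup_odd h c
  have tz := sup_tw h hz0
  have hadj : ∀ w, GTw G w a → G.Adj w z0 := fun w hw => adj_tw hac hn hw tz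
  refine h2 V G k k' M N π h a hclq a a2 (gtw_refl a) ta2 haa2 kaa2 (fun w => k' w z0 = 1) ?_ ?_
  · intro w hw hne
    rcases hne with hne | hne
    · exact h1 V G k k' M N π h a c hac hn kac (fun hh => hgood hh.2) hbad w z0
        ((sup_clq hclq).mpr ⟨hw, hne⟩) hz0
    · have hw2 : GTw G w a2 := gtw_trans hw (gtw_symm ta2)
      refine h1 V G k k' M N π h a2 c (adj_tw hac hn ta2 (gtw_refl c))
        (fun ht => hn (gtw_trans (gtw_symm ta2) ht)) ka2c
        (fun hh => hgood (gdom_trans ta2.2 hh.2)) (fun hh => hbad ⟨hh.1, gdom_trans hh.2 ta2.1⟩)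
        w z0 ((sup_clq hclq2).mpr ⟨hw2, hne⟩) hz0
  · intro w w' hw hw' hww' hJ hJ'
    have hp := h.posk' w w' hww'
    by_contra hlt
    have he : k' w w' = 1 := by omega
    exact h0 w w' z0 hww' (hadj w' hw') (hadj w hw) he hJ' hJ

end WGEven
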