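import Pool.Agent.Lib.MP_107652_al.Even.Spec

/-!
# MP_107652_al, even Artin groups, module FourIThree
-/

set_option autoImplicit false

open Finset

namespace WGEven

open WGirth WGTwin

theorem fourIThree (h1 : FourIThreeA) (h2 : RowDvd) (h3 : StarBG) : FourIThree := by
  intro V _ _ G k k' M N π h hH0 a a2 c hta hadj hac hnt hk1 hk2 hk3 hbad
  obtain ⟨j, j', w1, hjc, hj'c, hw1, hjj', hjodd, -, hclass, hkj, hkj'1, hheavy, hrows, hminor⟩ :=
    h1 V G k k' M N π h hH0 a a2 c hta hadj hac hnt hk1 hk2 hk3 hbad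
  obtain ⟨hclc, hdom⟩ := hbad
  have hcla : Clq G a := ⟨a2, hadj, gtw_symm hta⟩
  have hne : a ≠ a2 := hadj.ne
  have hnca : ¬ GTw G c a := fun h6 => hnt (gtw_symm h6)
  have hadjCK : ∀ u w, GTw G u c → GTw G w a → G.Adj u w := fun u w hu hw =>
    adj_tw hac.symm hnca hu hw
  -- the other element of the class of `c`
  obtain ⟨c', hc', hcc', hcls⟩ : ∃ c', GTw G c' c ∧ c' ≠ c ∧ ∀ u, GTw G u c → u = c ∨ u = c' := by
    rcases hclass c (gtw_refl c) with e | e
    · refine ⟨j', hj'c, fun e2 => hjj' (e.symm.trans e2.symm), fun u hu => ?_⟩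
      rcases hclass u hu with e3 | e3
      · exact Or.inl (e3.trans e.symm)
      · exact Or.inr e3
    · refine ⟨j, hjc, fun e2 => hjj' (e2.trans e), fun u hu => ?_⟩
      rcases hclass u hu with e3 | e3
      · exact Or.inr e3
      · exact Or.inl (e3.trans e.symm)
  have hclc' : Clq G c' := clq_tw hclc hc'
  -- the properties of the columns
  have hcol : ∀ b, b = a ∨ b = a2 → GTw G b a ∧ ¬ GTw G c b ∧ k c b = 1 ∧ Clq G b := by
    rintro b (rfl | rfl)
    · exact ⟨gtw_refl b, hnca, by rw [h.symk]; exact hk2, hcla⟩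
    · refine ⟨hta, ?_, by rw [h.symk]; exact hk3, clq_tw hcla hta⟩
      intro h6
      exact hnca (gtw_trans h6 hta)
  -- (1)
  have hdiv1 : ∀ x u w b, GTw G x c → Clq G x → GTw G u c → GTw G w a → (b = a ∨ b = a2) →
      M w b ≠ 0 → k x b = 1 → (k' u w : ℤ) ∣ M u x := by
    intro x u w b hx hclx hu hw hb hMb hkx
    obtain ⟨hbt, hncb, -, hclb⟩ := hcol b hb
    by_cases h0 : M u x = 0
    · rw [h0]
      exact dvd_zero _
    · have hsu : Sup G M π x u := (sup_clq hclx).mpr ⟨gtw_trans hu (gtw_symm hx), h0⟩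
      have hsw : Sup G M π b w := (sup_clq hclb).mpr ⟨gtw_trans hw (gtw_symm hbt), hMb⟩
      have hxb : G.Adj x b := hadjCK x b hx hbt
      have hnxb : ¬ GTw G x b := fun h6 => hncb (gtw_trans (gtw_symm hx) h6)
      have h4 := hdiv h hxb hnxb hsu hsw
      rw [mm_clq hclx, mm_clq hclb, hkx] at h4
      have h5 : |M w b| ≤ 1 := by
        rcases hb with rfl | rfl
        · exact (hrows w hw).1
        · exact (hrows w hw).2
      have h6 : M w b = 1 ∨ M w b = -1 := by
        rw [abs_le] at h5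
        omega
      rcases h6 with h7 | h7
      · rw [h7] at h4
        simpa using h4
      · rw [h7] at h4
        simpa using h4
  have hone : ∀ b, (b = a ∨ b = a2) → 2 ≤ k c' b := by
    intro b hb
    obtain ⟨hbt, hncb, hkcb, hclb⟩ := hcol b hb
    have hadjb : G.Adj c' b := hadjCK c' b hc' hbt
    by_contra hcon
    have hk : k c' b = 1 := by
      have := h.posk c' b hadjb
      omega
    have hw : ∃ w, GTw G w a ∧ M w b ≠ 0 := by
      by_contra hc0
      push Not at hc0
      have e1 := h.clsNM a b b (mem_gcls.mpr hbt) (mem_gcls.mpr hbt)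
      rw [if_pos rfl, Finset.sum_eq_zero] at e1
      · exact zero_ne_one e1
      · intro w hw
        rw [hc0 w (mem_gcls.mp hw), mul_zero]
    obtain ⟨w, hw, hMw⟩ := hw
    have hu : ∃ u, GTw G u c ∧ 2 ≤ k' u w := by
      by_cases hww : w = w1
      · exact ⟨j, hjc, by rw [hww]; exact hkj⟩
      · exact ⟨j', hj'c, hheavy w hw hww⟩
    obtain ⟨u, hu, hku⟩ := hu
    have hd : (k' u w : ℤ) ∣ 1 := by
      refine h2 V G k k' M N π h u (k' u w : ℤ) ?_
      intro x hx
      have hxc : GTw G x c := gtw_trans hx hu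
      rcases hcls x hxc with e | e
      · rw [e]
        exact hdiv1 c u w b (gtw_refl c) hclc hu hw hb hMw hkcb
      · rw [e]
        exact hdiv1 c' u w b hc' hclc' hu hw hb hMw hk
    have h7 := Int.le_of_dvd one_pos hd
    have h8 : (2 : ℤ) ≤ (k' u w : ℤ) := by exact_mod_cast hku
    omega
  -- (2)
  have hgc : gcls G c = {j, j'} := by
    ext u
    rw [mem_gcls, Finset.mem_insert, Finset.mem_singleton]
    constructor
    · exact hclass u
    · rintro (e | e)
      · rw [e]
        exact hjc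
      · rw [e]
        exact hj'c
  have hodd : ¬ Even (N c' j') := by
    intro hev
    have e1 := h.clsNM c c' c (mem_gcls.mpr hc') (mem_gcls.mpr (gtw_refl c))
    have e2 := h.clsNM c c' c' (mem_gcls.mpr hc') (mem_gcls.mpr hc')
    rw [hgc, Finset.sum_pair hjj', if_neg hcc'] at e1
    rw [hgc, Finset.sum_pair hjj', if_pos rfl] at e2
    have e3 : Even (N c' j * M j c) := by
      have e4 : N c' j * M j c = -(N c' j' * M j' c) := by linarith
      rw [e4]
      exact (hev.mul_right _).neg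
    rcases Int.even_mul.mp e3 with e4 | e4
    · have e5 : Even (N c' j * M j c' + N c' j' * M j' c') :=
        (e4.mul_right _).add (hev.mul_right _)
      rw [e2] at e5
      exact absurd e5 (by decide)
    · exact hjodd e4
  have hNne : N c' j' ≠ 0 := by
    intro e
    rw [e] at hodd
    exact hodd (by decide)
  -- (3)
  have hNc : N c' w1 = 0 := by
    by_contra h0
    have e1 := h.domN w1 c' h0
    exact hnt ⟨gdom_trans hw1.2 (gdom_trans e1 hc'.1), hdom⟩
  have hNa : N a w1 = 0 ∧ N a2 w1 = 0 := by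
    have e1 := h3 V G k' k N M π.symm h.swap c hclc c' a a2 (hadjCK c' a hc' (gtw_refl a))
      (hadjCK c' a2 hc' hta) hadj (hone a (Or.inl rfl)) (hone a2 (Or.inr rfl)) (Or.inl hc') j' w1
      hj'c.2 (gdom_trans hdom hw1.2) (hadjCK j' w1 hj'c hw1) hkj'1
    rcases e1 with ⟨e2, -⟩ | ⟨e2, e3⟩
    · exact absurd e2 hodd
    · rw [hNc, mul_zero] at e2 e3
      exact ⟨(mul_eq_zero.mp e2).resolve_left hNne, (mul_eq_zero.mp e3).resolve_left hNne⟩
  -- (4)
  have ha1 := mem_gcls.mpr (gtw_refl (G := G) a)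
  have ha2 := mem_gcls.mpr hta
  have e1 := h.clsNM a a a ha1 ha1
  have e2 := h.clsNM a a2 a2 ha2 ha2
  have e3 := h.clsNM a a a2 ha1 ha2
  have e4 := h.clsNM a a2 a ha2 ha1
  rw [if_pos rfl] at e1 e2
  rw [if_neg hne] at e3
  rw [if_neg hne.symm] at e4
  have e5 : (∑ w ∈ gcls G a, N a w * M w a) * (∑ w ∈ gcls G a, N a2 w * M w a2)
      - (∑ w ∈ gcls G a, N a w * M w a2) * (∑ w ∈ gcls G a, N a2 w * M w a) = 0 := by
    rw [Finset.sum_mul_sum, Finset.sum_mul_sum, ← Finset.sum_sub_distrib]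
    refine Finset.sum_eq_zero fun w hw => ?_
    rw [← Finset.sum_sub_distrib]
    refine Finset.sum_eq_zero fun w' hw' => ?_
    have e6 : N a w * M w a * (N a2 w' * M w' a2) - N a w * M w a2 * (N a2 w' * M w' a) =
        N a w * N a2 w' * (M w a * M w' a2 - M w' a * M w a2) := by ring
    rw [e6]
    by_cases hww : w = w1
    · rw [hww, hNa.1]
      ring
    · by_cases hww' : w' = w1
      · rw [hww', hNa.2]
        ring
      · rw [hminor w w' (mem_gcls.mp hw) (mem_gcls.mp hw') hww hww', mul_zero]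
  rw [e1, e2, e3, e4] at e5
  norm_num at e5

end WGEven
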