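import Pool.Agent.Lib.MP_107652_al.Even.Spec

/-!
# MP_107652_al: two light edges in a clique class below a vertex, conclusion
-/

set_option autoImplicit false

open Finset

namespace WGEven

namespace FourITwoAux

variable {V : Type} [Fintype V] [DecidableEq V] {G : SimpleGraph V} {k k' : V → V → ℕ}
  {M N : V → V → ℤ} {π : Equiv.Perm V}

/-- some entry `N c z`, `z` in the support of `c`, does not vanish (`c` above a clique vertex) -/
theorem nz (hC : Core G k k' M N π) {a c : V} (ha : Clq G a) (hd : GDom G a c)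
    (h : ∀ z, Sup G M π c z → N c z = 0) : False := by
  have h1 := hC.clsNM c c c (mem_gcls.mpr (gtw_refl c)) (mem_gcls.mpr (gtw_refl c))
  rw [if_pos rfl, Finset.sum_eq_zero] at h1
  · exact zero_ne_one h1
  · intro w hw
    have tw := mem_gcls.mp hw
    by_cases hc : Clq G c
    · by_cases h0 : M w c = 0
      · rw [h0, mul_zero]
      · rw [h w ((sup_clq hc).mpr ⟨tw, h0⟩), zero_mul]
    · have e1 : w = c := up_rig ha hd hc tw
      have e2 : π c = c := up_rig ha hd hc (hC.mat.tw c)
      have e3 : Sup G M π c w := (sup_rig hc).mpr (by rw [e1, e2])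
      rw [h w e3, zero_mul]

theorem main (h2 : StarBG) (h3 : RowDvd) (hC : Core G k k' M N π) {a b b2 c d i i' j1 z0 : V}
    (ha : Clq G a) (hd : GDom G a c) (hac : G.Adj a c) (hn : ¬ GTw G a c)
    (tb : GTw G b a) (td : GTw G d a) (hdb : d ≠ b)
    (hcl2 : ∀ u, GTw G u a → u = b ∨ u = b2 ∨ u = d) (hkdb : 2 ≤ k d b)
    (hz0 : Sup G M π c z0) (hm : |mm G M z0 c| = 1) (hj : 2 ≤ k' j1 z0)
    (d1 : (k' j1 z0 : ℤ) ∣ M j1 b) (d2 : (k' j1 z0 : ℤ) ∣ M j1 b2)
    (ti : GTw G i a) (ti' : GTw G i' a) (tj1 : GTw G j1 a) (e1 : i ≠ i') (e2 : i ≠ j1)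
    (e3 : i' ≠ j1) (hcl : ∀ u, GTw G u a → u = i ∨ u = i' ∨ u = j1) (k1 : k' i j1 = 1)
    (k2 : k' i' j1 = 1) (hl : ∀ z, Sup G M π c z → k' i z = 1 ∧ k' i' z = 1) : False := by
  have adjc : ∀ {u : V}, GTw G u a → G.Adj u c := fun hu => adj_tw hac hn hu (gtw_refl c)
  have nd : ¬ GTw G d c := fun h => hn (gtw_trans (gtw_symm td) h)
  have cd : Clq G d := clq_tw ha td
  have hsum : ∀ x y, GTw G x a → GTw G y a →
      N x i * M i y + N x i' * M i' y + N x j1 * M j1 y = if x = y then 1 else 0 := by
    intro x y hx hy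
    have h := hC.clsNM a x y (mem_gcls.mpr hx) (mem_gcls.mpr hy)
    have hg : gcls G a = {i, i', j1} := by
      ext u
      rw [mem_gcls, Finset.mem_insert, Finset.mem_insert, Finset.mem_singleton]
      constructor
      · exact hcl u
      · rintro (rfl | rfl | rfl)
        · exact ti
        · exact ti'
        · exact tj1
    rw [hg, Finset.sum_insert, Finset.sum_insert, Finset.sum_singleton] at h
    · rw [← h]; ring
    · rw [Finset.mem_singleton]; exact e3
    · rw [Finset.mem_insert, Finset.mem_singleton]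
      rintro (h | h)
      · exact e1 h
      · exact e2 h
  -- (1)
  have hkdc : 2 ≤ k d c := by
    by_contra hcon
    have hk : k d c = 1 := by
      have := hC.posk d c (adjc td)
      omega
    have d3 : (k' j1 z0 : ℤ) ∣ M j1 d := by
      by_cases h0 : M j1 d = 0
      · rw [h0]; exact dvd_zero _
      · have hs : Sup G M π d j1 := (sup_clq cd).mpr ⟨gtw_trans tj1 (gtw_symm td), h0⟩
        have := hdiv hC (adjc td) nd hs hz0
        rw [hk, mm_clq cd, Nat.cast_one, one_mul] at this
        rcases (abs_eq (by norm_num)).mp hm with h | h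
        · rwa [h, mul_one] at this
        · rw [h, mul_neg_one, dvd_neg] at this
          exact this
    have := h3 V G k k' M N π hC j1 (k' j1 z0) (by
      intro w hw
      rcases hcl2 w (gtw_trans hw tj1) with rfl | rfl | rfl
      · exact d1
      · exact d2
      · exact d3)
    have h4 := Int.le_of_dvd one_pos this
    omega
  -- the star
  have hstar : ∀ u v, GDom G a u → GDom G a v → G.Adj u v → k' u v = 1 →
      (Even (N d u) ∧ Even (N d v)) ∨
      (N d u * N c v = N c u * N d v ∧ N d u * N b v = N b u * N d v) := by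
    have hdb' : G.Adj d b := by
      rcases clq_adj2 ha td tb with h | h
      · exact absurd h hdb
      · exact h
    exact h2 V G k' k N M π.symm hC.swap a ha d c b (adjc td) hdb' (adjc tb).symm hkdc hkdb
      (Or.inl td)
  -- (2)
  have hev : ∀ s, GTw G s a → (∀ z, Sup G M π c z → k' s z = 1) → Even (N d s) := by
    intro s hs hsl
    by_contra hodd
    apply nz hC ha hd
    intro z hz
    have tz := sup_tw hC hz
    have hdz : N d z = 0 := by
      by_contra h0
      have h4 := hC.domN z d h0
      exact hn ⟨hd, gdom_trans tz.2 (gdom_trans h4 td.1)⟩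
    rcases hstar s z hs.2 (gdom_trans hd tz.2) (adj_tw hac hn hs tz) (hsl z hz) with h | h
    · exact absurd h.1 hodd
    · have h5 := h.1
      rw [hdz, mul_zero] at h5
      rcases mul_eq_zero.mp h5 with h6 | h6
      · rw [h6] at hodd
        exact absurd Even.zero hodd
      · exact h6
  have ev1 := hev i ti (fun z hz => (hl z hz).1)
  have ev2 := hev i' ti' (fun z hz => (hl z hz).2)
  have hodd : ¬ Even (N d j1) := by
    intro ev3
    have h := hsum d d td td
    rw [if_pos rfl] at h
    have : Even (1 : ℤ) := by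
      rw [← h]
      exact ((ev1.mul_right _).add (ev2.mul_right _)).add (ev3.mul_right _)
    exact absurd this (by decide)
  -- (3)
  have hprop : ∀ s, GTw G s a → s ≠ j1 → k' s j1 = 1 → N d j1 * N b s = N b j1 * N d s := by
    intro s hs hne hk
    have hadj : G.Adj j1 s := by
      rcases clq_adj2 ha tj1 hs with h | h
      · exact absurd h.symm hne
      · exact h
    rcases hstar j1 s tj1.2 hs.2 hadj (by rw [hC.symk']; exact hk) with h | h
    · exact absurd h.1 hodd
    · exact h.2
  have p1 := hprop i ti e2 k1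
  have p2 := hprop i' ti' e3 k2
  have s1 := hsum b b tb tb
  have s2 := hsum d b td tb
  rw [if_pos rfl] at s1
  rw [if_neg hdb] at s2
  have : N d j1 = 0 := by
    have : N d j1 * (N b i * M i b + N b i' * M i' b + N b j1 * M j1 b) =
        N b j1 * (N d i * M i b + N d i' * M i' b + N d j1 * M j1 b) := by
      linear_combination (M i b) * p1 + (M i' b) * p2
    rw [s1, s2, mul_one, mul_zero] at this
    exact this
  rw [this] at hodd
  exact hodd Even.zero

end FourITwoAux

theorem fourITwo (h1 : FourITwoB) (h2 : StarBG) (h3 : RowDvd) : FourITwo := by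
  intro V _ _ G k k' M N π hC hH a a2 c ta haa hac hn k1 k2 k3 hd
  obtain ⟨i, i', j1, z0, hz0, hm, hj, d1, d2, ti, ti', tj1, e1, e2, e3, hcl, hk, m1, m2, hl⟩ :=
    h1 V G k k' M N π hC hH a a2 c ta haa hac hn k1 k2 k3 hd
  have ha : Clq G a := ⟨a2, haa, gtw_symm ta⟩
  have hg : gcls G a = {i, i', j1} := by
    ext u
    rw [mem_gcls, Finset.mem_insert, Finset.mem_insert, Finset.mem_singleton]
    constructor
    · exact hcl u
    · rintro (rfl | rfl | rfl)
      · exact ti
      · exact ti'
      · exact tj1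
  have hcard : (gcls G a).card = 3 := by
    rw [hg]
    exact Finset.card_eq_three.mpr ⟨i, i', j1, e1, e2, e3, rfl⟩
  have hcard2 : ((gcls G a) \ {a, a2}).card = 1 := by
    rw [Finset.card_sdiff_of_subset, hcard, Finset.card_pair haa.ne]
    intro u hu
    rw [Finset.mem_insert, Finset.mem_singleton] at hu
    rcases hu with rfl | rfl
    · exact mem_gcls.mpr (gtw_refl _)
    · exact mem_gcls.mpr ta
  obtain ⟨d, hdd⟩ := Finset.card_eq_one.mp hcard2
  have hmem : ∀ u, (GTw G u a ∧ ¬ (u = a ∨ u = a2)) ↔ u = d := by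
    intro u
    have h := Finset.ext_iff.mp hdd u
    rw [Finset.mem_sdiff, mem_gcls, Finset.mem_insert, Finset.mem_singleton,
      Finset.mem_singleton] at h
    exact h
  have hd0 := (hmem d).mpr rfl
  have hcl3 : ∀ u, GTw G u a → u = a ∨ u = a2 ∨ u = d := by
    intro u hu
    by_cases h : u = a ∨ u = a2
    · rcases h with h | h
      · exact Or.inl h
      · exact Or.inr (Or.inl h)
    · exact Or.inr (Or.inr ((hmem u).mp ⟨hu, h⟩))
  have hda : d ≠ a := fun h => hd0.2 (Or.inl h)
  have hda2 : d ≠ a2 := fun h => hd0.2 (Or.inr h)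
  have hii : G.Adj i i' := by
    rcases clq_adj2 ha ti ti' with h | h
    · exact absurd h e1
    · exact h
  obtain ⟨v, w, tv, tw, hvw, hkvw, -, -⟩ := hC.starM.s3 i i' hii (gtw_trans ti (gtw_symm ti')) hk
  have key : 2 ≤ k d a ∨ 2 ≤ k d a2 := by
    have hs := hC.symk
    rcases hcl3 v (gtw_trans tv ti) with h | h | h <;>
      rcases hcl3 w (gtw_trans tw ti) with h' | h' | h' <;> subst h <;> subst h'
    · exact absurd rfl hvw.ne
    · omega
    · left; rw [hs]; exact hkvw
    · rw [hs] at hkvw; omega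
    · exact absurd rfl hvw.ne
    · right; rw [hs]; exact hkvw
    · left; exact hkvw
    · right; exact hkvw
    · exact absurd rfl hvw.ne
  rcases key with hkd | hkd
  · exact FourITwoAux.main h2 h3 hC ha hd hac hn (gtw_refl a) hd0.1 hda hcl3 hkd hz0 hm hj d1 d2
      ti ti' tj1 e1 e2 e3 hcl m1 m2 hl
  · refine FourITwoAux.main h2 h3 hC (b := a2) (b2 := a) ha hd hac hn ta hd0.1 hda2 ?_ hkd hz0 hm
      hj d2 d1 ti ti' tj1 e1 e2 e3 hcl m1 m2 hl
    intro u hu
    rcases hcl3 u hu with h | h | h
    · exact Or.inr (Or.inl h)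
    · exact Or.inl h
    · exact Or.inr (Or.inr h)

end WGEven
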