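import Pool.Agent.Lib.MP_107652_al.Even.Spec

/-!
# MP_107652_al: two light edges in a clique class below a vertex, first part
-/

set_option autoImplicit false

open Finset

namespace WGEven

theorem fourITwoA (h1 : EFour) (h2 : ETwo) : FourITwoA := by
  intro V _ _ G k k' M N π h hH0 a a2 c hta hadj hac hnt hk1 hk2 hk3 hdom z hz
  have hcla : Clq G a := ⟨a2, hadj, gtw_symm hta⟩
  have hzc : GTw G z c := sup_tw h hz
  have hadjz : ∀ w, GTw G w a → G.Adj w z := fun w hw => adj_tw hac hnt hw hzc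
  have hge : ∀ u w, G.Adj u w → k' u w ≠ 1 → 2 ≤ k' u w := by
    intro u w huw hne1
    have := h.posk' u w huw
    omega
  -- the vertex j1
  have step1 : ∃ j1, GTw G j1 a ∧ (M j1 a ≠ 0 ∨ M j1 a2 ≠ 0) ∧ 2 ≤ k' j1 z := by
    by_contra hcon
    push Not at hcon
    refine h1 V G k k' M N π h a hcla a a2 (gtw_refl a) hta hadj hk1 (fun w => k' w z = 1) ?_ ?_
    · intro w hw hnz
      by_contra h6
      have h7 := hge w z (hadjz w hw) h6
      have h8 := hcon w hw hnz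
      omega
    · intro w w' hw hw' hww hJ hJ'
      apply hge w w' hww
      intro h6
      exact hH0 w w' z hww (hadjz w' hw') (hadjz w hw) h6 hJ' hJ
  obtain ⟨j1, hj1, hnz, hkj⟩ := step1
  -- the properties of the columns
  have hcol : ∀ b, b = a ∨ b = a2 → M j1 b ≠ 0 → |M z c| = 1 ∧ |mm G M z c| = 1 ∧
      (k' j1 z : ℤ) ∣ M j1 b ∧ ∀ j', GTw G j' b → j' ≠ j1 → k' j' z = 1 := by
    rintro b (rfl | rfl) hne
    · exact h2 V G k k' M N π h b c hcla hdom hac hnt hk2 j1 z ((sup_clq hcla).mpr ⟨hj1, hne⟩) hz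
        hkj
    · have hcl2 : Clq G b := clq_tw hcla hta
      exact h2 V G k k' M N π h b c hcl2 (gdom_trans hta.1 hdom)
        (adj_tw hac hnt hta (gtw_refl c)) (fun h6 => hnt (gtw_trans (gtw_symm hta) h6)) hk3 j1 z
        ((sup_clq hcl2).mpr ⟨gtw_trans hj1 (gtw_symm hta), hne⟩) hz hkj
  have hmain : |mm G M z c| = 1 ∧ ∀ j, GTw G j a → j ≠ j1 → k' j z = 1 := by
    rcases hnz with hne | hne
    · obtain ⟨-, e2, -, e4⟩ := hcol a (Or.inl rfl) hne
      exact ⟨e2, e4⟩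
    · obtain ⟨-, e2, -, e4⟩ := hcol a2 (Or.inr rfl) hne
      exact ⟨e2, fun j hj => e4 j (gtw_trans hj (gtw_symm hta))⟩
  have hdvd : ∀ b, b = a ∨ b = a2 → (k' j1 z : ℤ) ∣ M j1 b := by
    intro b hb
    by_cases h0 : M j1 b = 0
    · rw [h0]
      exact dvd_zero _
    · exact (hcol b hb h0).2.2.1
  refine ⟨j1, hj1, hkj, hmain.1, hnz, hdvd a (Or.inl rfl), hdvd a2 (Or.inr rfl), hmain.2, ?_⟩
  intro w w' hw hw' hne hne' hww
  apply hge w w' hww
  intro h6
  exact hH0 w w' z hww (hadjz w' hw') (hadjz w hw) h6 (hmain.2 w' hw' hne') (hmain.2 w hw hne)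

end WGEven
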