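import Pool.Agent.Lib.MP_107652_al.Even.Spec

/-!
# MP_107652_al: FourITwoB
-/

set_option autoImplicit false
set_option linter.unusedSectionVars false

open Finset

namespace WGEven

namespace FourITwoBAux

/-- a nonzero row proportional to two rows makes the minor of these vanish -/
theorem prop_zero {p q r s u v : ℤ} (huv : u ≠ 0 ∨ v ≠ 0) (h1 : u * q = p * v)
    (h2 : u * s = r * v) : p * s = r * q := by
  by_cases hu : u = 0
  · have hv : v ≠ 0 := by
      rcases huv with h | h
      · exact absurd hu h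
      · exact h
    rw [hu, zero_mul] at h1 h2
    have hp : p = 0 := by
      rcases mul_eq_zero.mp h1.symm with h | h
      · exact h
      · exact absurd h hv
    have hr : r = 0 := by
      rcases mul_eq_zero.mp h2.symm with h | h
      · exact h
      · exact absurd h hv
    rw [hp, hr, zero_mul, zero_mul]
  · apply mul_left_cancel₀ hu
    calc u * (p * s) = p * (u * s) := by ring
      _ = p * (r * v) := by rw [h2]
      _ = r * (p * v) := by ring
      _ = r * (u * q) := by rw [h1]
      _ = u * (r * q) := by ring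

theorem dvd_minor_left {q x y z w : ℤ} (h1 : q ∣ x) (h2 : q ∣ w) : q ∣ (x * y - z * w) :=
  dvd_sub (Dvd.dvd.mul_right h1 y) (Dvd.dvd.mul_left h2 z)

theorem dvd_minor_right {q x y z w : ℤ} (h1 : q ∣ y) (h2 : q ∣ z) : q ∣ (x * y - z * w) :=
  dvd_sub (Dvd.dvd.mul_left h1 x) (Dvd.dvd.mul_right h2 w)

theorem not_two_dvd : ¬ (2 : ℤ) ∣ 1 := by norm_num

end FourITwoBAux

open FourITwoBAux

theorem fourITwoB (h1 : FourITwoA) (h2 : StarBG) (h3 : Minor) (h4 : EThree) : FourITwoB := by
  intro V _ _ G k k' M N π hC hH0 a a2 c ht haa hac hnac kaa kac ka2c hdom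
  have hClq : Clq G a := ⟨a2, haa, gtw_symm ht⟩
  have hane : a ≠ a2 := fun h => by
    subst h
    exact G.loopless.irrefl _ haa
  obtain ⟨z0, hz0, -⟩ := sup_odd hC c
  obtain ⟨j1, tj1, hp, hmm, hnz, d1, d2, hl, hh⟩ :=
    h1 V G k k' M N π hC hH0 a a2 c ht haa hac hnac kaa kac ka2c hdom z0 hz0
  have hnp : ¬ ((k' j1 z0 : ℕ) : ℤ) ∣ 1 := by
    intro h
    have h5 : ((k' j1 z0 : ℕ) : ℤ) ≤ 1 := Int.le_of_dvd one_pos h
    have h6 : (2 : ℤ) ≤ ((k' j1 z0 : ℕ) : ℤ) := by exact_mod_cast hp
    omega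
  obtain ⟨i, i', ti, ti', hmin⟩ :=
    h3 V G k k' M N π hC a a a2 (gtw_refl a) ht hane _ hnp
  have hij1 : i ≠ j1 := by
    intro h
    rw [h] at hmin
    exact hmin (dvd_minor_left d1 d2)
  have hi'j1 : i' ≠ j1 := by
    intro h
    rw [h] at hmin
    exact hmin (dvd_minor_right d2 d1)
  have hmin0 : M i a * M i' a2 ≠ M i' a * M i a2 := by
    intro h
    apply hmin
    rw [h, sub_self]
    exact dvd_zero _
  have hii' : i ≠ i' := by
    intro h
    rw [h] at hmin0
    exact hmin0 rfl
  have adjc : ∀ u v, GTw G u a → GTw G v a → u ≠ v → G.Adj u v := by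
    intro u v hu hv huv
    rcases clq_adj2 hClq hu hv with h | h
    · exact absurd h huv
    · exact h
  have kii' : 2 ≤ k' i i' := hh i i' ti ti' hij1 hi'j1 (adjc i i' ti ti' hii')
  -- star lemma on the class
  have star : ∀ u v v', GTw G u a → GTw G v a → GTw G v' a → u ≠ v → u ≠ v' → v ≠ v' →
      2 ≤ k' u v → 2 ≤ k' u v' → (Even (M u a) ∧ Even (M u a2)) ∨
        (M u a * M v a2 = M v a * M u a2 ∧ M u a * M v' a2 = M v' a * M u a2) := by
    intro u v v' hu hv hv' n1 n2 n3 e1 e2
    exact h2 V G k k' M N π hC a hClq u v v' (adjc u v hu hv n1) (adjc u v' hu hv' n2)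
      (adjc v v' hv hv' n3) e1 e2 (Or.inl hu) a a2 (gdom_refl a) ht.2 haa kaa
  have hcls : ∀ u, GTw G u a → u = i ∨ u = i' ∨ u = j1 := by
    intro l tl
    by_contra hcon
    have hli : l ≠ i := fun h => hcon (Or.inl h)
    have hli' : l ≠ i' := fun h => hcon (Or.inr (Or.inl h))
    have hlj : l ≠ j1 := fun h => hcon (Or.inr (Or.inr h))
    have hk : ∀ u v, GTw G u a → GTw G v a → u ≠ v → u ≠ j1 → v ≠ j1 → 2 ≤ k' u v :=
      fun u v hu hv huv hu1 hv1 => hh u v hu hv hu1 hv1 (adjc u v hu hv huv)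
    have hev : ∀ u, GTw G u a → u ≠ j1 → Even (M u a) ∧ Even (M u a2) := by
      intro u tu hu1
      by_cases hui : u = i
      · subst hui
        rcases star u i' l tu ti' tl hii' hli.symm hli'.symm
          (hk u i' tu ti' hii' hu1 hi'j1) (hk u l tu tl hli.symm hu1 hlj) with h | h
        · exact h
        · exact absurd h.1 hmin0
      by_cases hui' : u = i'
      · subst hui'
        rcases star u i l tu ti tl hii'.symm hli'.symm hli.symm
          (hk u i tu ti hii'.symm hu1 hij1) (hk u l tu tl hli'.symm hu1 hlj) with h | h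
        · exact h
        · exact absurd h.1.symm hmin0
      rcases star u i i' tu ti ti' hui hui' hii'
        (hk u i tu ti hui hu1 hij1) (hk u i' tu ti' hui' hu1 hi'j1) with h | h
      · exact h
      · by_cases hz : M u a = 0 ∧ M u a2 = 0
        · rw [hz.1, hz.2]
          exact ⟨Even.zero, Even.zero⟩
        · exfalso
          have hz' : M u a ≠ 0 ∨ M u a2 ≠ 0 := by
            by_contra hcc
            push Not at hcc
            exact hz hcc
          exact hmin0 (prop_zero hz' h.1 h.2)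
    obtain ⟨x, y, tx, ty, hxy⟩ :=
      h3 V G k k' M N π hC a a a2 (gtw_refl a) ht hane 2 not_two_dvd
    by_cases hx : x = j1
    · by_cases hy : y = j1
      · apply hxy
        rw [hx, hy, sub_self]
        exact dvd_zero _
      · obtain ⟨e1, e2⟩ := hev y ty hy
        exact hxy (dvd_minor_right e2.two_dvd e1.two_dvd)
    · obtain ⟨e1, e2⟩ := hev x tx hx
      exact hxy (dvd_minor_left e1.two_dvd e2.two_dvd)
  have tz0 := sup_tw hC hz0
  -- if one of the two is heavy to `j1` the row of `j1` is even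
  have ha2c : G.Adj a2 c := adj_tw hac hnac ht (gtw_refl c)
  have hna2c : ¬ GTw G a2 c := fun h => hnac (gtw_trans (gtw_symm ht) h)
  have hj1even : ∀ l, GTw G l a → l ≠ j1 → 2 ≤ k' l j1 → Even (M j1 a) ∧ Even (M j1 a2) := by
    intro l tl hlj hk
    have hadj1 : G.Adj j1 l := adjc j1 l tj1 tl hlj.symm
    have hadj2 : G.Adj z0 l := (adj_tw hac hnac tl tz0).symm
    have hk' : 2 ≤ k' j1 l := by
      rw [hC.symk' j1 l]
      exact hk
    constructor
    · by_cases h0 : M j1 a = 0
      · rw [h0]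
        exact Even.zero
      · exact h4 V G k k' M N π hC a c hClq hdom hac hnac kac j1 z0 l
          ((sup_clq hClq).mpr ⟨tj1, h0⟩) hz0 hp hadj1 hadj2 hk'
    · by_cases h0 : M j1 a2 = 0
      · rw [h0]
        exact Even.zero
      · have hClq2 : Clq G a2 := clq_tw hClq ht
        exact h4 V G k k' M N π hC a2 c hClq2 (gdom_trans ht.1 hdom) ha2c hna2c ka2c j1 z0 l
          ((sup_clq hClq2).mpr ⟨gtw_trans tj1 (gtw_symm ht), h0⟩) hz0 hp hadj1 hadj2 hk'
  have kij1 : k' i j1 = 1 := by
    by_contra hne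
    have h5 : 1 ≤ k' i j1 := hC.posk' i j1 (adjc i j1 ti tj1 hij1)
    have h6 : 2 ≤ k' i j1 := by omega
    have hev : Even (M i a) ∧ Even (M i a2) := by
      rcases star i i' j1 ti ti' tj1 hii' hij1 hi'j1 kii' h6 with h | h
      · exact h
      · exact absurd h.1 hmin0
    have hevj := hj1even i ti hij1 h6
    obtain ⟨x, y, tx, ty, hxy⟩ :=
      h3 V G k k' M N π hC a a a2 (gtw_refl a) ht hane 2 not_two_dvd
    rcases hcls x tx with hx | hx | hx
    · rw [hx] at hxy
      exact hxy (dvd_minor_left hev.1.two_dvd hev.2.two_dvd)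
    · rcases hcls y ty with hy | hy | hy
      · rw [hy] at hxy
        exact hxy (dvd_minor_right hev.2.two_dvd hev.1.two_dvd)
      · rw [hx, hy, sub_self] at hxy
        exact hxy (dvd_zero _)
      · rw [hy] at hxy
        exact hxy (dvd_minor_right hevj.2.two_dvd hevj.1.two_dvd)
    · rw [hx] at hxy
      exact hxy (dvd_minor_left hevj.1.two_dvd hevj.2.two_dvd)
  have ki'j1 : k' i' j1 = 1 := by
    by_contra hne
    have h5 : 1 ≤ k' i' j1 := hC.posk' i' j1 (adjc i' j1 ti' tj1 hi'j1)
    have h6 : 2 ≤ k' i' j1 := by omega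
    have hev : Even (M i' a) ∧ Even (M i' a2) := by
      have h7 : 2 ≤ k' i' i := by
        rw [hC.symk' i' i]
        exact kii'
      rcases star i' i j1 ti' ti tj1 hii'.symm hi'j1 hij1 h7 h6 with h | h
      · exact h
      · exact absurd h.1.symm hmin0
    have hevj := hj1even i' ti' hi'j1 h6
    obtain ⟨x, y, tx, ty, hxy⟩ :=
      h3 V G k k' M N π hC a a a2 (gtw_refl a) ht hane 2 not_two_dvd
    rcases hcls x tx with hx | hx | hx
    · rcases hcls y ty with hy | hy | hy
      · rw [hx, hy, sub_self] at hxy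
        exact hxy (dvd_zero _)
      · rw [hy] at hxy
        exact hxy (dvd_minor_right hev.2.two_dvd hev.1.two_dvd)
      · rw [hy] at hxy
        exact hxy (dvd_minor_right hevj.2.two_dvd hevj.1.two_dvd)
    · rw [hx] at hxy
      exact hxy (dvd_minor_left hev.1.two_dvd hev.2.two_dvd)
    · rw [hx] at hxy
      exact hxy (dvd_minor_left hevj.1.two_dvd hevj.2.two_dvd)
  refine ⟨i, i', j1, z0, hz0, hmm, hp, d1, d2, ti, ti', tj1, hii', hij1, hi'j1, hcls, kii', kij1,
    ki'j1, ?_⟩
  intro z hz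
  obtain ⟨j, tj, hp', -, -, -, -, hl', hh'⟩ :=
    h1 V G k k' M N π hC hH0 a a2 c ht haa hac hnac kaa kac ka2c hdom z hz
  have hj : j = j1 := by
    rcases hcls j tj with h | h | h
    · exfalso
      have h5 := hh' i' j1 ti' tj1 (by rw [h]; exact hii'.symm) (by rw [h]; exact hij1.symm)
        (adjc i' j1 ti' tj1 hi'j1)
      omega
    · exfalso
      have h5 := hh' i j1 ti tj1 (by rw [h]; exact hii') (by rw [h]; exact hi'j1.symm)
        (adjc i j1 ti tj1 hij1)
      omega
    · exact h
  rw [hj] at hl'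
  exact ⟨hl' i ti hij1, hl' i' ti' hi'j1⟩

end WGEven
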