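import Pool.Agent.Lib.MP_107652_al.Even.Spec

/-!
# MP_107652_al: weighted girths between 3 and 6 in terms of forbidden configurations
-/

set_option autoImplicit false

open Finset

namespace WGEven

open WGirth WGTwin

namespace GirthCAux

variable {V : Type} {Γ : LGraph V}

/-- an edge is light or heavy -/
theorem dich (h : IsEven Γ) {s t : V} (hst : Γ.graph.Adj s t) :
    (half Γ s t = 1 ∧ hv Γ s t = 0) ∨ (2 ≤ half Γ s t ∧ hv Γ s t = 1) := by
  have h1 := h.label_eq hst
  have h2 := h.half_pos hst
  by_cases h3 : 3 ≤ Γ.label s(s, t)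
  · refine Or.inr ⟨by omega, ?_⟩
    unfold hv
    rw [if_pos h3]
  · refine Or.inl ⟨by omega, ?_⟩
    unfold hv
    rw [if_neg h3]

theorem hv_light (h : IsEven Γ) {s t : V} (hst : Γ.graph.Adj s t) (h1 : half Γ s t = 1) :
    hv Γ s t = 0 := by
  rcases dich h hst with h2 | h2
  · exact h2.2
  · omega

theorem hv_zero (h : IsEven Γ) {s t : V} (hst : Γ.graph.Adj s t) (h1 : hv Γ s t = 0) :
    half Γ s t = 1 := by
  rcases dich h hst with h2 | h2
  · exact h2.1
  · omega

theorem hv_le (s t : V) : hv Γ s t ≤ 1 := by
  unfold hv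
  split_ifs <;> omega

/-- a lower bound for the weighted girth -/
theorem le_girth {n : ℕ} (h : ∀ (v : V) (p : Γ.graph.Walk v v), p.IsCycle → n ≤ weight Γ p) :
    (n : ℕ∞) ≤ wgirth Γ := by
  unfold wgirth
  refine le_iInf fun v => le_iInf fun p => le_iInf fun hp => ?_
  exact_mod_cast h v p hp

/-- comparison of bounds -/
theorem absurd_le {n m : ℕ} (h1 : (n : ℕ∞) ≤ wgirth Γ) (h2 : wgirth Γ ≤ ((m : ℕ) : ℕ∞)) :
    n ≤ m := by
  exact_mod_cast le_trans h1 h2

end GirthCAux

open GirthCAux

theorem girthC (hU : CycUp) (hL : CycLow) : GirthC := by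
  intro V Γ hE
  obtain ⟨u3, u4, u5⟩ := hU V Γ
  have low := hL V Γ
  refine ⟨?_, ?_, ?_, ?_, ?_⟩
  · refine le_girth (n := 3) fun v p hp => ?_
    rcases low v p hp with h | ⟨a, b, c, -, -, -, h⟩ | ⟨a, b, c, d, -, -, -, -, -, -, h⟩ |
      ⟨a, b, c, d, e, -, -, -, -, -, -, -, -, -, -, h⟩ <;> omega
  · rintro ⟨a, b, c, hab, hbc, hac⟩
    refine le_trans (u3 a b c hab hbc hac.symm) ?_
    have h1 := hv_le (Γ := Γ) a b
    have h2 := hv_le (Γ := Γ) b c
    have h3 := hv_le (Γ := Γ) c a
    have h4 : 3 + (hv Γ a b + hv Γ b c + hv Γ c a) ≤ 6 := by omega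
    exact_mod_cast h4
  · constructor
    · intro h a b c hab hbc hac k1 k2 k3
      have e1 := hv_light hE hab k1
      have e2 := hv_light hE hbc k2
      have e3 := hv_light hE hac.symm (by rw [half_comm]; exact k3)
      have := absurd_le (n := 4) h (u3 a b c hab hbc hac.symm)
      omega
    · intro h
      refine le_girth (n := 4) fun v p hp => ?_
      rcases low v p hp with h1 | ⟨a, b, c, hab, hbc, hca, h1⟩ |
        ⟨a, b, c, d, -, -, -, -, -, -, h1⟩ |
        ⟨a, b, c, d, e, -, -, -, -, -, -, -, -, -, -, h1⟩
      · omega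
      · by_contra hcon
        exact h a b c hab hbc hca.symm (hv_zero hE hab (by omega)) (hv_zero hE hbc (by omega))
          (by rw [half_comm]; exact hv_zero hE hca (by omega))
      · omega
      · omega
  · constructor
    · intro h
      constructor
      · intro a b c hab hbc hac k1 k2
        have e1 := hv_light hE hab k1
        have e2 := hv_light hE hbc k2
        have e3 := hv_le (Γ := Γ) c a
        have := absurd_le (n := 5) h (u3 a b c hab hbc hac.symm)
        omega
      · intro a b c d hac hbd hab hbc hcd hda k1 k2 k3 k4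
        have e1 := hv_light hE hab k1
        have e2 := hv_light hE hbc k2
        have e3 := hv_light hE hcd k3
        have e4 := hv_light hE hda k4
        have := absurd_le (n := 5) h (u4 a b c d hac hbd hab hbc hcd hda)
        omega
    · rintro ⟨h, h'⟩
      refine le_girth (n := 5) fun v p hp => ?_
      rcases low v p hp with h1 | ⟨a, b, c, hab, hbc, hca, h1⟩ |
        ⟨a, b, c, d, hac, hbd, hab, hbc, hcd, hda, h1⟩ |
        ⟨a, b, c, d, e, -, -, -, -, -, -, -, -, -, -, h1⟩
      · omega
      · by_contra hcon
        by_cases z1 : hv Γ a b = 0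
        · by_cases z2 : hv Γ b c = 0
          · exact h a b c hab hbc hca.symm (hv_zero hE hab z1) (hv_zero hE hbc z2)
          · exact h c a b hca hab hbc.symm (hv_zero hE hca (by omega)) (hv_zero hE hab z1)
        · exact h b c a hbc hca hab.symm (hv_zero hE hbc (by omega)) (hv_zero hE hca (by omega))
      · by_contra hcon
        exact h' a b c d hac hbd hab hbc hcd hda (hv_zero hE hab (by omega))
          (hv_zero hE hbc (by omega)) (hv_zero hE hcd (by omega)) (hv_zero hE hda (by omega))
      · omega
  · constructor
    · intro h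
      refine ⟨?_, ?_, ?_⟩
      · intro a b c hab hbc hac k1
        have e1 := hv_light hE hab k1
        have e2 := hv_le (Γ := Γ) b c
        have e3 := hv_le (Γ := Γ) c a
        have := absurd_le (n := 6) h (u3 a b c hab hbc hac.symm)
        omega
      · intro a b c d hac hbd hab hbc hcd hda k1 k2 k3
        have e1 := hv_light hE hab k1
        have e2 := hv_light hE hbc k2
        have e3 := hv_light hE hcd k3
        have e4 := hv_le (Γ := Γ) d a
        have := absurd_le (n := 6) h (u4 a b c d hac hbd hab hbc hcd hda)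
        omega
      · intro a b c d e hac hbd hce hda' heb hab hbc hcd hde hea k1 k2 k3 k4 k5
        have e1 := hv_light hE hab k1
        have e2 := hv_light hE hbc k2
        have e3 := hv_light hE hcd k3
        have e4 := hv_light hE hde k4
        have e5 := hv_light hE hea k5
        have := absurd_le (n := 6) h (u5 a b c d e hac hbd hce hda' heb hab hbc hcd hde hea)
        omega
    · rintro ⟨h, h', h''⟩
      refine le_girth (n := 6) fun v p hp => ?_
      rcases low v p hp with h1 | ⟨a, b, c, hab, hbc, hca, h1⟩ |
        ⟨a, b, c, d, hac, hbd, hab, hbc, hcd, hda, h1⟩ |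
        ⟨a, b, c, d, e, hac, hbd, hce, hda', heb, hab, hbc, hcd, hde, hea, h1⟩
      · exact h1
      · by_contra hcon
        by_cases z1 : hv Γ a b = 0
        · exact h a b c hab hbc hca.symm (hv_zero hE hab z1)
        · by_cases z2 : hv Γ b c = 0
          · exact h b c a hbc hca hab.symm (hv_zero hE hbc z2)
          · have l1 := hv_le (Γ := Γ) a b
            have l2 := hv_le (Γ := Γ) b c
            exact h c a b hca hab hbc.symm (hv_zero hE hca (by omega))
      · by_contra hcon
        by_cases z1 : hv Γ a b = 0
        · by_cases z2 : hv Γ b c = 0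
          · by_cases z3 : hv Γ c d = 0
            · exact h' a b c d hac hbd hab hbc hcd hda (hv_zero hE hab z1) (hv_zero hE hbc z2)
                (hv_zero hE hcd z3)
            · exact h' d a b c (Ne.symm hbd) hac hda hab hbc hcd (hv_zero hE hda (by omega))
                (hv_zero hE hab z1) (hv_zero hE hbc z2)
          · exact h' c d a b (Ne.symm hac) (Ne.symm hbd) hcd hda hab hbc
              (hv_zero hE hcd (by omega)) (hv_zero hE hda (by omega)) (hv_zero hE hab z1)
        · exact h' b c d a hbd (Ne.symm hac) hbc hcd hda hab (hv_zero hE hbc (by omega))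
            (hv_zero hE hcd (by omega)) (hv_zero hE hda (by omega))
      · by_contra hcon
        exact h'' a b c d e hac hbd hce hda' heb hab hbc hcd hde hea (hv_zero hE hab (by omega))
          (hv_zero hE hbc (by omega)) (hv_zero hE hcd (by omega)) (hv_zero hE hde (by omega))
          (hv_zero hE hea (by omega))

end WGEven
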