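import Pool.Agent.Lib.MP_107652_al.Even.Spec

/-!
# MP_107652_al, Even/Minor: the minors of two columns of a class block, and the rows
-/

set_option autoImplicit false

open Finset

namespace WGEven

theorem minor : Minor := by
  intro V _ _ G k k' M N π h x a a2 ha ha2 hne q hq
  by_contra hcon
  push Not at hcon
  apply hq
  have ma : a ∈ gcls G x := mem_gcls.mpr ha
  have ma2 : a2 ∈ gcls G x := mem_gcls.mpr ha2
  have e1 : ∑ w ∈ gcls G x, N a w * M w a = 1 := by
    rw [h.clsNM x a a ma ma, if_pos rfl]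
  have e2 : ∑ w ∈ gcls G x, N a2 w * M w a2 = 1 := by
    rw [h.clsNM x a2 a2 ma2 ma2, if_pos rfl]
  have e3 : ∑ w ∈ gcls G x, N a2 w * M w a = 0 := by
    rw [h.clsNM x a2 a ma2 ma, if_neg hne.symm]
  have e4 : ∑ w ∈ gcls G x, N a w * M w a2 = 0 := by
    rw [h.clsNM x a a2 ma ma2, if_neg hne]
  have key : ∑ i ∈ gcls G x, ∑ j ∈ gcls G x,
      N a i * N a2 j * (M i a * M j a2 - M j a * M i a2) = 1 := by
    have s1 : ∀ i ∈ gcls G x, ∑ j ∈ gcls G x,
        N a i * N a2 j * (M i a * M j a2 - M j a * M i a2) = N a i * M i a := by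
      intro i _
      have t1 : ∀ j ∈ gcls G x, N a i * N a2 j * (M i a * M j a2 - M j a * M i a2) =
          N a i * M i a * (N a2 j * M j a2) - N a i * M i a2 * (N a2 j * M j a) := by
        intro j _
        ring
      rw [Finset.sum_congr rfl t1, Finset.sum_sub_distrib, ← Finset.mul_sum, ← Finset.mul_sum,
        e2, e3]
      ring
    rw [Finset.sum_congr rfl s1, e1]
  rw [← key]
  refine Finset.dvd_sum fun i hi => Finset.dvd_sum fun j hj => ?_
  exact Dvd.dvd.mul_left (hcon i j (mem_gcls.mp hi) (mem_gcls.mp hj)) _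

theorem rowDvd : RowDvd := by
  intro V _ _ G k k' M N π h j q hq
  have mj : j ∈ gcls G j := mem_gcls.mpr (gtw_refl j)
  have e1 : ∑ w ∈ gcls G j, M j w * N w j = 1 := by
    rw [h.clsMN j j j mj mj, if_pos rfl]
  rw [← e1]
  exact Finset.dvd_sum fun w hw => Dvd.dvd.mul_right (hq w (mem_gcls.mp hw)) _

end WGEven
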