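import Pool.Agent.Lib.MP_107652_al.Even.Spec

/-!
# MP_107652_al: a clique class satisfies the hypotheses of the theorems on complete graphs
-/

set_option autoImplicit false
set_option linter.unusedSectionVars false

open Finset

namespace WGEven

open WGirth WGTwin

namespace PairKAux

variable {V : Type} [Fintype V] [DecidableEq V] {G : SimpleGraph V} {k k' : V → V → ℕ}
  {M N : V → V → ℤ} {π : Equiv.Perm V}

/-- different members of a clique class are adjacent -/
theorem adj_cls {x : V} (hx : Clq G x) {v w : {w // w ∈ gcls G x}} (h : v ≠ w) :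
    G.Adj v.1 w.1 := by
  rcases clq_adj2 hx (mem_gcls.mp v.2) (mem_gcls.mp w.2) with h1 | h1
  · exact absurd (Subtype.ext h1) h
  · exact h1

/-- members of the class dominate `x` -/
theorem dom_cls {x : V} (v : {w // w ∈ gcls G x}) : GDom G x v.1 := (mem_gcls.mp v.2).2

/-- one direction -/
theorem dir (h : Core G k k' M N π) {x : V} (hx : Clq G x) :
    Dir (V := {w // w ∈ gcls G x}) (W := {w // w ∈ gcls G x})
      (fun v w => k v.1 w.1) (fun v w => k' v.1 w.1) (fun i v => M i.1 v.1) where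
  heis := by
    intro a b hab h1 i j hij
    have h2 := h.heisM a.1 b.1 (adj_cls hx hab) i.1 j.1 (adj_cls hx hij)
    have h3 : k a.1 b.1 = 1 := h1
    rw [h3, Nat.cast_one, one_mul] at h2
    exact h2
  star1 := by
    intro i j hij h2
    have hadj : G.Adj i.1 j.1 := adj_cls hx hij
    have hi : GTw G i.1 x := mem_gcls.mp i.2
    have hj : GTw G j.1 x := mem_gcls.mp j.2
    obtain ⟨ha, hb⟩ := h.starM.s1 x hx i.1 j.1 hadj h2 (Or.inl hi)
    refine ⟨fun v => ha v.1 (dom_cls v), fun v w hvw hk => ?_, ?_⟩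
    · exact hb v.1 w.1 (dom_cls v) (dom_cls w) (adj_cls hx hvw) hk
    · obtain ⟨v, w, hv, hw, hvw, hk, e1, e2⟩ :=
        h.starM.s3 i.1 j.1 hadj (gtw_trans hi (gtw_symm hj)) h2
      exact ⟨⟨v, mem_gcls.mpr (gtw_trans hv hi)⟩, ⟨w, mem_gcls.mpr (gtw_trans hw hi)⟩,
        fun e => hvw.ne (congrArg Subtype.val e), hk, e1, e2⟩
  star2 := by
    intro i j l hij hil hjl h1 h2
    obtain ⟨ha, hb⟩ := h.starM.s2 x hx i.1 j.1 l.1 (adj_cls hx hij) (adj_cls hx hil)
      (adj_cls hx hjl) h1 h2 (Or.inl (mem_gcls.mp i.2))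
    exact ⟨fun v => ha v.1 (dom_cls v), fun v w hvw hk =>
      hb v.1 w.1 (dom_cls v) (dom_cls w) (adj_cls hx hvw) hk⟩

/-- the product of the two blocks -/
theorem prod (h : Core G k k' M N π) (x : V) (v w : {w // w ∈ gcls G x}) :
    ∑ i : {w // w ∈ gcls G x}, N v.1 i.1 * M i.1 w.1 = if v = w then 1 else 0 := by
  have h1 := h.clsNM x v.1 w.1 v.2 w.2
  rw [← Finset.sum_coe_sort (gcls G x) (fun i => N v.1 i * M i w.1)] at h1
  rw [h1]
  by_cases e : v = w
  · rw [if_pos e, if_pos (congrArg Subtype.val e)]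
  · rw [if_neg e, if_neg (fun e' => e (Subtype.ext e'))]

end PairKAux

open PairKAux in
theorem pairK : PairK := by
  intro V _ _ G k k' M N π h x hx
  exact
    { symV := fun v w => h.symk v.1 w.1
      symW := fun v w => h.symk' v.1 w.1
      posV := fun v w hvw => h.posk _ _ (adj_cls hx hvw)
      posW := fun v w hvw => h.posk' _ _ (adj_cls hx hvw)
      nm := fun v w => PairKAux.prod h x v w
      mn := fun v w => PairKAux.prod h.swap x v w
      dirM := PairKAux.dir h hx
      dirN := PairKAux.dir h.swap hx }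

end WGEven
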