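import Pool.Agent.Lib.MP_107652_al.Even.Spec
import Pool.Agent.Lib.MP_107652_al.Twin.UnitSym
import Pool.Agent.Lib.MP_107652_al.Twin.ClassInv
import Pool.Agent.Lib.MP_107652_al.Twin.DomTr

/-!
# MP_107652_al, even Artin groups: PiExG
-/

set_option autoImplicit false

namespace WGEven

open WGirth WGTwin

theorem piExG (h1 : UnitColG) : PiExG := by
  intro V _ _ Γ Λ M N eΓ eΛ htd
  classical
  have h2 : UnitSym := unitSym (classInv domTr)
  have h3 : TDsymm := tDsymm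
  have h4 : DomTr := domTr
  have htd' : TD Λ Γ N M := h3 V Γ Λ M N htd
  have hdom : ∀ v w, Dom Γ v w ↔ Dom Λ v w := by
    intro v w
    unfold Dom
    simp only [htd.adj]
  have htw : ∀ v w, Tw Γ v w ↔ Tw Λ v w := by
    intro v w
    unfold Tw
    rw [hdom, hdom]
  have trefl : ∀ v, Tw Γ v v := fun v => ⟨(h4 V Γ).1 v, (h4 V Γ).1 v⟩
  have tsymm : ∀ {v w}, Tw Γ v w → Tw Γ w v := fun h => ⟨h.2, h.1⟩
  have ttrans : ∀ {u v w}, Tw Γ u v → Tw Γ v w → Tw Γ u w :=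
    fun h h' => ⟨(h4 V Γ).2 _ _ _ h.1 h'.1, (h4 V Γ).2 _ _ _ h'.2 h.2⟩
  let R : V → V → Prop := fun a v => Tw Γ v a ∧ ∀ x, Tw Γ x a → x ≠ a → N x v = 0
  have R1 : ∀ a v, R a v → M v a * N a v = 1 ∧ ∀ w, Tw Γ w a → w ≠ v → M w a = 0 :=
    fun a v h => h2 V Γ Λ M N htd a v h.1 h.2
  have R2 : ∀ a v, Tw Γ v a → (∀ x, Tw Γ x v → x ≠ v → M x a = 0) → R a v := by
    intro a v hva hx
    have := h2 V Λ Γ N M htd' v a ((htw _ _).1 (tsymm hva))
      (fun x hx1 hx2 => hx x ((htw _ _).2 hx1) hx2)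
    exact ⟨hva, fun x hx1 hx2 => this.2 x ((htw _ _).1 (ttrans hx1 (tsymm hva))) hx2⟩
  have uniqV : ∀ a v v', R a v → R a v' → v = v' := by
    intro a v v' h h'
    by_contra hne
    have e1 := (R1 a v h).2 v' h'.1 (Ne.symm hne)
    have e2 := (R1 a v' h').1
    rw [e1, zero_mul] at e2
    exact zero_ne_one e2
  have uniqA : ∀ a a' v, R a v → R a' v → a = a' := by
    intro a a' v h h'
    by_contra hne
    have e1 := h.2 a' (ttrans (tsymm h'.1) h.1) (Ne.symm hne)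
    have e2 := (R1 a' v h').1
    rw [e1, mul_zero] at e2
    exact zero_ne_one e2
  have exV : ∀ a, Heavy Γ a → ∃ v, R a v ∧ Heavy Λ v := by
    intro a ha
    obtain ⟨v, t1, t2, t3⟩ := h1 V Γ Λ M N eΓ eΛ htd a ha
    exact ⟨v, ⟨t1, t3⟩, t2⟩
  have exA : ∀ v, Heavy Λ v → ∃ a, R a v ∧ Heavy Γ a := by
    intro v hv
    obtain ⟨a, t1, t2, t3⟩ := h1 V Λ Γ N M eΛ eΓ htd' v hv
    exact ⟨a, R2 a v (tsymm ((htw _ _).2 t1)) (fun x hx1 hx2 => t3 x ((htw _ _).1 hx1) hx2), t2⟩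
  let s : Setoid V := ⟨Tw Γ, trefl, tsymm, ttrans⟩
  have hq : ∀ {a b : V}, (Quotient.mk s a = Quotient.mk s b) ↔ Tw Γ a b := Quotient.eq
  have key : ∀ c : Quotient s, ∃ e : Equiv.Perm {a // Quotient.mk s a = c},
      (∀ a, Heavy Γ a.1 ↔ Heavy Λ (e a).1) ∧ ∀ a, Heavy Γ a.1 → R a.1 (e a).1 := by
    intro c
    choose f hf using fun a : {x : {a // Quotient.mk s a = c} // Heavy Γ x.1} => exV a.1.1 a.2
    let F : {x : {a // Quotient.mk s a = c} // Heavy Γ x.1} →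
        {x : {a // Quotient.mk s a = c} // Heavy Λ x.1} :=
      fun a => ⟨⟨f a, (hq.2 (hf a).1.1).trans a.1.2⟩, (hf a).2⟩
    have hF : Function.Bijective F := by
      constructor
      · intro a b hab
        have hfab : f a = f b := congrArg (fun x => x.1.1) hab
        have h := (hf a).1
        rw [hfab] at h
        exact Subtype.ext (Subtype.ext (uniqA _ _ _ h (hf b).1))
      · intro v
        obtain ⟨a, ha, ha'⟩ := exA v.1.1 v.2
        refine ⟨⟨⟨a, (hq.2 (tsymm ha.1)).trans v.1.2⟩, ha'⟩, ?_⟩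
        exact Subtype.ext (Subtype.ext (uniqV _ _ _ (hf _).1 ha))
    let E := Equiv.ofBijective F hF
    refine ⟨E.extendSubtype, ?_, ?_⟩
    · intro a
      constructor
      · intro ha
        exact E.extendSubtype_mem a ha
      · intro ha
        by_contra hna
        exact E.extendSubtype_not_mem a hna ha
    · intro a ha
      rw [E.extendSubtype_apply_of_mem a ha]
      exact (hf ⟨a, ha⟩).1
  choose e he1 he2 using key
  refine ⟨Equiv.ofFiberEquiv (f := Quotient.mk s) (g := Quotient.mk s) e, ?_, ?_, ?_⟩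
  · intro a
    exact hq.1 (Equiv.ofFiberEquiv_map e a)
  · intro a
    exact he1 _ ⟨a, rfl⟩
  · intro a ha
    exact (R1 _ _ (he2 _ ⟨a, rfl⟩ ha)).1

end WGEven
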