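import Pool.Agent.Lib.MP_107652_al.Even.Spec

/-!
# MP_107652_al: even Artin groups, `SixA`

No triangle with a light side: the property passes from `k'` to `k`.
-/

set_option autoImplicit false
set_option linter.unusedSectionVars false

open Finset

namespace WGEven

namespace SixAAux

variable {V : Type} [Fintype V] [DecidableEq V] {G : SimpleGraph V} {k k' : V → V → ℕ}
  {M N : V → V → ℤ} {π : Equiv.Perm V}

/-- an adjacent pair with a common neighbour is heavy -/
theorem heavy (h : Core G k k' M N π) (h2 : H2 G k') {j w u : V} (hjw : G.Adj j w)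
    (hwu : G.Adj w u) (hju : G.Adj j u) : 2 ≤ k' j w := by
  have h1 := h.posk' j w hjw
  by_contra hc
  exact h2 j w u hjw hwu hju (by omega)

/-- a clique vertex has a twin different from a given vertex -/
theorem other {a : V} (ha : Clq G a) (j : V) : ∃ u, GTw G u a ∧ u ≠ j := by
  obtain ⟨y, hay, hty⟩ := ha
  by_cases hj : a = j
  · refine ⟨y, gtw_symm hty, ?_⟩
    rintro rfl
    exact hay.ne hj
  · exact ⟨a, gtw_refl a, hj⟩

/-- the twin case -/
theorem twin (h4 : EFour) (h : Core G k k' M N π) (h2 : H2 G k') {a b c : V} (hab : G.Adj a b)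
    (hbc : G.Adj b c) (hac : G.Adj a c) (hk : k a b = 1) (ht : GTw G a b) : False := by
  have ha : Clq G a := ⟨b, hab, ht⟩
  refine h4 V G k k' M N π h a ha a b (gtw_refl a) (gtw_symm ht) hab hk (fun _ => True)
    (fun _ _ _ => trivial) ?_
  intro w w' hw hw' hww _ _
  by_cases hc : GTw G c a
  · -- one of `a`, `b`, `c` is different from `w`, `w'`
    have hex : ∃ u, GTw G u a ∧ u ≠ w ∧ u ≠ w' := by
      by_contra hcon
      push Not at hcon
      have e1 := hcon a (gtw_refl a)
      have e2 := hcon b (gtw_symm ht)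
      have e3 := hcon c hc
      have n1 := hab.ne
      have n2 := hbc.ne
      have n3 := hac.ne
      by_cases f1 : a = w
      · have f2 : b = w' := e2 (fun hh => n1 (f1.trans hh.symm))
        have f3 : c = w' := e3 (fun hh => n3 (f1.trans hh.symm))
        exact n2 (f2.trans f3.symm)
      · have g1 : a = w' := e1 f1
        by_cases f2 : b = w
        · have f3 : c = w' := e3 (fun hh => n2 (f2.trans hh.symm))
          exact n3 (g1.trans f3.symm)
        · exact n1 (g1.trans (e2 f2).symm)
    obtain ⟨u, hu, hu1, hu2⟩ := hex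
    have a1 : G.Adj w u := by
      rcases clq_adj2 ha hw hu with h1 | h1
      · exact absurd h1.symm hu1
      · exact h1
    have a2 : G.Adj w' u := by
      rcases clq_adj2 ha hw' hu with h1 | h1
      · exact absurd h1.symm hu2
      · exact h1
    exact heavy h h2 hww a2 a1
  · have hn : ¬ GTw G a c := fun hh => hc (gtw_symm hh)
    exact heavy h h2 hww (adj_tw hac hn hw' (gtw_refl c)) (adj_tw hac hn hw (gtw_refl c))

/-- twins of adjacent non-twins with a common neighbour are heavy -/
theorem cross (h : Core G k k' M N π) (h2 : H2 G k') {a b c : V} (hab : G.Adj a b)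
    (hbc : G.Adj b c) (hac : G.Adj a c) (hn : ¬ GTw G a b) {j w : V} (hj : GTw G j a)
    (hw : GTw G w b) : 2 ≤ k' j w := by
  have hjw : G.Adj j w := adj_tw hab hn hj hw
  by_cases hca : GTw G c a
  · have ha : Clq G a := ⟨c, hac, gtw_symm hca⟩
    obtain ⟨u, hu, huj⟩ := other ha j
    have a1 : G.Adj j u := by
      rcases clq_adj2 ha hj hu with h1 | h1
      · exact absurd h1.symm huj
      · exact h1
    exact heavy h h2 hjw (adj_tw hab hn hu hw).symm a1
  · by_cases hcb : GTw G c b
    · have hb : Clq G b := ⟨c, hbc, gtw_symm hcb⟩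
      obtain ⟨u, hu, huw⟩ := other hb w
      have a1 : G.Adj w u := by
        rcases clq_adj2 hb hw hu with h1 | h1
        · exact absurd h1.symm huw
        · exact h1
      exact heavy h h2 hjw a1 (adj_tw hab hn hj hu)
    · exact heavy h h2 hjw (adj_tw hbc (fun hh => hcb (gtw_symm hh)) hw (gtw_refl c))
        (adj_tw hac (fun hh => hca (gtw_symm hh)) hj (gtw_refl c))

end SixAAux

open SixAAux in
theorem sixA (h1 : EOne) (h2 : ETwo) (h4 : EFour) : SixA := by
  intro V _ _ G k k' M N π hC hH a b c hab hbc hac hk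
  by_cases ht : GTw G a b
  · exact twin h4 hC hH hab hbc hac hk ht
  · obtain ⟨j, hj, -⟩ := sup_odd hC a
    obtain ⟨w, hw, -⟩ := sup_odd hC b
    have hjw := cross hC hH hab hbc hac ht (sup_tw hC hj) (sup_tw hC hw)
    by_cases hba : Clq G a ∧ GDom G a b
    · obtain ⟨-, -, -, h5⟩ := h2 V G k k' M N π hC a b hba.1 hba.2 hab ht hk j w hj hw hjw
      obtain ⟨u, hu, huj⟩ := other hba.1 j
      have e1 := h5 u hu huj
      have e2 := cross hC hH hab hbc hac ht hu (sup_tw hC hw)
      omega
    · by_cases hbb : Clq G b ∧ GDom G b a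
      · have ht' : ¬ GTw G b a := fun hh => ht (gtw_symm hh)
        have hwj : 2 ≤ k' w j := by
          rw [hC.symk' w j]
          exact hjw
        have hk' : k b a = 1 := by
          rw [hC.symk b a]
          exact hk
        obtain ⟨-, -, -, h5⟩ := h2 V G k k' M N π hC b a hbb.1 hbb.2 hab.symm ht' hk' w j hw hj hwj
        obtain ⟨u, hu, huw⟩ := other hbb.1 w
        have e1 := h5 u hu huw
        have e2 := cross hC hH hab.symm hac hbc ht' hu (sup_tw hC hj)
        omega
      · have e1 := h1 V G k k' M N π hC a b hab ht hk hba hbb j w hj hw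
        omega

end WGEven
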