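import Pool.Agent.Lib.MP_107652_al.Even.Spec

/-!
# MP_107652_al: quadrilaterals with three light sides and light pentagons
-/

set_option autoImplicit false

namespace WGEven

namespace SixBAux

variable {V : Type} [Fintype V] [DecidableEq V] {G : SimpleGraph V} {k k' : V → V → ℕ}
  {M N : V → V → ℤ} {π : Equiv.Perm V}

omit [Fintype V] [DecidableEq V] in
theorem incomp {x y p : V} (hp : G.Adj x p) (h1 : p ≠ y) (h2 : ¬ G.Adj p y) : ¬ GDom G x y := by
  intro h
  rcases h p hp with h3 | h3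
  · exact h1 h3
  · exact h2 h3

/-- a side with incomparable ends -/
theorem side (h : EOne) (hC : Core G k k' M N π) {x y p q : V} (hxy : G.Adj x y)
    (hp : G.Adj x p) (hp1 : p ≠ y) (hp2 : ¬ G.Adj p y) (hq : G.Adj y q) (hq1 : q ≠ x)
    (hq2 : ¬ G.Adj q x) {j w : V} (hj : Sup G M π x j) (hw : Sup G M π y w) :
    G.Adj j w ∧ (k x y = 1 → k' j w = 1) := by
  have n1 : ¬ GDom G x y := incomp hp hp1 hp2
  have n2 : ¬ GDom G y x := incomp hq hq1 hq2
  have nt : ¬ GTw G x y := fun ht => n1 ht.1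
  exact ⟨adj_tw hxy nt (sup_tw hC hj) (sup_tw hC hw), fun hl =>
    h V G k k' M N π hC x y hxy nt hl (fun h1 => n1 h1.2) (fun h1 => n2 h1.2) j w hj hw⟩

/-- elements of the supports of two nonadjacent different vertices are different -/
theorem sup_ne (hC : Core G k k' M N π) {x y j w : V} (hne : x ≠ y) (hxy : ¬ G.Adj x y)
    (hj : Sup G M π x j) (hw : Sup G M π y w) : j ≠ w := by
  rintro rfl
  have ht : GTw G x y := gtw_trans (gtw_symm (sup_tw hC hj)) (sup_tw hC hw)
  have hx : ¬ Clq G x := by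
    intro hc
    rcases clq_adj hc (gtw_symm ht) with h1 | h1
    · exact hne h1.symm
    · exact hxy h1.symm
  have hy : ¬ Clq G y := by
    intro hc
    rcases clq_adj hc ht with h1 | h1
    · exact hne h1
    · exact hxy h1
  rw [sup_rig hx] at hj
  rw [sup_rig hy] at hw
  exact hne (π.injective (hj.symm.trans hw))

end SixBAux

open SixBAux

theorem sixB (h : EOne) : SixB := by
  intro V _ _ G k k' M N π hC hH hP a b c d hac hbd hab hbc hcd hda lab lbc lcd
  have nac : ¬ G.Adj a c := fun hh => hH a b c hab hbc hh lab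
  have nbd : ¬ G.Adj b d := fun hh => hH b c d hbc hcd hh lbc
  have nca : ¬ G.Adj c a := fun hh => nac hh.symm
  have ndb : ¬ G.Adj d b := fun hh => nbd hh.symm
  obtain ⟨a0, ha0, -⟩ := sup_odd hC a
  obtain ⟨b0, hb0, -⟩ := sup_odd hC b
  obtain ⟨c0, hc0, -⟩ := sup_odd hC c
  obtain ⟨d0, hd0, -⟩ := sup_odd hC d
  have sab := side h hC hab hda.symm hbd.symm ndb hbc hac.symm nca ha0 hb0
  have sbc := side h hC hbc hab.symm hac nac hcd hbd.symm ndb hb0 hc0
  have scd := side h hC hcd hbc.symm hbd nbd hda hac nac hc0 hd0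
  have sda := side h hC hda hcd.symm hac.symm nca hab hbd nbd hd0 ha0
  exact hP a0 b0 c0 d0 (sup_ne hC hac nac ha0 hc0) (sup_ne hC hbd nbd hb0 hd0) sab.1 sbc.1 scd.1
    sda.1 (sab.2 lab) (sbc.2 lbc) (scd.2 lcd)

theorem sixC (h : EOne) : SixC := by
  intro V _ _ G k k' M N π hC hH hP a b c d e hac hbd hce hda' heb hab hbc hcd hde hea
    lab lbc lcd lde lea
  have nac : ¬ G.Adj a c := fun hh => hH a b c hab hbc hh lab
  have nbd : ¬ G.Adj b d := fun hh => hH b c d hbc hcd hh lbc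
  have nce : ¬ G.Adj c e := fun hh => hH c d e hcd hde hh lcd
  have nda : ¬ G.Adj d a := fun hh => hH d e a hde hea hh lde
  have neb : ¬ G.Adj e b := fun hh => hH e a b hea hab hh lea
  have nca : ¬ G.Adj c a := fun hh => nac hh.symm
  have ndb : ¬ G.Adj d b := fun hh => nbd hh.symm
  have nec : ¬ G.Adj e c := fun hh => nce hh.symm
  have nad : ¬ G.Adj a d := fun hh => nda hh.symm
  have nbe : ¬ G.Adj b e := fun hh => neb hh.symm
  obtain ⟨a0, ha0, -⟩ := sup_odd hC a
  obtain ⟨b0, hb0, -⟩ := sup_odd hC b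
  obtain ⟨c0, hc0, -⟩ := sup_odd hC c
  obtain ⟨d0, hd0, -⟩ := sup_odd hC d
  obtain ⟨e0, he0, -⟩ := sup_odd hC e
  have sab := side h hC hab hea.symm heb neb hbc hac.symm nca ha0 hb0
  have sbc := side h hC hbc hab.symm hac nac hcd hbd.symm ndb hb0 hc0
  have scd := side h hC hcd hbc.symm hbd nbd hde hce.symm nec hc0 hd0
  have sde := side h hC hde hcd.symm hce nce hea hda'.symm nad hd0 he0
  have sea := side h hC hea hde.symm hda' nda hab heb.symm nbe he0 ha0
  exact hP a0 b0 c0 d0 e0 (sup_ne hC hac nac ha0 hc0) (sup_ne hC hbd nbd hb0 hd0)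
    (sup_ne hC hce nce hc0 he0) (sup_ne hC hda' nda hd0 ha0) (sup_ne hC heb neb he0 hb0)
    sab.1 sbc.1 scd.1 sde.1 sea.1 (sab.2 lab) (sbc.2 lbc) (scd.2 lcd) (sde.2 lde) (sea.2 lea)

end WGEven
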