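import Pool.Agent.Lib.MP_107652_al.Even.Spec
import Pool.Agent.Lib.MP_107652_al.LemB

/-!
# MP_107652_al, Even/StarBG
-/

set_option autoImplicit false

namespace WGEven

open WGirth WGTwin

theorem starBG : StarBG := by
  intro V _ _ G k k' M N π h x hx i j l hij hil hjl kij kil hor u v hu hv huv kuv
  have s1 := h.starM.s1 x hx i j hij kij (by
    rcases hor with e | e
    · exact Or.inl e
    · exact Or.inr e.1)
  have s2 := h.starM.s1 x hx i l hil kil (by
    rcases hor with e | e
    · exact Or.inl e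
    · exact Or.inr e.2)
  have s3 := h.starM.s2 x hx i j l hij hil hjl kij kil hor
  have hdet : ∀ m, G.Adj i m → 2 ≤ k' i m → |M i u * M m v - M m u * M i v| ≠ 1 := by
    intro m him kim habs
    have hd := h.heisM u v huv i m him
    rw [kuv, Nat.cast_one, one_mul] at hd
    have h1 : (k' i m : ℤ) ∣ 1 := by
      rw [← habs]
      exact (dvd_abs _ _).mpr hd
    have h2 := Int.le_of_dvd one_pos h1
    have h3 : (2 : ℤ) ≤ k' i m := by exact_mod_cast kim
    omega
  exact lemB (M i u) (M i v) (M j u) (M j v) (M l u) (M l v) (s1.1 u hu) (s1.1 v hv)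
    (s1.2 u v hu hv huv kuv) (s2.1 u hu) (s2.1 v hv) (s2.2 u v hu hv huv kuv) (s3.1 u hu)
    (s3.1 v hv) (s3.2 u v hu hv huv kuv) (hdet j hij kij) (hdet l hil kil)

end WGEven
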