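import Pool.Agent.Lib.MP_107652_al.Even.Spec
import Pool.Agent.Lib.MP_107652_al.Twin.UnitCore
import Pool.Agent.Lib.MP_107652_al.Twin.ClassInv
import Pool.Agent.Lib.MP_107652_al.Twin.DomTr

/-!
# MP_107652_al, UnitColG: heavy vertices, adjacent twins allowed
-/

set_option autoImplicit false

open Finset

namespace WGEven

open WGirth WGTwin

namespace UnitColGAux

variable {V : Type}

theorem tw_refl (h3 : DomTr) (Γ : LGraph V) (a : V) : Tw Γ a a :=
  ⟨(h3 V Γ).1 a, (h3 V Γ).1 a⟩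

theorem tw_symm {Γ : LGraph V} {a b : V} (h : Tw Γ a b) : Tw Γ b a := ⟨h.2, h.1⟩

theorem tw_trans (h3 : DomTr) {Γ : LGraph V} {a b c : V} (h : Tw Γ a b) (h' : Tw Γ b c) :
    Tw Γ a c :=
  ⟨(h3 V Γ).2 a b c h.1 h'.1, (h3 V Γ).2 c b a h'.2 h.2⟩

theorem dom_iff {Γ Λ : LGraph V} (hadj : ∀ a b, Γ.graph.Adj a b ↔ Λ.graph.Adj a b) (a b : V) :
    Dom Γ a b ↔ Dom Λ a b := by
  unfold Dom
  simp only [hadj]

theorem tw_iff {Γ Λ : LGraph V} (hadj : ∀ a b, Γ.graph.Adj a b ↔ Λ.graph.Adj a b) (a b : V) :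
    Tw Γ a b ↔ Tw Λ a b := by
  unfold Tw
  rw [dom_iff hadj, dom_iff hadj]

theorem mem_cls [Fintype V] (Γ : LGraph V) (x a : V) : x ∈ cls Γ a ↔ Tw Γ x a := by
  classical
  unfold cls
  simp only [Finset.mem_filter, Finset.mem_univ, true_and]

/-- if `a` has no adjacent twin then its class is independent -/
theorem indep {Γ : LGraph V} {a : V} (h : ∀ x, Tw Γ x a → ¬ Γ.graph.Adj x a) {x y : V}
    (hx : Tw Γ x a) (hy : Tw Γ y a) : ¬ Γ.graph.Adj x y := by
  intro hxy
  rcases hx.1 y hxy with h1 | h1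
  · subst h1
    exact h x hx hxy
  · exact h y hy h1

theorem two_le_half {Λ : LGraph V} (hΛ : IsEven Λ) {p : ℕ} (hp : p.Prime) {v u : V}
    (hadj : Λ.graph.Adj v u) (hd : p ∣ half Λ v u) : 2 ≤ half Λ v u := by
  have h1 := hΛ.half_pos hadj
  exact hp.two_le.trans (Nat.le_of_dvd h1 hd)

end UnitColGAux

open UnitColGAux in
/-- **UnitColG.** -/
theorem unitColG : UnitColG := by
  intro V _ _ Γ Λ M N hΓ hΛ td a ha
  have h3 := domTr
  have h2 := classInv domTr
  have h1 := unitCore h2 domTr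
  obtain ⟨hat, b, hab, hb2⟩ := ha
  obtain ⟨p, hp, hpd⟩ := Nat.exists_prime_and_dvd (show half Γ a b ≠ 1 by omega)
  -- the first part of `Heavy Λ v`
  have hfirst : ∀ v, Tw Γ v a → ∀ x, Tw Λ x v → ¬ Λ.graph.Adj x v := by
    intro v hv x hx hxv
    have hx' : Tw Γ x v := (tw_iff td.adj x v).mpr hx
    exact indep hat (tw_trans h3 hx' hv) hv ((td.adj x v).mpr hxv)
  by_cases hA : ∃ x ∈ cls Γ a, x ≠ a
  · obtain ⟨v, hv, u, _, hvu, hd, hN⟩ := h1 V Γ Λ M N td p a b hp hab hpd
      (fun x hx y hy => indep hat ((mem_cls Γ x a).mp hx) ((mem_cls Γ y a).mp hy)) hA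
    have hv' := (mem_cls Γ v a).mp hv
    have hvu' := (td.adj v u).mp hvu
    exact ⟨v, hv', ⟨hfirst v hv', u, hvu', two_le_half hΛ hp hvu' hd⟩,
      fun x hx hxa => hN x ((mem_cls Γ x a).mpr hx) hxa⟩
  · have hA' : ∀ x, Tw Γ x a → x = a := by
      intro x hx
      by_contra h
      exact hA ⟨x, (mem_cls Γ x a).mpr hx, h⟩
    refine ⟨a, tw_refl h3 Γ a, ⟨hfirst a (tw_refl h3 Γ a), ?_⟩,
      fun x hx hxa => absurd (hA' x hx) hxa⟩
    have hab' := (td.adj a b).mp hab
    have htab : ¬ Tw Γ b a := fun h => hab.ne (hA' b h).symm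
    have hca : cls Γ a = {a} := by
      ext x
      rw [mem_cls, Finset.mem_singleton]
      exact ⟨hA' x, fun h => h ▸ tw_refl h3 Γ a⟩
    have ea := (h2 V Γ Λ M N td a a a ((mem_cls Γ a a).mpr (tw_refl h3 Γ a))
      ((mem_cls Γ a a).mpr (tw_refl h3 Γ a))).1
    rw [hca, Finset.sum_singleton, if_pos rfl] at ea
    by_contra hcon
    push Not at hcon
    -- all elements of the class of `b` are adjacent to `a`, with light edges
    have hlight : ∀ j, Tw Γ j b → Λ.graph.Adj j a ∧ half Λ j a = 1 := by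
      intro j hj
      have hja : Γ.graph.Adj a j := by
        rcases hj.2 a hab.symm with h | h
        · exact absurd (h ▸ hj : Tw Γ a b) (fun h' => htab (tw_symm h'))
        · exact h
      have hja' := (td.adj a j).mp hja
      have h5 := hcon j hja'
      have h6 := hΛ.half_pos hja'
      refine ⟨hja'.symm, ?_⟩
      rw [half_comm]
      omega
    have hdvd : ∀ j, Tw Γ j b → (half Γ b a : ℤ) ∣ N b j := by
      intro j hj
      obtain ⟨h5, h6⟩ := hlight j hj
      have h7 := td.pre.heisN j a h5 b a hab.symm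
      rw [h6] at h7
      have h8 : N a j * N b a = 0 := by
        by_contra hne
        have e1 := td.domN a j (left_ne_zero_of_mul hne)
        have e2 := td.domN b a (right_ne_zero_of_mul hne)
        -- e1 : Dom j a, e2 : Dom a b
        exact htab ⟨(h3 V Γ).2 b j a hj.2 e1, e2⟩
      rw [h8, sub_zero, Nat.cast_one, one_mul] at h7
      have h9 : N b j = N b j * N a a * M a a := by
        rw [mul_assoc, ea, mul_one]
      rw [h9]
      exact Dvd.dvd.mul_right h7 _
    have eb := (h2 V Γ Λ M N td b b b ((mem_cls Γ b b).mpr (tw_refl h3 Γ b))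
      ((mem_cls Γ b b).mpr (tw_refl h3 Γ b))).1
    rw [if_pos rfl] at eb
    have h10 : (half Γ b a : ℤ) ∣ 1 := by
      rw [← eb]
      exact Finset.dvd_sum fun w hw => Dvd.dvd.mul_right (hdvd w ((mem_cls Γ w b).mp hw)) _
    have h11 : half Γ b a ∣ 1 := by exact_mod_cast h10
    rw [half_comm] at h11
    have := Nat.le_of_dvd one_pos h11
    omega

end WGEven
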