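import Pool.Agent.Lib.MP_107652_al.Defs

/-!
# Homotheties and translations of a complex vector space
-/

set_option autoImplicit false

open Finset

namespace WGEven

open WGirth

/-- The map `z ↦ a z + b` of the vector space `M`. -/
@[ext] structure AM (M : Type) where
  a : ℂˣ
  b : M

namespace AM

variable {M : Type} [AddCommGroup M] [Module ℂ M]

instance : Mul (AM M) := ⟨fun g h => ⟨g.a * h.a, g.b + (g.a : ℂ) • h.b⟩⟩
instance : One (AM M) := ⟨⟨1, 0⟩⟩
instance : Inv (AM M) := ⟨fun g => ⟨g.a⁻¹, -(((g.a⁻¹ : ℂˣ) : ℂ) • g.b)⟩⟩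

@[simp] theorem mul_a (g h : AM M) : (g * h).a = g.a * h.a := rfl
@[simp] theorem mul_b (g h : AM M) : (g * h).b = g.b + (g.a : ℂ) • h.b := rfl
omit [Module ℂ M] in
@[simp] theorem one_a : (1 : AM M).a = 1 := rfl
omit [Module ℂ M] in
@[simp] theorem one_b : (1 : AM M).b = 0 := rfl
@[simp] theorem inv_a (g : AM M) : (g⁻¹).a = g.a⁻¹ := rfl
@[simp] theorem inv_b (g : AM M) : (g⁻¹).b = -(((g.a⁻¹ : ℂˣ) : ℂ) • g.b) := rfl

instance : Group (AM M) :=
  Group.ofLeftAxioms
    (fun x y z => by
      ext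
      · simp [mul_assoc]
      · simp [smul_add, mul_smul, add_assoc])
    (fun x => by ext <;> simp)
    (fun x => by ext <;> simp)

/-- the linear part -/
def lin : AM M →* ℂˣ where
  toFun := AM.a
  map_one' := rfl
  map_mul' _ _ := rfl

@[simp] theorem lin_apply (g : AM M) : lin g = g.a := rfl

theorem pow_eq (g : AM M) (k : ℕ) :
    g ^ k = ⟨g.a ^ k, (∑ j ∈ Finset.range k, (g.a : ℂ) ^ j) • g.b⟩ := by
  induction k with
  | zero => ext <;> simp
  | succ k ih =>
    rw [pow_succ, ih]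
    ext
    · simp [pow_succ]
    · simp only [mul_b, Finset.sum_range_succ, Units.val_pow_eq_pow_val, add_smul]

/-- elements with linear part a nontrivial `k`-th root of unity have order dividing `k` -/
theorem pow_eq_one {g : AM M} {k : ℕ} (h1 : (g.a : ℂ) ≠ 1) (h2 : (g.a : ℂ) ^ k = 1) :
    g ^ k = 1 := by
  rw [pow_eq]
  have h3 : (∑ j ∈ Finset.range k, (g.a : ℂ) ^ j) = 0 := by
    have h4 := geom_sum_mul (g.a : ℂ) k
    rw [h2, sub_self, mul_eq_zero] at h4
    rcases h4 with h4 | h4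
    · exact h4
    · exact absurd (sub_eq_zero.mp h4) h1
  ext
  · simpa using h2
  · simp [h3]

/-- If `(g h)^k = (h g)^k` then `g` and `h` commute or the linear part of `g h` has norm one. -/
theorem comm_or_norm {g h : AM M} {k : ℕ} (hk : 1 ≤ k) (hgh : (g * h) ^ k = (h * g) ^ k) :
    g * h = h * g ∨ ‖(g.a : ℂ)‖ * ‖(h.a : ℂ)‖ = 1 := by
  rw [pow_eq, pow_eq] at hgh
  have h1 := congrArg AM.b hgh
  have hcomm : (h * g).a = (g * h).a := by simp [mul_comm]
  simp only [hcomm] at h1
  have h2 : (∑ j ∈ Finset.range k, ((g * h).a : ℂ) ^ j) • ((g * h).b - (h * g).b) = 0 := by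
    rw [smul_sub, h1, sub_self]
  rcases smul_eq_zero.mp h2 with h3 | h3
  · right
    have h4 := geom_sum_mul ((g * h).a : ℂ) k
    rw [h3, zero_mul] at h4
    have h5 : ((g * h).a : ℂ) ^ k = 1 := (sub_eq_zero.mp h4.symm)
    have h6 : ‖((g * h).a : ℂ)‖ ^ k = 1 := by rw [← norm_pow, h5, norm_one]
    have h7 : ‖((g * h).a : ℂ)‖ = 1 := by
      refine (pow_eq_one_iff_of_nonneg (norm_nonneg _) (by omega)).mp h6
    rw [← norm_mul]
    simpa using h7
  · left
    ext
    · simp [mul_comm]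
    · exact sub_eq_zero.mp h3

theorem commute_iff (g h : AM M) :
    g * h = h * g ↔ (1 - (g.a : ℂ)) • h.b = (1 - (h.a : ℂ)) • g.b := by
  constructor
  · intro hc
    have := congrArg AM.b hc
    simp only [mul_b] at this
    rw [sub_smul, sub_smul, one_smul, one_smul, sub_eq_sub_iff_add_eq_add, ← this, add_comm]
  · intro hc
    rw [sub_smul, sub_smul, one_smul, one_smul, sub_eq_sub_iff_add_eq_add] at hc
    ext
    · simp [mul_comm]
    · simp only [mul_b]
      rw [hc, add_comm]

/-- Commutation is transitive on nontrivial elements. -/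
theorem trans {g h k : AM M} (hh : h ≠ 1) (h1 : g * h = h * g) (h2 : h * k = k * h) :
    g * k = k * g := by
  rw [commute_iff] at h1 h2 ⊢
  by_cases ha : (h.a : ℂ) = 1
  · have hb : h.b ≠ 0 := by
      intro hb
      apply hh
      ext
      · simpa using ha
      · simpa using hb
    rw [ha, sub_self, zero_smul] at h1
    rw [ha, sub_self, zero_smul] at h2
    have e1 : 1 - (g.a : ℂ) = 0 := by
      rcases smul_eq_zero.mp h1 with h | h
      · exact h
      · exact absurd h hb
    have e2 : 1 - (k.a : ℂ) = 0 := by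
      rcases smul_eq_zero.mp h2.symm with h | h
      · exact h
      · exact absurd h hb
    rw [e1, e2, zero_smul, zero_smul]
  · have hne : 1 - (h.a : ℂ) ≠ 0 := sub_ne_zero.mpr (Ne.symm ha)
    have e : (1 - (h.a : ℂ)) • ((1 - (g.a : ℂ)) • k.b) =
        (1 - (h.a : ℂ)) • ((1 - (k.a : ℂ)) • g.b) := by
      rw [smul_comm, h2, smul_comm, h1, smul_comm]
    exact smul_right_injective M hne e

/-- a homothety with centre `P` -/
def fix (a : ℂˣ) (P : M) : AM M := ⟨a, (1 - (a : ℂ)) • P⟩

theorem fix_comm (a b : ℂˣ) (P : M) : fix a P * fix b P = fix b P * fix a P := by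
  rw [commute_iff]
  simp only [fix]
  rw [smul_comm]

/-- the group elements which preserve the affine subspace `x0 + D` -/
def stab (x0 : M) (D : Submodule ℂ M) : Subgroup (AM M) where
  carrier := {g | g.b + (g.a : ℂ) • x0 - x0 ∈ D}
  one_mem' := by simp
  mul_mem' := by
    intro g h hg hh
    simp only [Set.mem_ofPred_eq] at hg hh ⊢
    have e : (g * h).b + ((g * h).a : ℂ) • x0 - x0 =
        (g.b + (g.a : ℂ) • x0 - x0) + (g.a : ℂ) • (h.b + (h.a : ℂ) • x0 - x0) := by
      simp only [mul_b, mul_a, Units.val_mul, smul_sub, smul_add, mul_smul]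
      abel
    rw [e]
    exact D.add_mem hg (D.smul_mem _ hh)
  inv_mem' := by
    intro g hg
    simp only [Set.mem_ofPred_eq] at hg ⊢
    have e : (g⁻¹).b + ((g⁻¹).a : ℂ) • x0 - x0 =
        -((((g.a)⁻¹ : ℂˣ) : ℂ) • (g.b + (g.a : ℂ) • x0 - x0)) := by
      simp only [inv_b, inv_a, smul_sub, smul_add, ← mul_smul, Units.inv_mul, one_smul]
      abel
    rw [e]
    exact D.neg_mem (D.smul_mem _ hg)

theorem mem_stab {x0 : M} {D : Submodule ℂ M} {g : AM M} :
    g ∈ stab x0 D ↔ g.b + (g.a : ℂ) • x0 - x0 ∈ D := Iff.rfl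

end AM

/-- a representation of an even Artin group in the group of homotheties and translations -/
theorem exists_rep {V M : Type} [AddCommGroup M] [Module ℂ M] {Λ : LGraph V} (hΛ : IsEven Λ)
    (F : V → AM M)
    (h : ∀ s t, Λ.graph.Adj s t → F s * F t = F t * F s ∨
      (((F s).a : ℂ) * ((F t).a : ℂ) ≠ 1 ∧ (((F s).a : ℂ) * ((F t).a : ℂ)) ^ half Λ s t = 1)) :
    ∃ f : Artin Λ →* AM M, ∀ v, f (gen Λ v) = F v := by
  apply exists_hom hΛ
  intro s t hst
  rcases h s t hst with h1 | ⟨h1, h2⟩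
  · rw [h1]
  · rw [AM.pow_eq_one (g := F s * F t) (by simpa using h1) (by simpa using h2),
      AM.pow_eq_one (g := F t * F s) (by simpa [mul_comm] using h1)
        (by simpa [mul_comm] using h2)]

/-- images of generators in a subgroup -/
theorem mem_of_gen {V M : Type} [AddCommGroup M] [Module ℂ M] {Γ : LGraph V}
    (f : Artin Γ →* AM M) (H : Subgroup (AM M)) (h : ∀ v, f (gen Γ v) ∈ H) (x : Artin Γ) :
    f x ∈ H := by
  have h1 : Subgroup.closure (Set.range (PresentedGroup.of (rels := rels Γ))) ≤ H.comap f := by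
    rw [Subgroup.closure_le]
    rintro _ ⟨v, rfl⟩
    exact h v
  rw [PresentedGroup.closure_range_of] at h1
  exact h1 (Subgroup.mem_top x)

end WGEven
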