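import Pool.Agent.Lib.MP_107652_al.Twin.Spec

/-!
# MP_107652_al: even Artin groups, general case. Definitions and basic lemmas

All statements about matrices are formulated for an abstract structure `Core`: a graph `G` with two
labellings `k`, `k'` (half labels of two even Artin groups) and the matrices `M`, `N` of an
isomorphism and its inverse.
-/

set_option autoImplicit false
set_option linter.unusedSectionVars false

open Finset

namespace WGEven

/-! ## Domination, twins -/

section graph

variable {V : Type} {G : SimpleGraph V}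

/-- `w` dominates `v`: every neighbour of `v` is `w` or a neighbour of `w` -/
def GDom (G : SimpleGraph V) (v w : V) : Prop := ∀ j, G.Adj v j → j = w ∨ G.Adj j w

/-- twins: each dominates the other -/
def GTw (G : SimpleGraph V) (v w : V) : Prop := GDom G v w ∧ GDom G w v

/-- a clique vertex: it has an adjacent twin -/
def Clq (G : SimpleGraph V) (x : V) : Prop := ∃ y, G.Adj x y ∧ GTw G x y

theorem gdom_refl (v : V) : GDom G v v := fun _ hj => Or.inr hj.symm

theorem gdom_trans {u v w : V} (huv : GDom G u v) (hvw : GDom G v w) : GDom G u w := by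
  intro j hj
  rcases huv j hj with h | h
  · subst h
    rcases hvw u hj.symm with h2 | h2
    · subst h2
      exact Or.inr hj.symm
    · rcases huv w h2 with h3 | h3
      · exact Or.inl h3.symm
      · exact Or.inr h3.symm
  · exact hvw j h.symm

theorem gtw_refl (v : V) : GTw G v v := ⟨gdom_refl v, gdom_refl v⟩

theorem gtw_symm {v w : V} (h : GTw G v w) : GTw G w v := ⟨h.2, h.1⟩

theorem gtw_trans {u v w : V} (h : GTw G u v) (h' : GTw G v w) : GTw G u w :=
  ⟨gdom_trans h.1 h'.1, gdom_trans h'.2 h.2⟩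

/-- twins of a clique vertex are equal or adjacent to it -/
theorem clq_adj {x y : V} (hx : Clq G x) (hy : GTw G y x) : y = x ∨ G.Adj y x := by
  obtain ⟨z, hxz, htz⟩ := hx
  rcases hy.2 z hxz with h | h
  · subst h
    exact Or.inr hxz.symm
  · -- z adjacent to y
    rcases htz.2 y h with h2 | h2
    · exact Or.inl h2
    · exact Or.inr h2

theorem clq_tw {x y : V} (hx : Clq G x) (hy : GTw G y x) : Clq G y := by
  rcases clq_adj hx hy with h | h
  · subst h
    exact hx
  · exact ⟨x, h, hy⟩

/-- two twins of a clique vertex are equal or adjacent -/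
theorem clq_adj2 {x y z : V} (hx : Clq G x) (hy : GTw G y x) (hz : GTw G z x) :
    y = z ∨ G.Adj y z :=
  clq_adj (clq_tw hx hz) (gtw_trans hy (gtw_symm hz))

/-- a twin of a rigid vertex is not adjacent to it -/
theorem rig_adj {x y : V} (hx : ¬ Clq G x) (hy : GTw G y x) : ¬ G.Adj x y :=
  fun h => hx ⟨y, h, gtw_symm hy⟩

/-- vertices which dominate a clique vertex belong to its star -/
theorem up_adj {x w : V} (hx : Clq G x) (hw : GDom G x w) : w = x ∨ G.Adj x w := by
  obtain ⟨z, hxz, htz⟩ := hx
  rcases hw z hxz with h | h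
  · subst h
    exact Or.inr hxz
  · rcases htz.2 w h with h2 | h2
    · exact Or.inl h2
    · exact Or.inr h2.symm

/-- adjacency of non-twins passes to the twins -/
theorem adj_tw {a b x y : V} (hab : G.Adj a b) (hn : ¬ GTw G a b) (hx : GTw G x a)
    (hy : GTw G y b) : G.Adj x y := by
  rcases hx.2 b hab with h | h
  · subst h
    exact absurd (gtw_symm hx) hn
  · rcases hy.2 x h with h3 | h3
    · subst h3
      exact absurd (gtw_trans (gtw_symm hx) hy) hn
    · exact h3

/-- an element of the star of `x` is equal or adjacent to every dominating vertex -/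
theorem up_star {x w j : V} (hx : Clq G x) (hw : GDom G x w) (hj : j = x ∨ G.Adj x j) :
    j = w ∨ G.Adj j w := by
  rcases hj with h | h
  · subst h
    rcases up_adj hx hw with h2 | h2
    · exact Or.inl h2.symm
    · exact Or.inr h2
  · exact hw j h

/-- two vertices which dominate a clique vertex are equal or adjacent -/
theorem up_up {x w w' : V} (hx : Clq G x) (hw : GDom G x w) (hw' : GDom G x w') :
    w = w' ∨ G.Adj w w' :=
  up_star hx hw' (up_adj hx hw)

/-- a rigid vertex which dominates a clique vertex has no other twin -/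
theorem up_rig {x y y' : V} (hx : Clq G x) (hy : GDom G x y) (hr : ¬ Clq G y)
    (ht : GTw G y' y) : y' = y := by
  have h1 : GDom G x y' := gdom_trans hy ht.2
  rcases up_up hx h1 hy with h | h
  · exact h
  · exact absurd h.symm (rig_adj hr ht)

/-- the star of a clique vertex only depends on its class -/
theorem star_tw {x y j : V} (hx : Clq G x) (hy : GTw G y x) (hj : j = x ∨ G.Adj x j) :
    j = y ∨ G.Adj y j := by
  rcases hj with h | h
  · subst h
    rcases clq_adj hx hy with h | h
    · exact Or.inl h.symm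
    · exact Or.inr h
  · rcases hy.2 j h with h | h
    · exact Or.inl h
    · exact Or.inr h.symm

open Classical in
/-- the twin class -/
noncomputable def gcls [Fintype V] (G : SimpleGraph V) (x : V) : Finset V :=
  Finset.univ.filter (fun w => GTw G w x)

theorem mem_gcls [Fintype V] {x w : V} : w ∈ gcls G x ↔ GTw G w x := by
  unfold gcls
  simp

theorem gcls_eq [Fintype V] {x y : V} (h : GTw G x y) : gcls G x = gcls G y := by
  ext w
  rw [mem_gcls, mem_gcls]
  exact ⟨fun h1 => gtw_trans h1 h, fun h1 => gtw_trans h1 (gtw_symm h)⟩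

end graph

/-! ## The abstract situation -/

/-- The information obtained from star representations. A star is a centre `i` with one leaf `j` or
two adjacent leaves `j`, `l`, all edges at the centre heavy for `k'`. -/
structure GStar {V : Type} (G : SimpleGraph V) (k k' : V → V → ℕ) (M : V → V → ℤ) : Prop where
  s1 : ∀ x, Clq G x → ∀ i j, G.Adj i j → 2 ≤ k' i j → (GTw G i x ∨ GTw G j x) →
    (∀ w, GDom G x w → |M i w - M j w| ≤ 1) ∧
    ∀ w w', GDom G x w → GDom G x w' → G.Adj w w' → k w w' = 1 →
      0 ≤ (M i w - M j w) * (M i w' - M j w')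
  s2 : ∀ x, Clq G x → ∀ i j l, G.Adj i j → G.Adj i l → G.Adj j l → 2 ≤ k' i j → 2 ≤ k' i l →
    (GTw G i x ∨ (GTw G j x ∧ GTw G l x)) →
    (∀ w, GDom G x w → |M i w - M j w - M l w| ≤ 1) ∧
    ∀ w w', GDom G x w → GDom G x w' → G.Adj w w' → k w w' = 1 →
      0 ≤ (M i w - M j w - M l w) * (M i w' - M j w' - M l w')
  s3 : ∀ i j, G.Adj i j → GTw G i j → 2 ≤ k' i j → ∃ v w, GTw G v i ∧ GTw G w i ∧ G.Adj v w ∧
    2 ≤ k v w ∧ M i v - M j v = 1 ∧ M i w - M j w = -1

/-- A vertex with a heavy edge. -/
def Hvy {V : Type} (G : SimpleGraph V) (k : V → V → ℕ) (a : V) : Prop :=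
  ∃ b, G.Adj a b ∧ 2 ≤ k a b

/-- The matching of the rigid vertices (those without adjacent twins). -/
structure Match {V : Type} (G : SimpleGraph V) (k k' : V → V → ℕ) (M N : V → V → ℤ)
    (π : Equiv.Perm V) : Prop where
  tw : ∀ a, GTw G (π a) a
  hvy : ∀ a, ¬ Clq G a → (Hvy G k a ↔ Hvy G k' (π a))
  unit : ∀ a, ¬ Clq G a → Hvy G k a → M (π a) a * N a (π a) = 1
  lab : ∀ a b, ¬ Clq G a → ¬ Clq G b → G.Adj a b → k' (π a) (π b) = k a b

/-- Two labellings of the graph `G` with the matrices of an isomorphism and its inverse. -/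
structure Core {V : Type} [Fintype V] [DecidableEq V] (G : SimpleGraph V) (k k' : V → V → ℕ)
    (M N : V → V → ℤ) (π : Equiv.Perm V) : Prop where
  symk : ∀ v w, k v w = k w v
  symk' : ∀ v w, k' v w = k' w v
  posk : ∀ v w, G.Adj v w → 1 ≤ k v w
  posk' : ∀ v w, G.Adj v w → 1 ≤ k' v w
  domM : ∀ v l, M l v ≠ 0 → GDom G v l
  domN : ∀ v l, N l v ≠ 0 → GDom G v l
  heisM : ∀ a b, G.Adj a b → ∀ i j, G.Adj i j →
    (k' i j : ℤ) ∣ k a b * (M i a * M j b - M j a * M i b)
  heisN : ∀ a b, G.Adj a b → ∀ i j, G.Adj i j →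
    (k i j : ℤ) ∣ k' a b * (N i a * N j b - N j a * N i b)
  clsNM : ∀ a x y, x ∈ gcls G a → y ∈ gcls G a →
    ∑ w ∈ gcls G a, N x w * M w y = if x = y then 1 else 0
  clsMN : ∀ a x y, x ∈ gcls G a → y ∈ gcls G a →
    ∑ w ∈ gcls G a, M x w * N w y = if x = y then 1 else 0
  starM : GStar G k k' M
  starN : GStar G k' k N
  mat : Match G k k' M N π

section core

variable {V : Type} [Fintype V] [DecidableEq V] {G : SimpleGraph V} {k k' : V → V → ℕ}
  {M N : V → V → ℤ} {π : Equiv.Perm V}

theorem clq_iff_pi (h : Match G k k' M N π) (a : V) : Clq G (π a) ↔ Clq G a :=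
  ⟨fun h1 => clq_tw h1 (gtw_symm (h.tw a)), fun h1 => clq_tw h1 (h.tw a)⟩

theorem clq_iff_pis (h : Match G k k' M N π) (a : V) : Clq G (π.symm a) ↔ Clq G a := by
  have := clq_iff_pi h (π.symm a)
  rw [Equiv.apply_symm_apply] at this
  exact this.symm

theorem Match.swap (h : Match G k k' M N π) : Match G k' k N M π.symm where
  tw := by
    intro a
    have := h.tw (π.symm a)
    rw [Equiv.apply_symm_apply] at this
    exact gtw_symm this
  hvy := by
    intro a ha
    have := h.hvy (π.symm a) (fun h1 => ha ((clq_iff_pis h a).mp h1))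
    rw [Equiv.apply_symm_apply] at this
    exact this.symm
  unit := by
    intro a ha hh
    have h1 : ¬ Clq G (π.symm a) := fun h1 => ha ((clq_iff_pis h a).mp h1)
    have h2 := h.hvy (π.symm a) h1
    rw [Equiv.apply_symm_apply] at h2
    have h3 := h.unit (π.symm a) h1 (h2.mpr hh)
    rw [Equiv.apply_symm_apply] at h3
    rw [mul_comm]
    exact h3
  lab := by
    intro a b ha hb hab
    have h1 : ¬ Clq G (π.symm a) := fun h1 => ha ((clq_iff_pis h a).mp h1)
    have h2 : ¬ Clq G (π.symm b) := fun h1 => hb ((clq_iff_pis h b).mp h1)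
    have ht : ¬ GTw G a b := fun ht => ha ⟨b, hab, ht⟩
    have t1 := h.tw (π.symm a)
    have t2 := h.tw (π.symm b)
    rw [Equiv.apply_symm_apply] at t1 t2
    have h3 := h.lab (π.symm a) (π.symm b) h1 h2 (adj_tw hab ht (gtw_symm t1) (gtw_symm t2))
    rw [Equiv.apply_symm_apply, Equiv.apply_symm_apply] at h3
    exact h3.symm

/-- The situation is symmetric. -/
theorem Core.swap (h : Core G k k' M N π) : Core G k' k N M π.symm where
  symk := h.symk'
  symk' := h.symk
  posk := h.posk'
  posk' := h.posk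
  domM := h.domN
  domN := h.domM
  heisM := h.heisN
  heisN := h.heisM
  clsNM := h.clsMN
  clsMN := h.clsNM
  starM := h.starN
  starN := h.starM
  mat := h.mat.swap

/-! ## Supports -/

/-- `Sup y w`: `w` belongs to the support of `y`. For a clique vertex `y` the support consists of the
twins `w` with `M w y ≠ 0`, for a rigid vertex it is the partner `π y`. -/
def Sup (G : SimpleGraph V) (M : V → V → ℤ) (π : Equiv.Perm V) (y w : V) : Prop :=
  (Clq G y ∧ GTw G w y ∧ M w y ≠ 0) ∨ (¬ Clq G y ∧ w = π y)

open Classical in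
/-- the coefficient: `M w y` for a clique vertex, `1` for a rigid vertex -/
noncomputable def mm (G : SimpleGraph V) (M : V → V → ℤ) (w y : V) : ℤ :=
  if Clq G y then M w y else 1

theorem mm_clq {w y : V} (h : Clq G y) : mm G M w y = M w y := by
  unfold mm
  rw [if_pos h]

theorem mm_rig {w y : V} (h : ¬ Clq G y) : mm G M w y = 1 := by
  unfold mm
  rw [if_neg h]

theorem sup_clq {w y : V} (h : Clq G y) : Sup G M π y w ↔ (GTw G w y ∧ M w y ≠ 0) := by
  unfold Sup
  constructor
  · rintro (h1 | h1)
    · exact h1.2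
    · exact absurd h h1.1
  · intro h1
    exact Or.inl ⟨h, h1⟩

theorem sup_rig {w y : V} (h : ¬ Clq G y) : Sup G M π y w ↔ w = π y := by
  unfold Sup
  constructor
  · rintro (h1 | h1)
    · exact absurd h1.1 h
    · exact h1.2
  · intro h1
    exact Or.inr ⟨h, h1⟩

theorem sup_tw (h : Core G k k' M N π) {w y : V} (hs : Sup G M π y w) : GTw G w y := by
  rcases hs with h1 | h1
  · exact h1.2.1
  · rw [h1.2]
    exact h.mat.tw y

theorem mm_ne {w y : V} (hs : Sup G M π y w) : mm G M w y ≠ 0 := by
  rcases hs with h1 | h1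
  · rw [mm_clq h1.1]
    exact h1.2.2
  · rw [mm_rig h1.1]
    exact one_ne_zero

/-- for every `q ≥ 2` some coefficient is not divisible by `q` -/
theorem sup_ndvd (h : Core G k k' M N π) (y : V) (q : ℤ) (hq : ¬ q ∣ 1) :
    ∃ w, Sup G M π y w ∧ ¬ q ∣ mm G M w y := by
  by_cases hy : Clq G y
  · by_contra hcon
    push Not at hcon
    have h1 := h.clsNM y y y (mem_gcls.mpr (gtw_refl y)) (mem_gcls.mpr (gtw_refl y))
    rw [if_pos rfl] at h1
    apply hq
    rw [← h1]
    apply Finset.dvd_sum
    intro w hw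
    by_cases h0 : M w y = 0
    · rw [h0, mul_zero]
      exact dvd_zero q
    · have h2 := hcon w ((sup_clq hy).mpr ⟨mem_gcls.mp hw, h0⟩)
      rw [mm_clq hy] at h2
      exact Dvd.dvd.mul_left h2 _
  · refine ⟨π y, (sup_rig hy).mpr rfl, ?_⟩
    rw [mm_rig hy]
    exact hq

/-- some coefficient is odd -/
theorem sup_odd (h : Core G k k' M N π) (y : V) : ∃ w, Sup G M π y w ∧ ¬ Even (mm G M w y) := by
  obtain ⟨w, h1, h2⟩ := sup_ndvd h y 2 (by norm_num)
  exact ⟨w, h1, fun h3 => h2 (even_iff_two_dvd.mp h3)⟩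

/-- the unit entries -/
theorem unit_abs (h : Core G k k' M N π) {y : V} (hy : ¬ Clq G y) (hh : Hvy G k y) :
    |M (π y) y| = 1 := by
  have h1 := h.mat.unit y hy hh
  exact Int.isUnit_iff_abs_eq.mp (IsUnit.of_mul_eq_one _ h1)

/-- a non-heavy rigid vertex has a partner all of whose edges are light -/
theorem light_pi (h : Core G k k' M N π) {y j : V} (hy : ¬ Clq G y) (hh : ¬ Hvy G k y)
    (hadj : G.Adj (π y) j) : k' (π y) j = 1 := by
  have h1 : ¬ Hvy G k' (π y) := fun h1 => hh ((h.mat.hvy y hy).mpr h1)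
  have h2 := h.posk' _ _ hadj
  by_contra hne
  exact h1 ⟨j, hadj, by omega⟩

/-- **The divisibility (H).** -/
theorem hdiv (h : Core G k k' M N π) {x y j w : V} (hxy : G.Adj x y) (hn : ¬ GTw G x y)
    (hj : Sup G M π x j) (hw : Sup G M π y w) :
    (k' j w : ℤ) ∣ k x y * (mm G M j x * mm G M w y) := by
  have tj := sup_tw h hj
  have tw := sup_tw h hw
  have hjw : G.Adj j w := adj_tw hxy hn tj tw
  have hH := h.heisM x y hxy j w hjw
  have hcross : M w x * M j y = 0 := by
    by_contra hne
    have e1 := h.domM x w (left_ne_zero_of_mul hne)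
    have e2 := h.domM y j (right_ne_zero_of_mul hne)
    exact hn ⟨gdom_trans e1 tw.1, gdom_trans e2 tj.1⟩
  rw [hcross, sub_zero] at hH
  have key : ∀ {z v : V}, ¬ Clq G z → Sup G M π z v → (∀ u, G.Adj v u → k' v u = 1) ∨
      |M v z| = 1 := by
    intro z v hz hv
    rw [sup_rig hz] at hv
    subst hv
    by_cases hh : Hvy G k z
    · exact Or.inr (unit_abs h hz hh)
    · exact Or.inl (fun u hu => light_pi h hz hh hu)
  by_cases hx : Clq G x
  · rw [mm_clq hx]
    by_cases hy : Clq G y
    · rw [mm_clq hy]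
      exact hH
    · rw [mm_rig hy]
      rcases key hy hw with h1 | h1
      · rw [h.symk' j w, h1 j hjw.symm]
        exact one_dvd _
      · rcases (abs_eq (by norm_num)).mp h1 with h2 | h2
        · rwa [h2] at hH
        · rw [h2] at hH
          have e : (k x y : ℤ) * (M j x * 1) = -(k x y * (M j x * -1)) := by ring
          rw [e]
          exact (dvd_neg).mpr hH
  · rw [mm_rig hx]
    by_cases hy : Clq G y
    · rw [mm_clq hy]
      rcases key hx hj with h1 | h1
      · rw [h1 w hjw]
        exact one_dvd _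
      · rcases (abs_eq (by norm_num)).mp h1 with h2 | h2
        · rwa [h2] at hH
        · rw [h2] at hH
          have e : (k x y : ℤ) * (1 * M w y) = -(k x y * (-1 * M w y)) := by ring
          rw [e]
          exact (dvd_neg).mpr hH
    · rw [mm_rig hy, sup_rig hx] at *
      rw [sup_rig hy] at hw
      subst hj hw
      rw [h.mat.lab x y hx hy hxy]
      exact Dvd.intro _ rfl

end core

end WGEven
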