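import Pool.Agent.Lib.MP_107652_al.Even.Spec

/-!
# MP_107652_al: `BlkS`
-/

set_option autoImplicit false

open Finset

namespace WGEven

open WGirth WGTwin

namespace BlkSAux

variable {V : Type}

open Classical in
/-- the elements dominated by `s` -/
noncomputable def below [Fintype V] (G : SimpleGraph V) (s : V) : Finset V :=
  Finset.univ.filter (fun v => GDom G v s)

theorem mem_below [Fintype V] {G : SimpleGraph V} {s v : V} : v ∈ below G s ↔ GDom G v s := by
  unfold below
  simp

theorem exists_max [Fintype V] (G : SimpleGraph V) (T : Finset V) (hT : T.Nonempty) :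
    ∃ s ∈ T, ∀ s' ∈ T, GDom G s s' → GDom G s' s := by
  obtain ⟨s, hs, hmax⟩ := Finset.exists_max_image T (fun s => (below G s).card) hT
  refine ⟨s, hs, fun s' hs' hd => ?_⟩
  have hsub : below G s ⊆ below G s' := by
    intro v hv
    exact mem_below.mpr (gdom_trans (mem_below.mp hv) hd)
  have heq : below G s = below G s' := Finset.eq_of_subset_of_card_le hsub (hmax s' hs')
  have h1 : s' ∈ below G s' := mem_below.mpr (gdom_refl s')
  rw [← heq] at h1
  exact mem_below.mp h1

end BlkSAux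

theorem blkS : BlkS := by
  intro V _ _ G M N domM hMN k' x S0 S1 ε z hS g hg hex
  classical
  -- a maximal element
  obtain ⟨s1, hs1, hgs1⟩ := hex
  obtain ⟨s, hsT, hmax⟩ := BlkSAux.exists_max G (S1.filter (fun t => G.Adj g t))
    ⟨s1, Finset.mem_filter.mpr ⟨hs1, hgs1⟩⟩
  obtain ⟨hsS, hgs⟩ := Finset.mem_filter.mp hsT
  have hnt : ¬ GTw G s x := by
    intro ht
    exact hg (star_tw (clq_tw hS.clq ht) (gtw_symm ht) (Or.inr hgs.symm))
  have hxs : G.Adj x s := by
    rcases hS.s1 s hsS with h | h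
    · subst h
      exact absurd (gtw_refl s) hnt
    · exact h
  have hsg : ¬ GTw G s g := by
    intro ht
    rcases ht.1 x hxs.symm with h | h
    · exact hg (Or.inl h.symm)
    · exact hg (Or.inr h)
  have hxw : ∀ w ∈ gcls G s, G.Adj x w := by
    intro w hw
    exact adj_tw hxs (fun h => hnt (gtw_symm h)) (gtw_refl x) (mem_gcls.mp hw)
  have hwg : ∀ w ∈ gcls G s, G.Adj w g := by
    intro w hw
    exact adj_tw hgs.symm hsg (mem_gcls.mp hw) (gtw_refl g)
  have hz0 : ∀ w ∈ gcls G s, ∀ s' ∈ S0, M s' w = 0 := by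
    intro w hw s' hs'
    by_contra hne
    have hd := domM w s' hne
    have ht := hS.s0 s' hs'
    have h1 : g = s' ∨ G.Adj s' g := by
      rcases hd g (hwg w hw) with h | h
      · exact Or.inl h
      · exact Or.inr h.symm
    exact hg (star_tw (clq_tw hS.clq ht) (gtw_symm ht) h1)
  have hz1 : ∀ w ∈ gcls G s, ∀ s' ∈ S1, s' ∉ gcls G s → M s' w = 0 := by
    intro w hw s' hs' hn
    by_contra hne
    have hd : GDom G s s' := gdom_trans (mem_gcls.mp hw).2 (domM w s' hne)
    rcases hd g hgs.symm with h | h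
    · subst h
      exact hg (hS.s1 g hs')
    · exact hn (mem_gcls.mpr ⟨hmax s' (Finset.mem_filter.mpr ⟨hs', h⟩) hd, hd⟩)
  by_contra hcon
  push Not at hcon
  have hzero : ∀ w ∈ gcls G s, nS M S0 S1 ε w = 0 :=
    fun w hw => hcon w (hxw w hw) (hwg w hw)
  have hns : ∀ w ∈ gcls G s, nS M S0 S1 ε w = ∑ s' ∈ (S0 ∪ S1) ∩ gcls G s, ε s' * M s' w := by
    intro w hw
    unfold nS
    symm
    apply Finset.sum_subset Finset.inter_subset_left
    intro s' hs' hn
    have hn' : s' ∉ gcls G s := fun h => hn (Finset.mem_inter.mpr ⟨hs', h⟩)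
    rcases Finset.mem_union.mp hs' with h | h
    · rw [hz0 w hw s' h, mul_zero]
    · rw [hz1 w hw s' h hn', mul_zero]
  have hsum : ∑ w ∈ gcls G s, nS M S0 S1 ε w * N w s = ε s := by
    have e1 : ∑ w ∈ gcls G s, nS M S0 S1 ε w * N w s =
        ∑ w ∈ gcls G s, ∑ s' ∈ (S0 ∪ S1) ∩ gcls G s, ε s' * (M s' w * N w s) := by
      apply Finset.sum_congr rfl
      intro w hw
      rw [hns w hw, Finset.sum_mul]
      apply Finset.sum_congr rfl
      intro s' _
      ring
    rw [e1, Finset.sum_comm]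
    have e2 : ∀ s' ∈ (S0 ∪ S1) ∩ gcls G s,
        ∑ w ∈ gcls G s, ε s' * (M s' w * N w s) = if s' = s then ε s' else 0 := by
      intro s' hs'
      rw [← Finset.mul_sum, hMN s s' s (Finset.mem_inter.mp hs').2 (mem_gcls.mpr (gtw_refl s))]
      by_cases h : s' = s
      · rw [if_pos h, if_pos h, mul_one]
      · rw [if_neg h, if_neg h, mul_zero]
    rw [Finset.sum_congr rfl e2, Finset.sum_ite_eq']
    rw [if_pos (Finset.mem_inter.mpr ⟨Finset.mem_union_right _ hsS, mem_gcls.mpr (gtw_refl s)⟩)]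
  have hsum0 : ∑ w ∈ gcls G s, nS M S0 S1 ε w * N w s = 0 := by
    apply Finset.sum_eq_zero
    intro w hw
    rw [hzero w hw, zero_mul]
  rw [hsum] at hsum0
  rcases hS.eps s (Finset.mem_union_right _ hsS) with h | h
  · rw [h] at hsum0
    exact one_ne_zero hsum0
  · rw [h] at hsum0
    norm_num at hsum0

end WGEven
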