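import Pool.Agent.Lib.MP_107652_al.Even.Spec

/-!
# MP_107652_al: light quadrilaterals
-/

set_option autoImplicit false

open Finset

namespace WGEven

namespace FiveBAux

variable {V : Type} [Fintype V] [DecidableEq V] {G : SimpleGraph V} {k k' : V → V → ℕ}
  {M N : V → V → ℤ} {π : Equiv.Perm V}

/-- a light side with incomparable ends gives a light side -/
theorem side (hE : EOne) (h : Core G k k' M N π) {x y : V} (hxy : G.Adj x y)
    (n1 : ¬ GDom G x y) (n2 : ¬ GDom G y x) (hk : k x y = 1) {j w : V}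
    (hj : Sup G M π x j) (hw : Sup G M π y w) : G.Adj j w ∧ k' j w = 1 := by
  have ht : ¬ GTw G x y := fun ht => n1 ht.1
  exact ⟨adj_tw hxy ht (sup_tw h hj) (sup_tw h hw),
    hE V G k k' M N π h x y hxy ht hk (fun hc => n1 hc.2) (fun hc => n2 hc.2) j w hj hw⟩

/-- supports of different non-adjacent vertices are disjoint -/
theorem dist (h : Core G k k' M N π) {a c : V} (hac : a ≠ c) (hn : ¬ G.Adj a c) {j w : V}
    (hj : Sup G M π a j) (hw : Sup G M π c w) : j ≠ w := by
  rintro rfl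
  have ht : GTw G c a := gtw_trans (gtw_symm (sup_tw h hw)) (sup_tw h hj)
  by_cases ha : Clq G a
  · rcases clq_adj ha ht with h1 | h1
    · exact hac h1.symm
    · exact hn h1.symm
  · have hc : ¬ Clq G c := fun hc => ha (clq_tw hc (gtw_symm ht))
    rw [sup_rig ha] at hj
    rw [sup_rig hc] at hw
    exact hac (π.injective (hj.symm.trans hw))

end FiveBAux

open FiveBAux

theorem fiveB (hE : EOne) : FiveB := by
  intro V _ _ G k k' M N π h h1 h4 a b c d hac hbd hab hbc hcd hda k1 k2 k3 k4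
  have nac : ¬ G.Adj a c := fun hh => h1 a b c hab hbc hh k1 k2
  have nbd : ¬ G.Adj b d := fun hh => h1 b c d hbc hcd hh k2 k3
  have dab : ¬ GDom G a b := fun hh => (hh d hda.symm).elim (fun e => hbd e.symm)
    (fun e => nbd e.symm)
  have dba : ¬ GDom G b a := fun hh => (hh c hbc).elim (fun e => hac e.symm)
    (fun e => nac e.symm)
  have dbc : ¬ GDom G b c := fun hh => (hh a hab.symm).elim hac nac
  have dcb : ¬ GDom G c b := fun hh => (hh d hcd).elim (fun e => hbd e.symm)
    (fun e => nbd e.symm)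
  have dcd : ¬ GDom G c d := fun hh => (hh b hbc.symm).elim hbd nbd
  have ddc : ¬ GDom G d c := fun hh => (hh a hda).elim hac nac
  have dda : ¬ GDom G d a := fun hh => (hh c hcd.symm).elim (fun e => hac e.symm)
    (fun e => nac e.symm)
  have dad : ¬ GDom G a d := fun hh => (hh b hab).elim hbd nbd
  obtain ⟨a0, sa, -⟩ := sup_odd h a
  obtain ⟨b0, sb, -⟩ := sup_odd h b
  obtain ⟨c0, sc, -⟩ := sup_odd h c
  obtain ⟨d0, sd, -⟩ := sup_odd h d
  obtain ⟨e1, l1⟩ := side hE h hab dab dba k1 sa sb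
  obtain ⟨e2, l2⟩ := side hE h hbc dbc dcb k2 sb sc
  obtain ⟨e3, l3⟩ := side hE h hcd dcd ddc k3 sc sd
  obtain ⟨e4, l4⟩ := side hE h hda dda dad k4 sd sa
  exact h4 a0 b0 c0 d0 (dist h hac nac sa sc) (dist h hbd nbd sb sd) e1 e2 e3 e4 l1 l2 l3 l4

end WGEven
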