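import Pool.Agent.Lib.MP_107652_al.Even.Spec

/-!
# MP_107652_al, even Artin groups, module FourIThreeA
-/

set_option autoImplicit false

open Finset

namespace WGEven

open WGirth WGTwin

theorem fourIThreeA (h1 : EFour) (h2 : ETwo) (h3 : EThree) (h4 : Minor) (h5 : StarBG) :
    FourIThreeA := by
  intro V _ _ G k k' M N π h hH0 a a2 c hta hadj hac hnt hk1 hk2 hk3 hbad
  obtain ⟨hclc, hdom⟩ := hbad
  have hcla : Clq G a := ⟨a2, hadj, gtw_symm hta⟩
  have hne : a ≠ a2 := hadj.ne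
  have hnca : ¬ GTw G c a := fun h6 => hnt (gtw_symm h6)
  have hadjCK : ∀ u w, GTw G u c → GTw G w a → G.Adj u w := fun u w hu hw =>
    adj_tw hac.symm hnca hu hw
  have hdomK : ∀ w, GTw G w a → GDom G c w := fun w hw => gdom_trans hdom hw.2
  have hzero : ∀ u b, GTw G u c → GTw G b a → M u b = 0 := by
    intro u b hu hb
    by_contra h0
    have e1 := h.domM b u h0
    exact hnt ⟨gdom_trans hb.2 (gdom_trans e1 hu.1), hdom⟩
  have hge : ∀ u w, G.Adj u w → k' u w ≠ 1 → 2 ≤ k' u w := by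
    intro u w huw hne1
    have := h.posk' u w huw
    omega
  -- the properties of the columns
  have hcol : ∀ b, b = a ∨ b = a2 → GTw G b a ∧ G.Adj c b ∧ ¬ GTw G c b ∧ k c b = 1 ∧
      GDom G c b ∧ Clq G b := by
    rintro b (rfl | rfl)
    · exact ⟨gtw_refl b, hac.symm, hnca, by rw [h.symk]; exact hk2, hdom, hcla⟩
    · refine ⟨hta, hadjCK c b (gtw_refl c) hta, ?_, by rw [h.symk]; exact hk3, hdomK b hta,
        clq_tw hcla hta⟩
      intro h6
      exact hnca (gtw_trans h6 hta)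
  obtain ⟨j, hjs, hjodd⟩ := sup_odd h c
  rw [mm_clq hclc] at hjodd
  have hjs' := (sup_clq hclc).mp hjs
  have hjc : GTw G j c := hjs'.1
  -- step 1: the vertex w1
  have step1 : ∃ w1 b, GTw G w1 a ∧ (b = a ∨ b = a2) ∧ M w1 b ≠ 0 ∧ 2 ≤ k' j w1 := by
    by_contra hcon
    push Not at hcon
    refine h1 V G k k' M N π h a hcla a a2 (gtw_refl a) hta hadj hk1 (fun w => k' j w = 1) ?_ ?_
    · intro w hw hnz
      have hjw : G.Adj j w := hadjCK j w hjc hw
      by_contra h6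
      have h7 := hge j w hjw h6
      rcases hnz with h8 | h8
      · have := hcon w a hw (Or.inl rfl) h8
        omega
      · have := hcon w a2 hw (Or.inr rfl) h8
        omega
    · intro w w' hw hw' hww hJ hJ'
      apply hge w w' hww
      intro h6
      exact hH0 j w w' (hadjCK j w hjc hw) hww (hadjCK j w' hjc hw') hJ h6 hJ'
  obtain ⟨w1, b, hw1, hb, hMb, hkj⟩ := step1
  obtain ⟨hbt, hcb, hncb, hkcb, hdcb, hclb⟩ := hcol b hb
  have hsw1 : Sup G M π b w1 := (sup_clq hclb).mpr ⟨gtw_trans hw1 (gtw_symm hbt), hMb⟩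
  obtain ⟨-, -, hdvd, hother⟩ := h2 V G k k' M N π h c b hclc hdcb hcb hncb hkcb j w1 hjs hsw1 hkj
  have hlight : ∀ l, G.Adj j l → G.Adj w1 l → k' j l = 1 := by
    intro l hjl hwl
    by_contra h6
    exact hjodd (h3 V G k k' M N π h c b hclc hdcb hcb hncb hkcb j w1 l hjs hsw1 hkj hjl hwl
      (hge j l hjl h6))
  have hjK : ∀ w, GTw G w a → w ≠ w1 → k' j w = 1 := by
    intro w hw hne1
    apply hlight w (hadjCK j w hjc hw)
    rcases clq_adj2 hcla hw1 hw with h6 | h6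
    · exact absurd h6.symm hne1
    · exact h6
  have hjC : ∀ u, GTw G u c → u ≠ j → G.Adj j u ∧ k' j u = 1 := by
    intro u hu hne1
    have hju : G.Adj j u := by
      rcases clq_adj2 hclc hjc hu with h6 | h6
      · exact absurd h6.symm hne1
      · exact h6
    exact ⟨hju, hlight u hju (hadjCK u w1 hu hw1).symm⟩
  have hheavy1 : ∀ u w, GTw G u c → u ≠ j → GTw G w a → w ≠ w1 → 2 ≤ k' u w := by
    intro u w hu hne1 hw hne2
    have huw := hadjCK u w hu hw
    apply hge u w huw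
    intro h6
    obtain ⟨hju, hkju⟩ := hjC u hu hne1
    exact hH0 j u w hju huw (hadjCK j w hjc hw) hkju h6 (hjK w hw hne2)
  have hheavy2 : ∀ w w', GTw G w a → GTw G w' a → w ≠ w1 → w' ≠ w1 → w ≠ w' →
      G.Adj w w' ∧ 2 ≤ k' w w' := by
    intro w w' hw hw' hne1 hne2 hne3
    have hww : G.Adj w w' := by
      rcases clq_adj2 hcla hw hw' with h6 | h6
      · exact absurd h6 hne3
      · exact h6
    refine ⟨hww, hge w w' hww ?_⟩
    intro h6
    exact hH0 j w w' (hadjCK j w hjc hw) hww (hadjCK j w' hjc hw') (hjK w hw hne1) h6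
      (hjK w' hw' hne2)
  -- the vertex j'
  have hq1 : ¬ ((k' j w1 : ℕ) : ℤ) ∣ 1 := by
    intro h6
    have h7 := Int.le_of_dvd one_pos h6
    have h8 : (2 : ℤ) ≤ (k' j w1 : ℤ) := by exact_mod_cast hkj
    omega
  obtain ⟨j', hjs2, hnd⟩ := sup_ndvd h c ((k' j w1 : ℕ) : ℤ) hq1
  rw [mm_clq hclc] at hnd
  have hjs2' := (sup_clq hclc).mp hjs2
  have hj'c : GTw G j' c := hjs2'.1
  have hjj' : j' ≠ j := by
    intro h6
    rw [h6] at hnd
    exact hnd hdvd
  -- another nonzero row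
  have hnz : ∃ w b', GTw G w a ∧ w ≠ w1 ∧ (b' = a ∨ b' = a2) ∧ M w b' ≠ 0 := by
    obtain ⟨i, i', hi, hi', hmin⟩ := h4 V G k k' M N π h a a a2 (gtw_refl a) hta hne 0 (by norm_num)
    have hmin' : M i a * M i' a2 - M i' a * M i a2 ≠ 0 := by
      intro h6
      rw [h6] at hmin
      exact hmin (dvd_refl 0)
    by_contra hcon
    push Not at hcon
    have hrow : ∀ w, GTw G w a → w ≠ w1 → M w a = 0 ∧ M w a2 = 0 := fun w hw hne1 =>
      ⟨hcon w a hw hne1 (Or.inl rfl), hcon w a2 hw hne1 (Or.inr rfl)⟩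
    apply hmin'
    by_cases hi1 : i = w1
    · by_cases hi2 : i' = w1
      · rw [hi1, hi2]
        ring
      · obtain ⟨e1, e2⟩ := hrow i' hi' hi2
        rw [e1, e2]
        ring
    · obtain ⟨e1, e2⟩ := hrow i hi hi1
      rw [e1, e2]
      ring
  obtain ⟨w, b', hw, hww1, hb', hMb'⟩ := hnz
  obtain ⟨hbt', hcb', hncb', hkcb', hdcb', hclb'⟩ := hcol b' hb'
  have hsw : Sup G M π b' w := (sup_clq hclb').mpr ⟨gtw_trans hw (gtw_symm hbt'), hMb'⟩
  obtain ⟨-, -, -, hother'⟩ := h2 V G k k' M N π h c b' hclc hdcb' hcb' hncb' hkcb' j' w hjs2 hsw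
    (hheavy1 j' w hj'c hjj' hw hww1)
  have hclass : ∀ u, GTw G u c → u = j ∨ u = j' := by
    intro u hu
    by_contra hcon
    push Not at hcon
    have e1 := hother' u hu hcon.2
    have e2 := hheavy1 u w hu hcon.1 hw hww1
    omega
  -- the rows
  have hrows : ∀ w b, GTw G w a → (b = a ∨ b = a2) → |M w b| ≤ 1 := by
    intro w b hw hb
    obtain ⟨hbt, -, -, -, hdcb, -⟩ := hcol b hb
    by_cases hw1' : w = w1
    · have e1 := (h.starM.s1 c hclc j w (hadjCK j w hjc hw) (by rw [hw1']; exact hkj)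
        (Or.inl hjc)).1 b hdcb
      rw [hzero j b hjc hbt, zero_sub, abs_neg] at e1
      exact e1
    · have e1 := (h.starM.s1 c hclc j' w (hadjCK j' w hj'c hw) (hheavy1 j' w hj'c hjj' hw hw1')
        (Or.inl hj'c)).1 b hdcb
      rw [hzero j' b hj'c hbt, zero_sub, abs_neg] at e1
      exact e1
  have heven0 : ∀ z : ℤ, |z| ≤ 1 → Even z → z = 0 := by
    intro z hz he
    obtain ⟨r, hr⟩ := he
    rw [abs_le] at hz
    omega
  refine ⟨j, j', w1, hjc, hj'c, hw1, hjj'.symm, hjodd, hjs2'.2, hclass, hkj,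
    hother j' hj'c hjj', fun w hw hne1 => hheavy1 j' w hj'c hjj' hw hne1,
    fun w hw => ⟨hrows w a hw (Or.inl rfl), hrows w a2 hw (Or.inr rfl)⟩, ?_⟩
  intro w w' hw hw' hne1 hne2
  by_cases hww : w = w'
  · rw [hww]
    ring
  · obtain ⟨hadjw, hkw⟩ := hheavy2 w w' hw hw' hne1 hne2 hww
    have hwj' : G.Adj w j' := (hadjCK j' w hj'c hw).symm
    have hw'j' : G.Adj w' j' := (hadjCK j' w' hj'c hw').symm
    have hkwj : 2 ≤ k' w j' := by
      rw [h.symk']
      exact hheavy1 j' w hj'c hjj' hw hne1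
    rcases h5 V G k k' M N π h a hcla w w' j' hadjw hwj' hw'j' hkw hkwj (Or.inl hw) a a2
      (gdom_refl a) hta.2 hadj hk1 with ⟨e1, e2⟩ | ⟨e1, -⟩
    · rw [heven0 _ (hrows w a hw (Or.inl rfl)) e1, heven0 _ (hrows w a2 hw (Or.inr rfl)) e2]
      ring
    · rw [e1]
      ring

end WGEven
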