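import Mathlib

/-!
# Integers avoiding finitely many hyperplanes
-/

set_option autoImplicit false

open Finset

namespace WGEven

/-- finitely many non constant affine functions have a common point where none of them vanishes -/
theorem exists_generic {V J : Type} [DecidableEq V] (G : Finset V) (Q : Finset J)
    (c : J → ℤ) (L : J → V → ℤ) (hL : ∀ j ∈ Q, ∃ g ∈ G, L j g ≠ 0) :
    ∃ m : V → ℤ, ∀ j ∈ Q, c j + ∑ g ∈ G, m g * L j g ≠ 0 := by
  classical
  let P : J → MvPolynomial V ℤ := fun j =>
    MvPolynomial.C (c j) + ∑ g ∈ G, MvPolynomial.C (L j g) * MvPolynomial.X g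
  have hP : ∀ j ∈ Q, P j ≠ 0 := by
    intro j hj h0
    obtain ⟨g, hg, hne⟩ := hL j hj
    apply hne
    have h1 : MvPolynomial.coeff (Finsupp.single g 1) (P j) = L j g := by
      simp only [P, MvPolynomial.coeff_add, MvPolynomial.coeff_sum, MvPolynomial.coeff_C_mul]
      have h0 : (0 : V →₀ ℕ) ≠ Finsupp.single g 1 := by
        intro h
        have := DFunLike.congr_fun h g
        simp at this
      rw [MvPolynomial.coeff_C, if_neg h0, zero_add, Finset.sum_eq_single g]
      · rw [MvPolynomial.coeff_X, if_pos rfl, mul_one]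
      · intro b _ hb
        rw [MvPolynomial.coeff_X, if_neg, mul_zero]
        intro h
        exact hb (Finsupp.single_left_injective one_ne_zero h)
      · intro h
        exact absurd hg h
    rw [← h1, h0, MvPolynomial.coeff_zero]
  have hprod : ∏ j ∈ Q, P j ≠ 0 := Finset.prod_ne_zero_iff.2 hP
  obtain ⟨m, hm⟩ : ∃ m : V → ℤ, MvPolynomial.eval m (∏ j ∈ Q, P j) ≠ 0 := by
    by_contra hcon
    push Not at hcon
    apply hprod
    apply MvPolynomial.funext
    intro x
    rw [hcon x, map_zero]
  refine ⟨m, fun j hj h0 => ?_⟩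
  rw [map_prod] at hm
  apply Finset.prod_ne_zero_iff.1 hm j hj
  simp only [P, map_add, MvPolynomial.eval_C, map_sum, map_mul, MvPolynomial.eval_X]
  rw [← h0]
  congr 1
  exact Finset.sum_congr rfl fun g _ => mul_comm _ _

end WGEven
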