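import Pool.Agent.Lib.MP_107652_al.Even.Spec
import Pool.Agent.Lib.MP_107652_al.Even.AM
import Pool.Agent.Lib.MP_107652_al.Even.Generic
import Pool.Agent.Lib.MP_107652_al.Reps
import Pool.Agent.Lib.MP_107652_al.Twin.ClassInv
import Pool.Agent.Lib.MP_107652_al.Twin.DomTr

/-!
# The localised star representation is not commutative on the star of a clique vertex
-/

set_option autoImplicit false

open Finset

namespace WGEven

open WGirth WGTwin

namespace LocAM

/-- the absolute values of the linear parts -/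
theorem norm_lin {V M' : Type} [Fintype V] [DecidableEq V] [AddCommGroup M'] [Module ℂ M']
    {Λ : LGraph V} {y : V → (Artin Λ →* Multiplicative ℤ)} (hy : IsExp Λ y)
    (f : Artin Λ →* AM M') (t : V → ℤ)
    (ht : ∀ j, ‖((f (gen Λ j)).a : ℂ)‖ = (2 : ℝ) ^ t j) (g : Artin Λ) :
    ‖((f g).a : ℂ)‖ = (2 : ℝ) ^ (∑ j, t j * Multiplicative.toAdd (y j g)) := by
  have h := hy.2 ℂˣ (AM.lin.comp f) g
  have h1 : (f g).a = (AM.lin.comp f) g := rfl
  rw [h1, h, Units.coe_prod, norm_prod]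
  have h2 : ∀ (s : Finset V) (a : V → ℤ), ∏ j ∈ s, (2 : ℝ) ^ a j = (2 : ℝ) ^ (∑ j ∈ s, a j) := by
    intro s a
    induction s using Finset.induction_on with
    | empty => simp
    | insert j s hj ih =>
      rw [Finset.prod_insert hj, Finset.sum_insert hj, zpow_add₀ (by norm_num), ih]
  rw [← h2]
  apply Finset.prod_congr rfl
  intro j _
  rw [Units.val_zpow_eq_zpow_val, norm_zpow, zpow_mul]
  congr 1
  exact ht j

theorem two_zpow_ne {n : ℤ} (h : n ≠ 0) : (2 : ℝ) ^ n ≠ 1 := by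
  intro hm
  apply h
  have h2 : (2 : ℝ) ^ n = 2 ^ (0 : ℤ) := by rw [hm, zpow_zero]
  exact zpow_right_injective₀ (by norm_num) (by norm_num) h2

/-- linear part different from one -/
theorem ne_one_of_norm {u : ℂˣ} {n : ℤ} (hu : ‖(u : ℂ)‖ = (2 : ℝ) ^ n) (h : n ≠ 0) :
    1 - (u : ℂ) ≠ 0 := by
  intro h1
  apply two_zpow_ne h
  rw [← hu]
  have h2 : (u : ℂ) = 1 := (sub_eq_zero.mp h1).symm
  rw [h2, norm_one]

/-- the fixed point is inherited by commuting elements -/
theorem fix_of_comm {M' : Type} [AddCommGroup M'] [Module ℂ M'] {g h : AM M'} {x0 : M'}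
    (hc : g * h = h * g) (ha : 1 - (g.a : ℂ) ≠ 0) (hg : g.b = (1 - (g.a : ℂ)) • x0) :
    h.b = (1 - (h.a : ℂ)) • x0 := by
  rw [AM.commute_iff, hg, smul_comm] at hc
  exact smul_right_injective M' ha hc

end LocAM

open LocAM in
/-- the localised star representation -/
theorem locAM (hG : GenEx) (hO : BlkOut) (hB : BlkGen) (hS : BlkS) (hU : UpInv)
    {V : Type} [Fintype V] [DecidableEq V] {Γ Λ : LGraph V} {M N : V → V → ℤ}
    (hΓ : IsEven Γ) (hΛ : IsEven Λ) (hT : TDE Γ Λ M N) {x : V} {S0 S1 : Finset V}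
    {ε : V → ℤ} {z : V → ℂˣ} (hD : SD Γ.graph (half Λ) x S0 S1 ε z) :
    ∃ R : Artin Γ →* AM (V → ℂ),
      (∀ w, (w = x ∨ Γ.graph.Adj x w) → ‖((R (gen Γ w)).a : ℂ)‖ = (2 : ℝ) ^ nS M S0 S1 ε w) ∧
      ∃ c c', (c = x ∨ Γ.graph.Adj x c) ∧ (c' = x ∨ Γ.graph.Adj x c') ∧
        R (gen Γ c) * R (gen Γ c') ≠ R (gen Γ c') * R (gen Γ c) := by
  classical
  obtain ⟨xx, y, e, hx, hy, hM, hN⟩ := hT.ex
  obtain ⟨Gen, Z, hdis, hout, hZ, hdg, hind⟩ := hG V Γ.graph x S1 hD.s1
  have hdM : ∀ v l, M l v ≠ 0 → GDom Γ.graph v l := hT.td.domM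
  have hdN : ∀ v l, N l v ≠ 0 → GDom Γ.graph v l := fun v l h => hT.td.domN l v h
  have outG : ∀ g ∈ Gen, ¬ (g = x ∨ Γ.graph.Adj x g) := fun g hg =>
    (hout g).1 (mem_union_left _ hg)
  have outZ : ∀ g ∈ Z, ¬ (g = x ∨ Γ.graph.Adj x g) := fun g hg =>
    (hout g).1 (mem_union_right _ hg)
  have st0 : ∀ s ∈ S0, s = x ∨ Γ.graph.Adj x s := fun s hs => up_adj hD.clq (hD.s0 s hs).2
  have blk : ∀ w, (w = x ∨ Γ.graph.Adj x w) → ∀ g ∈ Gen, M g w = 0 := fun w hw g hg =>
    hO V Γ.graph M hdM x hD.clq w hw g (outG g hg)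
  have bg := hB V Γ.graph M N hT.td.pre.nm hdM hdN x hD.clq Gen outG hdg
  -- generic exponents
  let n0 : V → ℤ := nS M S0 S1 ε
  let Q : Finset (V × Option V) := (Gen ×ˢ (univ : Finset (Option V))).filter
    (fun j => ∀ w, j.2 = some w → w ≠ j.1 ∧ ((w = x ∨ Γ.graph.Adj x w) ∨ w ∈ Gen))
  obtain ⟨m, hm⟩ := exists_generic Gen Q
    (fun j => n0 j.1 + (j.2.elim 0 n0)) (fun j g => M g j.1 + (j.2.elim 0 (M g))) (by
      rintro ⟨g, o⟩ hj
      rw [mem_filter, mem_product] at hj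
      obtain ⟨⟨hg, _⟩, hw⟩ := hj
      simp only at hg hw
      by_contra hcon
      push Not at hcon
      have h1 := bg g hg g hg
      rw [if_pos rfl] at h1
      have h2 : ∑ i ∈ Gen, N g i * (o.elim 0 (M i)) = 0 := by
        cases o with
        | none => simp
        | some w =>
          obtain ⟨hne, hw'⟩ := hw w rfl
          simp only [Option.elim_some]
          rcases hw' with hw' | hw'
          · exact sum_eq_zero fun i hi => by rw [blk w hw' i hi, mul_zero]
          · rw [bg g hg w hw', if_neg hne.symm]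
      have h3 : ∑ i ∈ Gen, N g i * (M i g + (o.elim 0 (M i))) = 1 := by
        simp only [mul_add, sum_add_distrib]
        rw [h1, h2, add_zero]
      rw [sum_eq_zero (fun i hi => by rw [hcon i hi, mul_zero])] at h3
      exact absurd h3 (by norm_num))
  let n : V → ℤ := fun w => n0 w + ∑ g ∈ Gen, m g * M g w
  have n1 : ∀ w, (w = x ∨ Γ.graph.Adj x w) → n w = n0 w := by
    intro w hw
    simp only [n]
    rw [sum_eq_zero (fun g hg => by rw [blk w hw g hg, mul_zero]), add_zero]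
  have n2 : ∀ g ∈ Gen, n g ≠ 0 := by
    intro g hg
    have h1 := hm (g, none) (by
      rw [mem_filter, mem_product]
      refine ⟨⟨hg, mem_univ _⟩, ?_⟩
      intro w hw
      exact absurd hw (by simp))
    simpa [n] using h1
  have n3 : ∀ g ∈ Gen, ∀ w, w ≠ g → ((w = x ∨ Γ.graph.Adj x w) ∨ w ∈ Gen) → n g + n w ≠ 0 := by
    intro g hg w hne hw
    have h1 := hm (g, some w) (by
      rw [mem_filter, mem_product]
      refine ⟨⟨hg, mem_univ _⟩, ?_⟩
      intro w' hw'
      simp only [Option.some.injEq] at hw'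
      subst hw'
      exact ⟨hne, hw⟩)
    intro h2
    apply h1
    rw [← h2]
    simp only [n, Option.elim_some, mul_add, sum_add_distrib]
    ring
  -- the representation
  let E : V → ℂ := Pi.single x 1
  let F : V → AM (V → ℂ) := fun v => if v ∈ S0 then AM.fix (z v) 0 else
    if v ∈ S1 then AM.fix (z v) E else if v ∈ Gen then AM.fix (Reps.two ^ (m v)) E else
    if v ∈ Z then ⟨1, Pi.single v 1⟩ else 1
  have d01 : ∀ v ∈ S1, v ∉ S0 := fun v h1 h0 => (Finset.disjoint_left.mp hD.dis) h0 h1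
  have dG0 : ∀ v ∈ Gen, v ∉ S0 := fun v h1 h0 => outG v h1 (st0 v h0)
  have dG1 : ∀ v ∈ Gen, v ∉ S1 := fun v h1 h0 => outG v h1 (hD.s1 v h0)
  have dZ0 : ∀ v ∈ Z, v ∉ S0 := fun v h1 h0 => outZ v h1 (st0 v h0)
  have dZ1 : ∀ v ∈ Z, v ∉ S1 := fun v h1 h0 => outZ v h1 (hD.s1 v h0)
  have dZG : ∀ v ∈ Z, v ∉ Gen := fun v h1 h0 => (Finset.disjoint_left.mp hdis) h0 h1
  have F0 : ∀ v ∈ S0, F v = AM.fix (z v) 0 := fun v hv => by simp only [F, if_pos hv]
  have F1 : ∀ v ∈ S1, F v = AM.fix (z v) E := fun v hv => by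
    simp only [F, if_neg (d01 v hv), if_pos hv]
  have FG : ∀ v ∈ Gen, F v = AM.fix (Reps.two ^ (m v)) E := fun v hv => by
    simp only [F, if_neg (dG0 v hv), if_neg (dG1 v hv), if_pos hv]
  have FZ : ∀ v ∈ Z, F v = ⟨1, Pi.single v 1⟩ := fun v hv => by
    simp only [F, if_neg (dZ0 v hv), if_neg (dZ1 v hv), if_neg (dZG v hv), if_pos hv]
  have FO : ∀ v, v ∉ S0 → v ∉ S1 → v ∉ Gen → v ∉ Z → F v = 1 := fun v h0 h1 h2 h3 => by
    simp only [F, if_neg h0, if_neg h1, if_neg h2, if_neg h3]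
  let rel : V → V → Prop := fun s t => F s * F t = F t * F s ∨
      (((F s).a : ℂ) * ((F t).a : ℂ) ≠ 1 ∧ (((F s).a : ℂ) * ((F t).a : ℂ)) ^ half Λ s t = 1)
  have relsymm : ∀ s t, rel s t → rel t s := by
    intro s t h
    rcases h with h | ⟨h1, h2⟩
    · exact Or.inl h.symm
    · right
      rw [mul_comm, half_comm]
      exact ⟨h1, h2⟩
  have relone : ∀ s t, F t = 1 → rel s t := by
    intro s t ht
    left
    rw [ht, mul_one, one_mul]
  have rel0 : ∀ s t, Γ.graph.Adj s t → s ∈ S0 → rel s t := by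
    intro s t hst hs
    have ht : t = x ∨ Γ.graph.Adj x t := by
      rcases (hD.s0 s hs).1 t hst with h | h
      · exact Or.inl h
      · exact Or.inr h.symm
    by_cases h0 : t ∈ S0
    · left
      rw [F0 s hs, F0 t h0, AM.fix_comm]
    by_cases h1 : t ∈ S1
    · right
      rw [F0 s hs, F1 t h1]
      exact hD.deg s hs t h1
    · exact relone s t (FO t h0 h1 (fun h => outG t h ht) (fun h => outZ t h ht))
  have Fe : ∀ v, v ∈ S1 ∨ v ∈ Gen → ∃ u, F v = AM.fix u E := by
    rintro v (h | h)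
    · exact ⟨_, F1 v h⟩
    · exact ⟨_, FG v h⟩
  have rel1 : ∀ s t, Γ.graph.Adj s t → (s ∈ S1 ∨ s ∈ Gen) → t ∉ S0 → rel s t := by
    intro s t hst hs h0
    by_cases h1 : t ∈ S1 ∨ t ∈ Gen
    · obtain ⟨u, hu⟩ := Fe s hs
      obtain ⟨u', hu'⟩ := Fe t h1
      left
      rw [hu, hu', AM.fix_comm]
    · push Not at h1
      by_cases h2 : t ∈ Z
      · exfalso
        rcases hs with hs | hs
        · exact (hZ t h2).1 s hs hst.symm
        · exact (hZ t h2).2 s hs hst.symm
      · exact relone s t (FO t h0 h1.1 h1.2 h2)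
  have rel2 : ∀ s t, s ∈ Z → t ∉ S0 → t ∉ S1 → t ∉ Gen → rel s t := by
    intro s t hs h0 h1 h2
    by_cases h3 : t ∈ Z
    · left
      rw [FZ s hs, FZ t h3, AM.commute_iff]
      simp
    · exact relone s t (FO t h0 h1 h2 h3)
  have hrel : ∀ s t, Λ.graph.Adj s t → rel s t := by
    intro s t hst'
    have hst := (hT.td.adj s t).2 hst'
    by_cases hs0 : s ∈ S0
    · exact rel0 s t hst hs0
    by_cases ht0 : t ∈ S0
    · exact relsymm _ _ (rel0 t s hst.symm ht0)
    by_cases hs1 : s ∈ S1 ∨ s ∈ Gen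
    · exact rel1 s t hst hs1 ht0
    by_cases ht1 : t ∈ S1 ∨ t ∈ Gen
    · exact relsymm _ _ (rel1 t s hst.symm ht1 hs0)
    push Not at hs1 ht1
    by_cases hs2 : s ∈ Z
    · exact rel2 s t hs2 ht0 ht1.1 ht1.2
    · exact relsymm _ _ (relone t s (FO s hs0 hs1.1 hs1.2 hs2))
  obtain ⟨f, hf⟩ := exists_rep hΛ F hrel
  -- absolute values
  let t : V → ℤ := fun v => if v ∈ S0 ∪ S1 then ε v else if v ∈ Gen then m v else 0
  have ht : ∀ j, ‖((f (gen Λ j)).a : ℂ)‖ = (2 : ℝ) ^ t j := by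
    intro j
    rw [hf]
    by_cases h0 : j ∈ S0
    · have h1 : j ∈ S0 ∪ S1 := mem_union_left _ h0
      rw [F0 j h0]
      simp only [t, if_pos h1]
      exact hD.nrm j h1
    by_cases h1 : j ∈ S1
    · have h2 : j ∈ S0 ∪ S1 := mem_union_right _ h1
      rw [F1 j h1]
      simp only [t, if_pos h2]
      exact hD.nrm j h2
    have h2 : j ∉ S0 ∪ S1 := by
      rw [mem_union, not_or]
      exact ⟨h0, h1⟩
    by_cases h3 : j ∈ Gen
    · rw [FG j h3]
      simp only [t, if_neg h2, if_pos h3, AM.fix]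
      rw [Units.val_zpow_eq_zpow_val, norm_zpow, Reps.two_val]
      simp
    by_cases h4 : j ∈ Z
    · rw [FZ j h4]
      simp only [t, if_neg h2, if_neg h3]
      simp
    · rw [FO j h0 h1 h3 h4]
      simp only [t, if_neg h2, if_neg h3]
      simp
  have hsum : ∀ w, ∑ j, t j * M j w = n w := by
    intro w
    have h1 : ∀ j, t j * M j w = (if j ∈ S0 ∪ S1 then ε j * M j w else 0) +
        (if j ∈ Gen then m j * M j w else 0) := by
      intro j
      by_cases hj : j ∈ S0 ∪ S1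
      · have hj2 : j ∉ Gen := by
          intro h
          rcases mem_union.1 hj with h' | h'
          · exact dG0 j h h'
          · exact dG1 j h h'
        simp only [t, if_pos hj, if_neg hj2, add_zero]
      · by_cases hj2 : j ∈ Gen
        · simp only [t, if_neg hj, if_pos hj2, zero_add]
        · simp only [t, if_neg hj, if_neg hj2, zero_mul, add_zero]
    rw [sum_congr rfl (fun j _ => h1 j), sum_add_distrib, sum_ite_mem, sum_ite_mem,
      univ_inter, univ_inter]
    rfl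
  let R : Artin Γ →* AM (V → ℂ) := f.comp e.toMonoidHom
  have hR : ∀ w, ‖((R (gen Γ w)).a : ℂ)‖ = (2 : ℝ) ^ n w := by
    intro w
    have h1 := norm_lin hy f t ht (e (gen Γ w))
    rw [← hsum w]
    have h2 : ∑ j, t j * M j w = ∑ j, t j * Multiplicative.toAdd (y j (e (gen Γ w))) :=
      sum_congr rfl fun j _ => by rw [hM j w]; rfl
    rw [h2]
    exact h1
  have hor : ∀ v w, Γ.graph.Adj v w →
      R (gen Γ v) * R (gen Γ w) = R (gen Γ w) * R (gen Γ v) ∨ n v + n w = 0 := by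
    intro v w hvw
    have h1 := congrArg R (gen_rel hΓ hvw)
    rw [map_pow, map_pow, map_mul, map_mul] at h1
    rcases AM.comm_or_norm (hΓ.half_pos hvw) h1 with h | h
    · exact Or.inl h
    · right
      rw [hR, hR, ← zpow_add₀ (by norm_num)] at h
      by_contra hne
      exact two_zpow_ne hne h
  refine ⟨R, fun w hw => by rw [hR, n1 w hw], ?_⟩
  by_contra hcon
  push Not at hcon
  -- a vertex with nontrivial linear part
  obtain ⟨c, hc0, hc1⟩ := hU V Γ.graph M N hT.td.pre.mn hdN (half Λ) x S0 S1 ε z hD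
  obtain ⟨w0, hw0, hn0⟩ : ∃ w0, GDom Γ.graph x w0 ∧ n0 w0 ≠ 0 := by
    by_contra h
    push Not at h
    rw [sum_eq_zero (fun w _ => by
      by_cases hw : GDom Γ.graph x w
      · have h1 : nS M S0 S1 ε w = 0 := h w hw
        rw [h1, mul_zero]
      · rw [hc0 w hw, zero_mul])] at hc1
    exact absurd hc1 (by norm_num)
  have hst0 := up_adj hD.clq hw0
  have ha0 : 1 - ((R (gen Γ w0)).a : ℂ) ≠ 0 :=
    ne_one_of_norm (hR w0) (by rw [n1 w0 hst0]; exact hn0)
  let x0 : V → ℂ := (1 - ((R (gen Γ w0)).a : ℂ))⁻¹ • (R (gen Γ w0)).b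
  have hx0 : (R (gen Γ w0)).b = (1 - ((R (gen Γ w0)).a : ℂ)) • x0 := by
    simp only [x0]
    rw [smul_smul, mul_inv_cancel₀ ha0, one_smul]
  let Fx : V → Prop := fun w => (R (gen Γ w)).b = (1 - ((R (gen Γ w)).a : ℂ)) • x0
  have fxS : ∀ w, (w = x ∨ Γ.graph.Adj x w) → Fx w := by
    intro w hw
    exact fix_of_comm (hcon w0 w hst0 hw) ha0 hx0
  have fxG : ∀ g ∈ Gen, Fx g := by
    apply hind Fx
    · intro g hg hs
      obtain ⟨w, hxw, hwg, hnw⟩ := hS V Γ.graph M N hdM
        (fun a u v hu hv => (classInv domTr V Γ Λ M N hT.td a u v hu hv).2)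
        (half Λ) x S0 S1 ε z hD g (outG g hg) hs
      have hwS : w = x ∨ Γ.graph.Adj x w := Or.inr hxw
      have h1 : n g + n w ≠ 0 := n3 g hg w (fun h => outG g hg (by rw [← h]; exact hwS))
        (Or.inl hwS)
      have h2 : R (gen Γ w) * R (gen Γ g) = R (gen Γ g) * R (gen Γ w) := by
        rcases hor w g hwg with h | h
        · exact h
        · exact absurd (by rw [add_comm]; exact h) h1
      exact fix_of_comm h2 (ne_one_of_norm (hR w) (by rw [n1 w hwS]; exact hnw)) (fxS w hwS)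
    · intro g hg g' hg' hgg' hfx
      have h1 : n g + n g' ≠ 0 := n3 g hg g' hgg'.ne.symm (Or.inr hg')
      have h2 : R (gen Γ g) * R (gen Γ g') = R (gen Γ g') * R (gen Γ g) := by
        rcases hor g g' hgg' with h | h
        · exact h
        · exact absurd h h1
      exact fix_of_comm h2 (ne_one_of_norm (hR g) (n2 g hg)) hfx
  -- the invariant affine subspace
  let δ : V → (V → ℂ) := fun v => (R (gen Γ v)).b + ((R (gen Γ v)).a : ℂ) • x0 - x0
  let D : Submodule ℂ (V → ℂ) := Submodule.span ℂ ((Z.image δ : Finset (V → ℂ)) : Set (V → ℂ))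
  have hgen : ∀ v, R (gen Γ v) ∈ AM.stab x0 D := by
    intro v
    rw [AM.mem_stab]
    by_cases hv : v = x ∨ Γ.graph.Adj x v
    · have h1 : Fx v := fxS v hv
      rw [h1, ← add_smul, sub_add_cancel, one_smul, sub_self]
      exact D.zero_mem
    · have h1 := (hout v).2 hv
      rcases mem_union.1 h1 with h2 | h2
      · have h3 : Fx v := fxG v h2
        rw [h3, ← add_smul, sub_add_cancel, one_smul, sub_self]
        exact D.zero_mem
      · apply Submodule.subset_span
        rw [Finset.mem_coe]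
        exact mem_image_of_mem δ h2
  have hall : ∀ v, F v ∈ AM.stab x0 D := by
    intro v
    have h1 := mem_of_gen R (AM.stab x0 D) hgen (e.symm (gen Λ v))
    have h2 : R (e.symm (gen Λ v)) = F v := by
      simp [R, hf]
    rwa [h2] at h1
  have hx0D : x0 ∈ D := by
    obtain ⟨s, hs⟩ := hD.ne0
    have h1 := hall s
    rw [AM.mem_stab, F0 s hs] at h1
    simp only [AM.fix, smul_zero, zero_add] at h1
    have hz : 1 - (z s : ℂ) ≠ 0 := ne_one_of_norm (hD.nrm s (mem_union_left _ hs)) (by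
      rcases hD.eps s (mem_union_left _ hs) with h | h <;> rw [h] <;> norm_num)
    have h2 : (z s : ℂ) • x0 - x0 = (-(1 - (z s : ℂ))) • x0 := by
      rw [neg_smul, sub_smul, one_smul]
      abel
    rw [h2] at h1
    exact (D.smul_mem_iff (neg_ne_zero.2 hz)).1 h1
  have hED : E ∈ D := by
    obtain ⟨s, hs⟩ := hD.ne1
    have h1 := hall s
    rw [AM.mem_stab, F1 s hs] at h1
    simp only [AM.fix] at h1
    have hz : 1 - (z s : ℂ) ≠ 0 := ne_one_of_norm (hD.nrm s (mem_union_right _ hs)) (by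
      rcases hD.eps s (mem_union_right _ hs) with h | h <;> rw [h] <;> norm_num)
    have h2 : (1 - (z s : ℂ)) • E + (z s : ℂ) • x0 - x0 = (1 - (z s : ℂ)) • (E - x0) := by
      rw [smul_sub, sub_smul (1 : ℂ) _ x0, one_smul]
      abel
    rw [h2] at h1
    have h3 := (D.smul_mem_iff hz).1 h1
    have h4 := D.add_mem h3 hx0D
    rwa [sub_add_cancel] at h4
  have hZD : ∀ v ∈ Z, (Pi.single v 1 : V → ℂ) ∈ D := by
    intro v hv
    have h1 := hall v
    rw [AM.mem_stab, FZ v hv] at h1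
    simpa using h1
  -- dimensions
  have hxZ : x ∉ Z := fun h => outZ x h (Or.inl rfl)
  let I : Finset V := insert x Z
  have hli : LinearIndependent ℂ (fun i : I => (Pi.basisFun ℂ V) i.1) :=
    (Pi.basisFun ℂ V).linearIndependent.comp (fun i : I => i.1) Subtype.val_injective
  have h1 : Submodule.span ℂ (Set.range (fun i : I => (Pi.basisFun ℂ V) i.1)) ≤ D := by
    rw [Submodule.span_le]
    rintro _ ⟨⟨v, hv⟩, rfl⟩
    simp only [Pi.basisFun_apply]
    rcases mem_insert.1 hv with h | h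
    · subst h
      exact hED
    · exact hZD v h
  have h2 := Submodule.finrank_mono h1
  rw [finrank_span_eq_card hli] at h2
  have h3 : Module.finrank ℂ D ≤ (Z.image δ).card := finrank_span_finset_le_card _
  have h4 : (Z.image δ).card ≤ Z.card := card_image_le
  have h5 : Fintype.card I = Z.card + 1 := by
    rw [Fintype.card_coe]
    exact card_insert_of_notMem hxZ
  omega

end WGEven
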