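import Pool.Agent.Lib.MP_107652_al.Even.LocAM

/-!
# Localised star conditions (`LocS`)
-/

set_option autoImplicit false

open Finset

namespace WGEven

open WGirth WGTwin

/-- **LocS.** -/
theorem locS (hG : GenEx) (hO : BlkOut) (hB : BlkGen) (hS : BlkS) (hU : UpInv) : LocS := by
  intro V _ _ Γ Λ M N hΓ hΛ hT x S0 S1 ε z hD
  obtain ⟨R, hR, c, c', hcS, hcS', hcc⟩ := locAM hG hO hB hS hU hΓ hΛ hT hD
  have hdN : ∀ v l, N l v ≠ 0 → GDom Γ.graph v l := fun v l h => hT.td.domN l v h
  obtain ⟨d, hd0, hd1⟩ := hU V Γ.graph M N hT.td.pre.mn hdN (half Λ) x S0 S1 ε z hD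
  set n : V → ℤ := nS M S0 S1 ε with hn
  set g : V → AM (V → ℂ) := fun v => R (gen Γ v) with hg
  let St : V → Prop := fun w => w = x ∨ Γ.graph.Adj x w
  have hrel : ∀ v w, Γ.graph.Adj v w → (g v * g w) ^ half Γ v w = (g w * g v) ^ half Γ v w := by
    intro v w hvw
    have h1 := congrArg R (gen_rel hΓ hvw)
    simpa [map_pow, map_mul, hg] using h1
  have hor : ∀ v w, St v → St w → Γ.graph.Adj v w → g v * g w = g w * g v ∨ n v + n w = 0 := by
    intro v w hv hw hvw
    rcases AM.comm_or_norm (hΓ.half_pos hvw) (hrel v w hvw) with h | h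
    · exact Or.inl h
    · right
      rw [hR v hv, hR w hw, ← zpow_add₀ (by norm_num)] at h
      by_contra hne
      exact LocAM.two_zpow_ne hne h
  have hlight : ∀ v w, Γ.graph.Adj v w → half Γ v w = 1 → g v * g w = g w * g v := by
    intro v w hvw h1
    have := hrel v w hvw
    rwa [h1, pow_one, pow_one] at this
  have hone : ∀ v, St v → g v = 1 → n v = 0 := by
    intro v hv hgv
    by_contra hne
    apply LocAM.two_zpow_ne hne
    rw [hn, ← hR v hv]
    have h1 : R (gen Γ v) = 1 := hgv
    rw [h1]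
    simp
  have hup : ∀ w, GDom Γ.graph x w → St w := fun w hw => up_adj hD.clq hw
  have hadj : ∀ w s, GDom Γ.graph x w → St s → s ≠ w → Γ.graph.Adj s w := by
    intro w s hw hs hne
    rcases up_star hD.clq hw hs with h | h
    · exact absurd h hne
    · exact h
  -- a vertex which is not trivial does not commute with `c` or `c'`
  have hnot : ∀ u, g u ≠ 1 → g u * g c ≠ g c * g u ∨ g u * g c' ≠ g c' * g u := by
    intro u hu
    by_contra hcon
    push Not at hcon
    exact hcc (AM.trans hu hcon.1.symm hcon.2)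
  have hex : ∀ w, GDom Γ.graph x w → g w ≠ 1 → ∃ u, St u ∧ g w * g u ≠ g u * g w ∧
      n u + n w = 0 := by
    intro w hw hgw
    have key : ∀ u, St u → g w * g u ≠ g u * g w → n u + n w = 0 := by
      intro u hu hne
      have h1 : u ≠ w := fun h => hne (by rw [h])
      rcases hor u w hu (hup w hw) (hadj w u hw hu h1) with h | h
      · exact absurd h.symm hne
      · exact h
    rcases hnot w hgw with h | h
    · exact ⟨c, hcS, h, key c hcS h⟩
    · exact ⟨c', hcS', h, key c' hcS' h⟩
  obtain ⟨w0, hw0, hn0⟩ : ∃ w0, GDom Γ.graph x w0 ∧ n w0 ≠ 0 := by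
    by_contra h
    push Not at h
    rw [sum_eq_zero (fun w _ => by
      by_cases hw : GDom Γ.graph x w
      · rw [h w hw, mul_zero]
      · rw [hd0 w hw, zero_mul])] at hd1
    exact absurd hd1 (by norm_num)
  have hg0 : g w0 ≠ 1 := fun h => hn0 (hone w0 (hup w0 hw0) h)
  obtain ⟨u0, hu0, hne0, hs0⟩ := hex w0 hw0 hg0
  have hval : ∀ w, GDom Γ.graph x w → g w ≠ 1 → n w = n w0 ∨ n w = -n w0 := by
    intro w hw hgw
    have h1 : g w * g w0 ≠ g w0 * g w ∨ g w * g u0 ≠ g u0 * g w := by
      by_contra hcon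
      push Not at hcon
      exact hne0 (AM.trans hgw hcon.1.symm hcon.2)
    rcases h1 with h1 | h1
    · have h2 : w0 ≠ w := fun h => h1 (by rw [h])
      rcases hor w0 w (hup w0 hw0) (hup w hw) (hadj w w0 hw (hup w0 hw0) h2) with h | h
      · exact absurd h.symm h1
      · right
        omega
    · have h2 : u0 ≠ w := fun h => h1 (by rw [h])
      rcases hor u0 w hu0 (hup w hw) (hadj w u0 hw hu0 h2) with h | h
      · exact absurd h.symm h1
      · left
        omega
  have hallv : ∀ w, GDom Γ.graph x w → n w = 0 ∨ n w = n w0 ∨ n w = -n w0 := by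
    intro w hw
    by_cases h : g w = 1
    · exact Or.inl (hone w (hup w hw) h)
    · exact Or.inr (hval w hw h)
  have hunit : n w0 = 1 ∨ n w0 = -1 := by
    have hdv : n w0 ∣ 1 := by
      rw [← hd1]
      apply dvd_sum
      intro w _
      by_cases hw : GDom Γ.graph x w
      · apply Dvd.dvd.mul_left
        rcases hallv w hw with h | h | h
        · rw [h]; exact dvd_zero _
        · rw [h]
        · rw [h]; exact (dvd_neg).2 dvd_rfl
      · rw [hd0 w hw, zero_mul]
        exact dvd_zero _
    exact Int.isUnit_iff.1 (isUnit_of_dvd_one hdv)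
  refine ⟨?_, ?_⟩
  · intro w hw
    rw [abs_le]
    rcases hallv w hw with h | h | h <;> rcases hunit with h' | h' <;> constructor <;> omega
  · intro w w' hw hw' hww hk
    by_contra hcon
    push Not at hcon
    have hv0 : n w ≠ 0 := fun h => by rw [h] at hcon; simp at hcon
    have hv0' : n w' ≠ 0 := fun h => by rw [h] at hcon; simp at hcon
    have hgw : g w ≠ 1 := fun h => hv0 (hone w (hup w hw) h)
    have hgw' : g w' ≠ 1 := fun h => hv0' (hone w' (hup w' hw') h)
    have hcomm := hlight w w' hww hk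
    obtain ⟨u, hu, hne, hs⟩ := hex w hw hgw
    have hne' : g w' * g u ≠ g u * g w' := fun h => hne (AM.trans hgw' hcomm h)
    have h2 : u ≠ w' := fun h => hne' (by rw [h])
    rcases hor u w' hu (hup w' hw') (hadj w' u hw' hu h2) with h | h
    · exact hne' h.symm
    · have h3 : n w = n w' := by omega
      rw [h3] at hcon
      nlinarith [mul_self_nonneg (n w')]

end WGEven
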