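import Pool.Agent.Lib.MP_107652_al.Even.Spec

/-!
# MP_107652_al, even case: the absolute values of the linear parts (`NormC`)
-/

set_option autoImplicit false

open Finset

namespace WGEven

open WGirth WGTwin

theorem normC : NormC := by
  intro V _ _ Γ Λ y hy φ χ S0 S1 Gen ε q hdis hS hG hO w
  have h1 : χ (φ (gen Γ w)) = ∏ i, χ (gen Λ i) ^ (mat y φ i w) := hy.2 ℂˣ χ (φ (gen Γ w))
  have h2 : ‖(χ (φ (gen Γ w)) : ℂ)‖ = ∏ i, ‖(χ (gen Λ i) : ℂ)‖ ^ (mat y φ i w) := by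
    rw [h1, Units.coe_prod, norm_prod]
    refine Finset.prod_congr rfl fun i _ => ?_
    rw [Units.val_zpow_eq_zpow_val, norm_zpow]
  have h3 : ∏ i, ‖(χ (gen Λ i) : ℂ)‖ ^ (mat y φ i w) =
      ∏ i ∈ (S0 ∪ S1) ∪ Gen, ‖(χ (gen Λ i) : ℂ)‖ ^ (mat y φ i w) := by
    symm
    refine Finset.prod_subset (Finset.subset_univ _) fun i _ hi => ?_
    rw [Finset.mem_union, not_or] at hi
    rw [hO i hi.1 hi.2, Units.val_one, norm_one, one_zpow]
  have h4 : ∏ i ∈ S0 ∪ S1, ‖(χ (gen Λ i) : ℂ)‖ ^ (mat y φ i w) =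
      (2 : ℝ) ^ nS (mat y φ) S0 S1 ε w := by
    unfold nS
    rw [Finset.prod_congr rfl (fun i hi => by
      rw [hS i hi, ← zpow_mul] : ∀ i ∈ S0 ∪ S1, ‖(χ (gen Λ i) : ℂ)‖ ^ (mat y φ i w) =
        (2 : ℝ) ^ (ε i * mat y φ i w))]
    generalize S0 ∪ S1 = S
    induction S using Finset.induction_on with
    | empty => simp
    | insert a s ha ih =>
      rw [Finset.prod_insert ha, Finset.sum_insert ha, ih, zpow_add₀ (two_ne_zero)]
  rw [h2, h3, Finset.prod_union hdis, h4]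
  congr 1
  exact Finset.prod_congr rfl fun i hi => by rw [hG i hi]

end WGEven
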