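import Pool.Agent.Lib.MP_107652_al.Even.Spec

/-!
# MP_107652_al: affine representations which depend linearly on their fixed points
-/

set_option autoImplicit false

open Finset

namespace WGEven

open WGirth WGTwin

namespace RepCAux

variable {V : Type}

open Classical in
/-- the linear parts -/
noncomputable def lp (kind : V → Option (Fin 3)) (z : V → ℂˣ) (v : V) : ℂˣ :=
  if kind v = some 0 ∨ kind v = some 1 then z v else 1

open Classical in
/-- the translation parts -/
noncomputable def bp (kind : V → Option (Fin 3)) (z : V → ℂˣ)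
    (c : ℂ × ℂ × ({v // kind v = some 2} → ℂ)) (v : V) : ℂ :=
  if kind v = some 0 then (1 - (z v : ℂ)) * c.1
  else if kind v = some 1 then (1 - (z v : ℂ)) * c.2.1
  else if h : kind v = some 2 then c.2.2 ⟨v, h⟩ else 0

variable {kind : V → Option (Fin 3)} {z : V → ℂˣ}

theorem lp0 {v : V} (h : kind v = some 0) : lp kind z v = z v := by
  unfold lp
  rw [if_pos (Or.inl h)]

theorem lp1 {v : V} (h : kind v = some 1) : lp kind z v = z v := by
  unfold lp
  rw [if_pos (Or.inr h)]

theorem lpn {v : V} (h0 : kind v ≠ some 0) (h1 : kind v ≠ some 1) : lp kind z v = 1 := by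
  unfold lp
  rw [if_neg (not_or.mpr ⟨h0, h1⟩)]

theorem bp0 {v : V} (h : kind v = some 0) (c : ℂ × ℂ × ({v // kind v = some 2} → ℂ)) :
    bp kind z c v = (1 - (z v : ℂ)) * c.1 := by
  unfold bp
  rw [if_pos h]

theorem bp1 {v : V} (h : kind v = some 1) (c : ℂ × ℂ × ({v // kind v = some 2} → ℂ)) :
    bp kind z c v = (1 - (z v : ℂ)) * c.2.1 := by
  unfold bp
  rw [if_neg (by rw [h]; decide), if_pos h]

theorem bp2 {v : V} (h : kind v = some 2) (c : ℂ × ℂ × ({v // kind v = some 2} → ℂ)) :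
    bp kind z c v = c.2.2 ⟨v, h⟩ := by
  unfold bp
  rw [if_neg (by rw [h]; decide), if_neg (by rw [h]; decide), dif_pos h]

theorem bpn {v : V} (h : kind v = none) (c : ℂ × ℂ × ({v // kind v = some 2} → ℂ)) :
    bp kind z c v = 0 := by
  unfold bp
  rw [if_neg (by rw [h]; decide), if_neg (by rw [h]; decide), dif_neg (by rw [h]; decide)]

theorem bp_add (c c' : ℂ × ℂ × ({v // kind v = some 2} → ℂ)) (v : V) :
    bp kind z (c + c') v = bp kind z c v + bp kind z c' v := by
  unfold bp
  split_ifs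
  · rw [Prod.fst_add]; ring
  · rw [Prod.snd_add, Prod.fst_add]; ring
  · rfl
  · rw [add_zero]

theorem bp_smul (r : ℂ) (c : ℂ × ℂ × ({v // kind v = some 2} → ℂ)) (v : V) :
    bp kind z (r • c) v = r * bp kind z c v := by
  unfold bp
  split_ifs
  · rw [Prod.smul_fst, smul_eq_mul]; ring
  · rw [Prod.smul_snd, Prod.smul_fst, smul_eq_mul]; ring
  · rfl
  · rw [mul_zero]

theorem cases4 (o : Option (Fin 3)) : o = some 0 ∨ o = some 1 ∨ o = some 2 ∨ o = none := by
  rcases o with _ | j
  · exact Or.inr (Or.inr (Or.inr rfl))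
  · fin_cases j
    · exact Or.inl rfl
    · exact Or.inr (Or.inl rfl)
    · exact Or.inr (Or.inr (Or.inl rfl))

theorem rel (Λ : LGraph V)
    (h1 : ∀ s t, Λ.graph.Adj s t → kind s = some 0 → kind t = some 1 →
      (z s : ℂ) * z t ≠ 1 ∧ ((z s : ℂ) * z t) ^ half Λ s t = 1)
    (h2 : ∀ s t, Λ.graph.Adj s t → kind t = some 2 → kind s ≠ some 0 ∧ kind s ≠ some 1)
    (c : ℂ × ℂ × ({v // kind v = some 2} → ℂ)) (s t : V) (hst : Λ.graph.Adj s t) :
    ((⟨lp kind z s, bp kind z c s⟩ : Aff) * ⟨lp kind z t, bp kind z c t⟩) ^ half Λ s t =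
      ((⟨lp kind z t, bp kind z c t⟩ : Aff) * ⟨lp kind z s, bp kind z c s⟩) ^ half Λ s t := by
  have comm : (1 - (lp kind z s : ℂ)) * bp kind z c t = (1 - (lp kind z t : ℂ)) * bp kind z c s →
      ((⟨lp kind z s, bp kind z c s⟩ : Aff) * ⟨lp kind z t, bp kind z c t⟩) ^ half Λ s t =
      ((⟨lp kind z t, bp kind z c t⟩ : Aff) * ⟨lp kind z s, bp kind z c s⟩) ^ half Λ s t := by
    intro h
    rw [(Aff.commute_iff _ _).mpr h]
  have lpn' : ∀ {v : V}, kind v = none → lp kind z v = 1 := by
    intro v h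
    exact lpn (by rw [h]; decide) (by rw [h]; decide)
  have lp2' : ∀ {v : V}, kind v = some 2 → lp kind z v = 1 := by
    intro v h
    exact lpn (by rw [h]; decide) (by rw [h]; decide)
  rcases cases4 (kind s) with hs | hs | hs | hs <;> rcases cases4 (kind t) with ht | ht | ht | ht
  · apply comm
    rw [lp0 hs, lp0 ht, bp0 hs, bp0 ht]
    ring
  · -- kinds 0, 1
    obtain ⟨e1, e2⟩ := h1 s t hst hs ht
    rw [Aff.pow_eq_one, Aff.pow_eq_one]
    · rw [Aff.mul_a, lp0 hs, lp1 ht, Units.val_mul, mul_comm]; exact e1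
    · rw [Aff.mul_a, lp0 hs, lp1 ht, Units.val_mul, mul_comm (z t : ℂ)]; exact e2
    · rw [Aff.mul_a, lp0 hs, lp1 ht, Units.val_mul]; exact e1
    · rw [Aff.mul_a, lp0 hs, lp1 ht, Units.val_mul]; exact e2
  · exact absurd hs (h2 s t hst ht).1
  · apply comm
    rw [lpn' ht, bpn ht, Units.val_one]
    ring
  · -- kinds 1, 0
    obtain ⟨e1, e2⟩ := h1 t s hst.symm ht hs
    rw [half_comm] at e2
    rw [Aff.pow_eq_one, Aff.pow_eq_one]
    · rw [Aff.mul_a, lp1 hs, lp0 ht, Units.val_mul]; exact e1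
    · rw [Aff.mul_a, lp1 hs, lp0 ht, Units.val_mul]; exact e2
    · rw [Aff.mul_a, lp1 hs, lp0 ht, Units.val_mul, mul_comm]; exact e1
    · rw [Aff.mul_a, lp1 hs, lp0 ht, Units.val_mul, mul_comm (z s : ℂ)]; exact e2
  · apply comm
    rw [lp1 hs, lp1 ht, bp1 hs, bp1 ht]
    ring
  · exact absurd hs (h2 s t hst ht).2
  · apply comm
    rw [lpn' ht, bpn ht, Units.val_one]
    ring
  · exact absurd ht (h2 t s hst.symm hs).1
  · exact absurd ht (h2 t s hst.symm hs).2
  · apply comm
    rw [lp2' hs, lp2' ht]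
    simp
  · apply comm
    rw [lp2' hs, lpn' ht]
    simp
  · apply comm
    rw [lpn' hs, bpn hs, Units.val_one]
    ring
  · apply comm
    rw [lpn' hs, bpn hs, Units.val_one]
    ring
  · apply comm
    rw [lpn' hs, lp2' ht]
    simp
  · apply comm
    rw [lpn' hs, lpn' ht]
    simp

end RepCAux

open RepCAux in
theorem repC : RepC := by
  intro V _ _ Λ hΛ kind z h1 h2
  have hex : ∀ c : ℂ × ℂ × ({v // kind v = some 2} → ℂ), ∃ f : Artin Λ →* Aff, ∀ v,
      f (gen Λ v) = ⟨lp kind z v, bp kind z c v⟩ := fun c =>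
    exists_hom hΛ (fun v => (⟨lp kind z v, bp kind z c v⟩ : Aff)) (rel Λ h1 h2 c)
  choose F hF using hex
  set χ : Artin Λ →* ℂˣ := Aff.lin.comp (F 0) with hχ
  have hχg : ∀ v, χ (gen Λ v) = lp kind z v := by
    intro v
    rw [hχ, MonoidHom.comp_apply, hF, Aff.lin_apply]
  have hlin : ∀ c g, (F c g).a = χ g := by
    intro c g
    have : Aff.lin.comp (F c) = χ := by
      apply hom_ext
      intro v
      rw [hχg, MonoidHom.comp_apply, hF, Aff.lin_apply]
    rw [← this]
    rfl
  have hmul : ∀ c g h, (F c (g * h)).b = (F c g).b + (χ g : ℂ) * (F c h).b := by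
    intro c g h
    rw [map_mul, Aff.mul_b, hlin]
  have hb : ∀ c v, (F c (gen Λ v)).b = bp kind z c v := by
    intro c v
    rw [hF]
  -- additivity
  have hadd : ∀ c c' g, (F (c + c') g).b = (F c g).b + (F c' g).b := by
    intro c c' g
    let f : Artin Λ →* Aff := MonoidHom.mk' (fun g => ⟨χ g, (F c g).b + (F c' g).b⟩) (by
      intro g h
      ext
      · rw [Aff.mul_a, map_mul]
      · rw [Aff.mul_b]
        simp only [hmul]
        ring)
    have : F (c + c') = f := by
      apply hom_ext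
      intro v
      rw [hF]
      have : f (gen Λ v) = ⟨χ (gen Λ v), (F c (gen Λ v)).b + (F c' (gen Λ v)).b⟩ := rfl
      rw [this, hχg, hb, hb, bp_add]
    rw [this]
    rfl
  have hsmul : ∀ (r : ℂ) c g, (F (r • c) g).b = r * (F c g).b := by
    intro r c g
    let f : Artin Λ →* Aff := MonoidHom.mk' (fun g => ⟨χ g, r * (F c g).b⟩) (by
      intro g h
      ext
      · rw [Aff.mul_a, map_mul]
      · rw [Aff.mul_b]
        simp only [hmul]
        ring)
    have : F (r • c) = f := by
      apply hom_ext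
      intro v
      rw [hF]
      have : f (gen Λ v) = ⟨χ (gen Λ v), r * (F c (gen Λ v)).b⟩ := rfl
      rw [this, hχg, hb, bp_smul]
    rw [this]
    rfl
  refine ⟨χ, { toFun := fun c g => (F c g).b, map_add' := fun c c' => ?_, map_smul' := fun r c => ?_ },
    ?_, ?_, ?_, ?_, ?_⟩
  · funext g
    exact hadd c c' g
  · funext g
    exact hsmul r c g
  · intro c g h
    exact hmul c g h
  · intro v hv
    refine ⟨by rw [hχg, lp0 hv], fun c => ?_⟩
    have := hb c v
    rw [bp0 hv] at this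
    exact this
  · intro v hv
    refine ⟨by rw [hχg, lp1 hv], fun c => ?_⟩
    have := hb c v
    rw [bp1 hv] at this
    exact this
  · intro v hv
    refine ⟨by rw [hχg, lpn (by rw [hv]; decide) (by rw [hv]; decide)], fun c => ?_⟩
    have := hb c v
    rw [bpn hv] at this
    exact this
  · intro v hv
    refine ⟨by rw [hχg, lpn (by rw [hv]; decide) (by rw [hv]; decide)], fun c => ?_⟩
    have := hb c v
    rw [bp2 hv] at this
    exact this

end WGEven
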