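import Pool.Agent.Lib.MP_107652_al.Even.Spec
import Pool.Agent.Lib.MP_107652_al.Twin.StarEx
import Pool.Agent.Lib.MP_107652_al.Twin.GoodEx
import Pool.Agent.Lib.MP_107652_al.Twin.RelL
import Pool.Agent.Lib.MP_107652_al.Twin.ResNil
import Pool.Agent.Lib.MP_107652_al.Twin.SGen
import Pool.Agent.Lib.MP_107652_al.Twin.RepP

/-!
# MP_107652_al, Even: star representations in characteristic `p`, restricted to a clique
-/

set_option autoImplicit false

open Finset

namespace WGEven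

open WGirth WGTwin

open WGTwin.StarExAux in
/-- **StarQEx**. -/
theorem starQEx : StarQEx := by
  intro V W _ _ _ _ Γ Λ hΓ hΛ x hx φ p hp a b hab hpab S T M' haS hbS hsum hadj hT
  by_contra hcon
  obtain ⟨R, iR, iD, X, t, hR⟩ := goodEx p hp
  have hbA : b ∉ ({a} : Finset V) := by
    rw [Finset.mem_singleton]
    exact hab.ne.symm
  obtain ⟨f, hfa, hf1, g₀, h₀, hne⟩ := repP p R X t hR V Γ hΓ a b hab hpab {a}
    (Finset.mem_singleton_self a) hbA
    (by
      intro y hy z hz h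
      rw [Finset.mem_singleton.1 hy, Finset.mem_singleton.1 hz] at h
      exact h.ne rfl) (fun _ => 0)
  obtain ⟨d, hd⟩ : ∃ d : V → ℤ, d = fun v =>
      if v = a then (1 : ℤ) else if v = b then -1 else if v ∈ ({a} : Finset V) then 0 else 0 :=
    ⟨_, rfl⟩
  have hfa' : ∀ v, (f (gen Γ v)).a = t ^ d v := fun v => by rw [hd]; exact hfa v
  have hlin := lin_exp hx t f d hfa'
  have hnn : ∀ w, nn (mat x φ) a b {a} (fun _ => 0) w = mat x φ a w - mat x φ b w := by
    intro w
    simp [nn]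
  have hFa : ∀ w, (f (φ (gen Λ w))).a = t ^ (mat x φ a w - mat x φ b w) := by
    intro w
    rw [hlin, hd, ← hnn w]
    exact congrArg (fun n => t ^ n) (sum_nn (mat x φ) a b {a} hab.ne hbA (fun _ => 0) w)
  obtain ⟨v0, hv0, hv0n⟩ := hT
  have hv0a : (f (φ (gen Λ v0))).a ≠ 1 := fun h => hv0n (hR.inf _ ((hFa v0).symm.trans h))
  -- every element of `T` commutes with `v0`
  have h1 : ∀ u ∈ T,
      f (φ (gen Λ v0)) * f (φ (gen Λ u)) = f (φ (gen Λ u)) * f (φ (gen Λ v0)) := by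
    intro u hu
    by_cases huv : v0 = u
    · rw [huv]
    · have ha := hadj v0 hv0 u hu huv
      have e1 := gen_rel hΛ ha
      have e2 : (f (φ (gen Λ v0)) * f (φ (gen Λ u))) ^ half Λ v0 u
          = (f (φ (gen Λ u)) * f (φ (gen Λ v0))) ^ half Λ v0 u := by
        have e3 := congrArg (fun z => f (φ z)) e1
        simpa only [map_pow, map_mul] using e3
      rcases relL p R X t hR _ _ _ _ _ (hFa v0) (hFa u) (hΛ.half_pos ha) e2 with h | h
      · exact h
      · exact absurd ⟨v0, hv0, u, hu, huv, hv0n, h⟩ hcon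
  have hall : ∀ u ∈ T, ∀ u' ∈ T,
      f (φ (gen Λ u)) * f (φ (gen Λ u')) = f (φ (gen Λ u')) * f (φ (gen Λ u)) :=
    fun u hu u' hu' => cTL R _ _ _ hv0a (h1 u hu) (h1 u' hu')
  have hH := closure_comm f {y | ∃ w ∈ T, y = φ (gen Λ w)} (by
    rintro y ⟨w, hw, rfl⟩ y' ⟨w', hw', rfl⟩
    exact hall w hw w' hw')
  have hS := sGen V W Γ Λ x hx φ (AR R) f S T M'
    (fun v hv => hf1 v (fun h => hv (h ▸ hbS)) (fun h => by
      rw [Finset.mem_singleton] at h
      exact hv (h ▸ haS))) hsum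
  have hX : ∀ g, X ∣ 1 - ((f g).a : R) := by
    intro g
    rw [hlin g]
    exact dvd_one_sub hR.unit _
  exact hne (resNil R X hR.sep (Artin Γ) f
    (Subgroup.closure {y | ∃ w ∈ T, y = φ (gen Λ w)}) hX hS hH g₀ h₀)

end WGEven
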