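import Pool.Agent.Lib.MP_107652_al.Even.Spec
import Pool.Agent.Lib.MP_107652_al.Twin.DomTr

/-!
# MP_107652_al: the data of an isomorphism are symmetric
-/

set_option autoImplicit false

namespace WGEven

open WGirth WGTwin

theorem tDESymm : TDESymm := by
  intro V _ _ Γ Λ M N h
  obtain ⟨x, y, e, hx, hy, hM, hN⟩ := h.ex
  refine ⟨tDsymm V Γ Λ M N h.td, y, x, e.symm, hy, hx, hN, ?_⟩
  intro v i
  rw [MulEquiv.symm_symm]
  exact hM v i

end WGEven
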