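import Pool.Agent.Lib.MP_107652_al.Even.Spec
import Pool.Agent.Lib.MP_107652_al.LemB
import Pool.Agent.Lib.MP_107652_al.T45
import Pool.Agent.Lib.MP_107652_al.T3Two
import Pool.Agent.Lib.MP_107652_al.T3

/-!
# MP_107652_al: light triangles and light paths in a clique class
-/

set_option autoImplicit false

open Finset

namespace WGEven

open WGirth in
theorem tK (h : PairK) : TK := by
  intro V _ _ G k k' M N π hC x hx a b c ta tb tc hab hbc hac
  have hP := h V G k k' M N π hC x hx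
  have hadj : ∀ u v : {w // w ∈ gcls G x}, u ≠ v → G.Adj u.1 v.1 := by
    intro u v huv
    rcases clq_adj2 hx (mem_gcls.mp u.2) (mem_gcls.mp v.2) with e | e
    · exact absurd (Subtype.ext e) huv
    · exact e
  have ne : ∀ {u v : V} (hu : u ∈ gcls G x) (hv : v ∈ gcls G x), G.Adj u v →
      (⟨u, hu⟩ : {w // w ∈ gcls G x}) ≠ ⟨v, hv⟩ := by
    intro u v hu hv huv e
    exact huv.ne (congrArg Subtype.val e)
  have ha := mem_gcls.mpr ta
  have hb := mem_gcls.mpr tb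
  have hc := mem_gcls.mpr tc
  refine ⟨fun k1 k2 k3 => ?_, fun k1 k2 => ?_⟩
  · obtain ⟨i, j, l, hij, hjl, hil, e1, e2, e3⟩ := t3 starB det3 (t3Two starB ind3 cardEq)
      _ _ _ _ _ _ hP ⟨a, ha⟩ ⟨b, hb⟩ ⟨c, hc⟩ (ne ha hb hab) (ne hb hc hbc) (ne ha hc hac) k1 k2 k3
    exact ⟨i.1, j.1, l.1, mem_gcls.mp i.2, mem_gcls.mp j.2, mem_gcls.mp l.2, hadj i j hij,
      hadj j l hjl, hadj i l hil, e1, e2, e3⟩
  · by_contra hcon
    refine t4 starB ind3 cardEq _ _ _ _ _ _ hP ?_ ⟨a, ha⟩ ⟨b, hb⟩ ⟨c, hc⟩ (ne ha hb hab)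
      (ne hb hc hbc) (ne ha hc hac) k1 k2
    intro i j l hij hil hjl e1
    have h1 := hC.posk' i.1 l.1 (hadj i l hil)
    by_contra hlt
    have e2 : k' i.1 l.1 = 1 := by
      have : ¬ 2 ≤ k' i.1 l.1 := hlt
      omega
    exact hcon ⟨i.1, j.1, l.1, mem_gcls.mp i.2, mem_gcls.mp j.2, mem_gcls.mp l.2,
      (hadj i j hij).symm, hadj i l hil, hadj j l hjl, by rw [hC.symk']; exact e1, e2⟩

end WGEven
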