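import Pool.Agent.Lib.MP_107652_al.Even.Spec
import Pool.Agent.Lib.MP_107652_al.ExpHom
import Pool.Agent.Lib.MP_107652_al.Twin.PreEx
import Pool.Agent.Lib.MP_107652_al.Twin.Transport
import Pool.Agent.Lib.MP_107652_al.Twin.HeisGen
import Pool.Agent.Lib.MP_107652_al.Twin.StarEx
import Pool.Agent.Lib.MP_107652_al.Twin.GoodEx
import Pool.Agent.Lib.MP_107652_al.Twin.RelL
import Pool.Agent.Lib.MP_107652_al.Twin.ResNil
import Pool.Agent.Lib.MP_107652_al.Twin.SGen
import Pool.Agent.Lib.MP_107652_al.Twin.RepP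
import Pool.Agent.Lib.MP_107652_al.Twin.PermEx
import Pool.Agent.Lib.MP_107652_al.Twin.DegLe
import Pool.Agent.Lib.MP_107652_al.Twin.DomM
import Pool.Agent.Lib.MP_107652_al.Twin.DomN
import Pool.Agent.Lib.MP_107652_al.Twin.DomTr
import Pool.Agent.Lib.MP_107652_al.Twin.AdjIso

/-!
# MP_107652_al, even Artin groups, module Trans2: both graphs on one vertex set, with the isomorphism
-/

set_option autoImplicit false

open Finset

namespace WGEven

open WGirth WGTwin

namespace Trans2Aux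

variable {V W : Type} [Fintype V] [Fintype W] [DecidableEq V] [DecidableEq W]

theorem pre_of {Γ : LGraph V} {Λ : LGraph W} (hΓ : IsEven Γ) (hΛ : IsEven Λ)
    {x : V → (Artin Γ →* Multiplicative ℤ)} {y : W → (Artin Λ →* Multiplicative ℤ)}
    (hx : IsExp Γ x) (hy : IsExp Λ y) (e : Artin Γ ≃* Artin Λ) :
    Pre Γ Λ (mat y e.toMonoidHom) (mat x e.symm.toMonoidHom) := by
  have e1 : ∀ g, e.symm.toMonoidHom (e.toMonoidHom g) = g := fun g => e.symm_apply_apply g
  have e2 : ∀ g, e.toMonoidHom (e.symm.toMonoidHom g) = g := fun g => e.apply_symm_apply g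
  exact
    { nm := fun v w => PreExAux.inv_aux hx hy _ _ e1 v w
      mn := fun i j => PreExAux.inv_aux hy hx _ _ e2 i j
      heisM := fun a b hab i j hij => PreExAux.heis_aux heisGen hΓ hΛ hy _ a b hab i j hij
      heisM0 := fun a b hab i j hne hij =>
        PreExAux.heis0_aux heisGen hΓ hΛ hy _ a b hab i j hne hij
      heisN := fun i j hij a b hab => PreExAux.heis_aux heisGen hΛ hΓ hx _ i j hij a b hab
      heisN0 := fun i j hij a b hne hab =>
        PreExAux.heis0_aux heisGen hΛ hΓ hx _ i j hij a b hne hab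
      starN := starEx goodEx relL cTL resNil sGen repP V W Γ Λ hΓ hΛ x hx _
      starM := starEx goodEx relL cTL resNil sGen repP W V Λ Γ hΛ hΓ y hy _ }

theorem td_of {Γ : LGraph V} {Λ : LGraph W} {M : W → V → ℤ} {N : V → W → ℤ}
    (hpre : Pre Γ Λ M N) :
    ∃ σ : V ≃ W, TD Γ (pull Λ σ) (fun v w => M (σ v) w) (fun v w => N v (σ w)) := by
  obtain ⟨σ, hσ⟩ := permEx V W M N hpre.nm hpre.mn
  obtain ⟨hdeg, hdomM⟩ := domM degLe permEx V W Γ Λ M N hpre σ hσ
  have hdomN := domN domTr V W Λ M N hpre.nm σ hdomM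
  have hadj := adjIso domTr V W Γ Λ M N hpre σ hσ hdeg hdomM hdomN
  refine ⟨σ, ?_⟩
  have hdom : ∀ v l : V, Dom Λ (σ v) (σ l) → Dom Γ v l := by
    intro v l hd j hj
    rcases hd (σ j) ((hadj v j).mp hj) with h | h
    · exact Or.inl (σ.injective h)
    · exact Or.inr ((hadj j l).mpr h)
  refine ⟨⟨?_, ?_, ?_, ?_, ?_, ?_, ?_, ?_⟩, ?_, ?_, ?_⟩
  · intro v w
    rw [← hpre.nm v w]
    exact Equiv.sum_comp σ (fun i => N v i * M i w)
  · intro i j
    rw [hpre.mn (σ i) (σ j)]
    simp only [EmbeddingLike.apply_eq_iff_eq]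
  · intro a b hab i j hij
    exact hpre.heisM a b hab (σ i) (σ j) hij
  · intro a b hab i j hij hn
    exact hpre.heisM0 a b hab (σ i) (σ j) (fun h => hij (σ.injective h)) hn
  · intro i j hij a b hab
    exact hpre.heisN (σ i) (σ j) hij a b hab
  · intro i j hij a b hab hn
    exact hpre.heisN0 (σ i) (σ j) hij a b hab hn
  · exact TransportAux.starN Γ Λ N σ hpre.starN
  · exact TransportAux.starM Γ Λ M σ hpre.starM
  · intro a b
    exact hadj a b
  · intro v l hM
    exact hdom v l (hdomM v (σ l) hM)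
  · intro v l hN
    exact hdom l v (hdomN v (σ l) hN)

omit [Fintype V] [Fintype W] [DecidableEq V] [DecidableEq W] in
theorem pull_even' {Λ : LGraph W} (h : IsEven Λ) (σ : V ≃ W) : IsEven (pull Λ σ) := by
  intro s t hst
  exact h (σ s) (σ t) hst

omit [Fintype V] [Fintype W] [DecidableEq V] [DecidableEq W] in
theorem pull_iso {Λ : LGraph W} (h : IsEven Λ) (σ : V ≃ W) :
    ∃ r : Artin (pull Λ σ) ≃* Artin Λ, ∀ v, r (gen (pull Λ σ) v) = gen Λ (σ v) := by
  obtain ⟨f, hf⟩ := exists_hom (pull_even' h σ) (fun v => gen Λ (σ v)) (by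
    intro s t hst
    exact gen_rel h hst)
  obtain ⟨f', hf'⟩ := exists_hom h (fun w => gen (pull Λ σ) (σ.symm w)) (by
    intro s t hst
    have hadj : (pull Λ σ).graph.Adj (σ.symm s) (σ.symm t) := by
      change Λ.graph.Adj (σ (σ.symm s)) (σ (σ.symm t))
      rw [Equiv.apply_symm_apply, Equiv.apply_symm_apply]
      exact hst
    have h1 := gen_rel (pull_even' h σ) hadj
    have h2 : half (pull Λ σ) (σ.symm s) (σ.symm t) = half Λ s t := by
      change half Λ (σ (σ.symm s)) (σ (σ.symm t)) = half Λ s t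
      rw [Equiv.apply_symm_apply, Equiv.apply_symm_apply]
    rw [h2] at h1
    exact h1)
  have h1 : f'.comp f = MonoidHom.id _ := by
    apply hom_ext
    intro v
    rw [MonoidHom.comp_apply, hf, hf', Equiv.symm_apply_apply, MonoidHom.id_apply]
  have h2 : f.comp f' = MonoidHom.id _ := by
    apply hom_ext
    intro w
    rw [MonoidHom.comp_apply, hf', hf, Equiv.apply_symm_apply, MonoidHom.id_apply]
  exact ⟨MonoidHom.toMulEquiv f f' h1 h2, fun v => hf v⟩

theorem isExp_pull {Λ : LGraph W} (σ : V ≃ W) {y : W → (Artin Λ →* Multiplicative ℤ)}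
    (hy : IsExp Λ y) (r : Artin (pull Λ σ) ≃* Artin Λ)
    (hr : ∀ v, r (gen (pull Λ σ) v) = gen Λ (σ v)) :
    IsExp (pull Λ σ) (fun v => (y (σ v)).comp r.toMonoidHom) := by
  constructor
  · intro i j
    change y (σ i) (r (gen (pull Λ σ) j)) = _
    rw [hr, hy.1]
    simp only [EmbeddingLike.apply_eq_iff_eq]
  · intro A _ f g
    have h1 := hy.2 A (f.comp r.symm.toMonoidHom) (r g)
    have h2 : (f.comp r.symm.toMonoidHom) (r g) = f g := by
      change f (r.symm (r g)) = f g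
      rw [MulEquiv.symm_apply_apply]
    rw [h2] at h1
    rw [h1, ← Equiv.prod_comp σ]
    apply Finset.prod_congr rfl
    intro i _
    have h3 : (f.comp r.symm.toMonoidHom) (gen Λ (σ i)) = f (gen (pull Λ σ) i) := by
      change f (r.symm (gen Λ (σ i))) = _
      rw [← hr, MulEquiv.symm_apply_apply]
    rw [h3]
    rfl

end Trans2Aux

open Trans2Aux in
theorem trans2 : Trans2 := by
  intro V W _ _ _ _ Γ Λ hΓ hΛ he
  obtain ⟨e⟩ := he
  obtain ⟨x, hx⟩ := expHom V Γ hΓ
  obtain ⟨y, hy⟩ := expHom W Λ hΛ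
  have hx' : IsExp Γ x := hx
  have hy' : IsExp Λ y := hy
  obtain ⟨σ, htd⟩ := td_of (pre_of hΓ hΛ hx' hy' e)
  obtain ⟨r, hr⟩ := pull_iso hΛ σ
  refine ⟨σ, _, _, ⟨htd, x, fun v => (y (σ v)).comp r.toMonoidHom, e.trans r.symm, hx',
    isExp_pull σ hy' r hr, ?_, ?_⟩⟩
  · intro i v
    change Multiplicative.toAdd (y (σ i) (e (gen Γ v))) =
      Multiplicative.toAdd (y (σ i) (r (r.symm (e (gen Γ v)))))
    rw [MulEquiv.apply_symm_apply]
  · intro v i
    change Multiplicative.toAdd (x v (e.symm (gen Λ (σ i)))) =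
      Multiplicative.toAdd (x v (e.symm (r (gen (pull Λ σ) i))))
    rw [hr]

end WGEven
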